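import Pool.Agent.V5helper21.HD.Graph

set_option autoImplicit false

/-!
# The conics of the leaves: smoothness, uniqueness, closedness
-/

namespace Pool.Agent.V5helper21.HD

open Set Filter Topology
open scoped ContDiff

/-- smoothness of the osculating conic -/
lemma osc_smooth {n : WithTop ℕ∞} {x0 c : ℝ} {y0 y1 y2 y3 y4 w : ℝ → ℝ}
    (h0 : ContDiffAt ℝ n y0 c) (h1 : ContDiffAt ℝ n y1 c) (h2 : ContDiffAt ℝ n y2 c)
    (h3 : ContDiffAt ℝ n y3 c) (h4 : ContDiffAt ℝ n y4 c) (hw : ContDiffAt ℝ n w c)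
    (hne : y2 c ≠ 0) :
    ContDiffAt ℝ n (fun c => osc x0 (y0 c) (y1 c) (y2 c) (y3 c) (y4 c) (w c)) c := by
  have hF : ContDiffAt ℝ n (fun c => w c * (-(3 * y2 c * y4 c - 4 * y3 c ^ 2) /
      (18 * y2 c ^ 3))) c := by
    refine hw.mul (ContDiffAt.div ?_ ?_ (mul_ne_zero (by norm_num) (pow_ne_zero 3 hne)))
    · exact (((contDiffAt_const.mul h2).mul h4).sub (contDiffAt_const.mul (h3.pow 2))).neg
    · exact contDiffAt_const.mul (h2.pow 3)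
  set F := fun c => w c * (-(3 * y2 c * y4 c - 4 * y3 c ^ 2) / (18 * y2 c ^ 3)) with hFd
  have hE : ContDiffAt ℝ n (fun c => w c * (-y3 c / (3 * y2 c)) - 2 * F c * y1 c) c := by
    refine (hw.mul (ContDiffAt.div h3.neg (contDiffAt_const.mul h2)
      (mul_ne_zero (by norm_num) hne))).sub ((contDiffAt_const.mul hF).mul h1)
  set E := fun c => w c * (-y3 c / (3 * y2 c)) - 2 * F c * y1 c with hEd
  have hC : ContDiffAt ℝ n (fun c => w c - E c * x0 - 2 * F c * y0 c) c :=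
    (hw.sub (hE.mul contDiffAt_const)).sub ((contDiffAt_const.mul hF).mul h0)
  set C := fun c => w c - E c * x0 - 2 * F c * y0 c with hCd
  have hD : ContDiffAt ℝ n (fun c => -(C c * y2 c + E c * (2 * y1 c + x0 * y2 c) +
      2 * F c * (y1 c ^ 2 + y0 c * y2 c)) / 2) c := by
    refine ContDiffAt.div_const ?_ 2
    exact (((hC.mul h2).add (hE.mul ((contDiffAt_const.mul h1).add
      (contDiffAt_const.mul h2)))).add ((contDiffAt_const.mul hF).mul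
      ((h1.pow 2).add (h0.mul h2)))).neg
  set D := fun c => -(C c * y2 c + E c * (2 * y1 c + x0 * y2 c) +
      2 * F c * (y1 c ^ 2 + y0 c * y2 c)) / 2 with hDd
  have hB : ContDiffAt ℝ n (fun c => -(C c * y1 c + 2 * D c * x0 + E c * (y0 c + x0 * y1 c) +
      2 * F c * (y0 c * y1 c))) c := by
    exact ((((hC.mul h1).add ((contDiffAt_const.mul hD).mul contDiffAt_const)).add
      (hE.mul (h0.add (contDiffAt_const.mul h1)))).add ((contDiffAt_const.mul hF).mul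
      (h0.mul h1))).neg
  set B := fun c => -(C c * y1 c + 2 * D c * x0 + E c * (y0 c + x0 * y1 c) +
      2 * F c * (y0 c * y1 c)) with hBd
  have hA : ContDiffAt ℝ n (fun c => -(B c * x0 + C c * y0 c + D c * x0 ^ 2 +
      E c * (x0 * y0 c) + F c * y0 c ^ 2)) c := by
    exact (((((hB.mul contDiffAt_const).add (hC.mul h0)).add (hD.mul contDiffAt_const)).add
      (hE.mul (contDiffAt_const.mul h0))).add (hF.mul (h0.pow 2))).neg
  rw [contDiffAt_pi]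
  intro i
  fin_cases i
  · exact hA
  · exact hB
  · exact hC
  · exact hD
  · exact hE
  · exact hF

section
variable {f : ℝ × ℝ → ℝ} {U : Set (ℝ × ℝ)}

/-- **The family of conics near a curved point**, when the leaf is a graph. -/
lemma lc_graph (H : Hyp f U) {p : ℝ × ℝ} (hp : p ∈ U) (hσ : fderiv ℝ f p (0, 1) ≠ 0)
    (hc : Cur f p) : LC f p := by
  obtain ⟨Y, ρ, hρ, hY0, hY, hYW, hYu⟩ := chart H.opn H.smooth hp hσ
  set w₀ : ℝ × ℝ := (p.1, f p) with hw₀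
  have hW := Metric.isOpen_ball (x := w₀) (ε := ρ)
  have hw₀m : w₀ ∈ Metric.ball w₀ ρ := Metric.mem_ball_self hρ
  have hY' : ∀ w ∈ Metric.ball w₀ ρ, (w.1, Y w) ∈ U ∧ f (w.1, Y w) = w.2 :=
    fun w hw => ⟨(hYW w hw).1, (hYW w hw).2.1⟩
  have ep : ((w₀.1, Y w₀) : ℝ × ℝ) = p := Prod.ext rfl hY0
  have h2 : Yd Y 2 w₀ ≠ 0 := by
    refine (cur_chart H hW hY hY' hw₀m ?_).1 ?_
    · rw [ep]; exact hσ
    · rw [ep]; exact hc
  have cY : ∀ j ≤ 5, ContinuousAt (Yd Y j) w₀ := fun j hj =>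
    ((contDiffOn_Yd hW 8 hY j 0 (by omega)).contDiffAt (hW.mem_nhds hw₀m)).continuousAt
  have c0 : ContinuousAt Y w₀ := cY 0 (by norm_num)
  have cg : Tendsto (fun w : ℝ × ℝ => ((w.1, Y w) : ℝ × ℝ)) (𝓝 w₀) (𝓝 p) := by
    have := (continuousAt_fst.prodMk c0 : ContinuousAt (fun w : ℝ × ℝ => ((w.1, Y w) : ℝ × ℝ)) w₀)
    have := this.tendsto
    rwa [ep] at this
  have e1 : ∀ᶠ w in 𝓝 w₀, w ∈ Metric.ball w₀ ρ ∧ fderiv ℝ f (w.1, Y w) (0, 1) ≠ 0 ∧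
      Yd Y 2 w ≠ 0 := by
    filter_upwards [hW.mem_nhds hw₀m, cg.eventually (ev_good H hp hσ hc),
      (cY 2 (by norm_num)).eventually_ne h2] with w a1 a2 a3
    exact ⟨a1, a2.2.1, a3⟩
  obtain ⟨ρ', hρ', hb⟩ := Metric.eventually_nhds_iff_ball.1 e1
  have hmo : ∀ w ∈ Metric.ball w₀ ρ', Mo (Yd Y 2 w) (Yd Y 3 w) (Yd Y 4 w) (Yd Y 5 w) = 0 :=
    fun w hw => mo_zero H hW hY hYW (hb w hw).1 (hb w hw).2.1 (hb w hw).2.2
  -- the conics
  set yy : ℕ → ℝ → ℝ := fun j c => Yd Y j (p.1, c) with hyy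
  set κ : ℝ → Fin 6 → ℝ := fun c => osc p.1 (yy 0 c) (yy 1 c) (yy 2 c) (yy 3 c) (yy 4 c)
    (Real.exp (-(Real.log (yy 2 c) / 3))) with hκ
  have hyyc : ∀ j ≤ 4, ContDiffAt ℝ 2 (yy j) (f p) := by
    intro j hj
    have h1 : ContDiffAt ℝ ((2 : ℕ) : ℕ∞) (Yd Y j) w₀ :=
      (contDiffOn_Yd hW 8 hY j 2 (by omega)).contDiffAt (hW.mem_nhds hw₀m)
    have h2 : ContDiffAt ℝ 2 (Yd Y j) (p.1, f p) := h1
    exact ContDiffAt.comp (g := Yd Y j) (f := fun c : ℝ => ((p.1, c) : ℝ × ℝ)) (f p) h2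
      (contDiffAt_const.prodMk contDiffAt_id)
  have h2' : yy 2 (f p) ≠ 0 := h2
  refine ⟨κ, ?_, ?_, ?_⟩
  · refine osc_smooth (hyyc 0 (by norm_num)) (hyyc 1 (by norm_num)) (hyyc 2 (by norm_num))
      (hyyc 3 (by norm_num)) (hyyc 4 (by norm_num)) ?_ h2'
    exact (((hyyc 2 (by norm_num)).log h2').div_const 3).neg.exp
  · intro h0
    have h1 : Ky (κ (f p)) p.1 (yy 0 (f p)) = Real.exp (-(Real.log (yy 2 (f p)) / 3)) :=
      osc_Ky _ _ _ _ _ _ _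
    rw [h0] at h1
    have h3 := Real.exp_pos (-(Real.log (yy 2 (f p)) / 3))
    rw [← h1] at h3
    simp [Ky] at h3
  · have cpf : Tendsto (fun q : ℝ × ℝ => ((q.1, f q) : ℝ × ℝ)) (𝓝 p) (𝓝 w₀) :=
      (continuousAt_fst.prodMk H.cont.continuousAt :
        ContinuousAt (fun q : ℝ × ℝ => ((q.1, f q) : ℝ × ℝ)) p)
    filter_upwards [cpf.eventually (Metric.ball_mem_nhds w₀ hρ'), hYu] with q a1 a2
    have a1' : ((q.1, f q) : ℝ × ℝ) ∈ Metric.ball w₀ ρ' := a1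
    have hmem : ∀ x ∈ Ioo (p.1 - ρ') (p.1 + ρ'), ((x, f q) : ℝ × ℝ) ∈ Metric.ball w₀ ρ' := by
      intro x hx
      rw [Metric.mem_ball, Prod.dist_eq, max_lt_iff] at a1' ⊢
      refine ⟨?_, a1'.2⟩
      rw [Real.dist_eq, abs_lt]
      constructor <;> linarith [hx.1, hx.2]
    have hq1 : q.1 ∈ Ioo (p.1 - ρ') (p.1 + ρ') := by
      rw [Metric.mem_ball, Prod.dist_eq, max_lt_iff] at a1'
      have := a1'.1
      rw [Real.dist_eq, abs_lt] at this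
      constructor <;> linarith [this.1, this.2]
    have hj := jet_Yd hW hY (f q) (Ioo (p.1 - ρ') (p.1 + ρ')) (fun x hx => (hb _ (hmem x hx)).1)
    have ho := osc_const hj (fun x hx => (hb _ (hmem x hx)).2.2) (fun x hx => hmo _ (hmem x hx))
      (a := p.1) (b := q.1) ⟨by linarith, by linarith⟩ hq1
    have hκq : κ (f q) = osc q.1 (Yd Y 0 (q.1, f q)) (Yd Y 1 (q.1, f q)) (Yd Y 2 (q.1, f q))
      (Yd Y 3 (q.1, f q)) (Yd Y 4 (q.1, f q)) (Real.exp (-(Real.log (Yd Y 2 (q.1, f q)) / 3))) := ho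
    rw [hκq]
    have he := osc_ev q.1 (Yd Y 0 (q.1, f q)) (Yd Y 1 (q.1, f q)) (Yd Y 2 (q.1, f q))
      (Yd Y 3 (q.1, f q)) (Yd Y 4 (q.1, f q)) (Real.exp (-(Real.log (Yd Y 2 (q.1, f q)) / 3)))
    have e0 : ((q.1, Yd Y 0 (q.1, f q)) : ℝ × ℝ) = q := Prod.ext rfl a2
    rwa [e0] at he

/-- uniqueness of the conic at a curved point, when the leaf is a graph -/
lemma uniq_graph (H : Hyp f U) {p : ℝ × ℝ} (hp : p ∈ U) (hσ : fderiv ℝ f p (0, 1) ≠ 0)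
    (hc : Cur f p) {k k' : Fin 6 → ℝ} (hk : k ≠ 0) (h : On f k p) (h' : On f k' p) :
    (∃ a : ℝ, k' = a • k) ∧ detK k ≠ 0 := by
  obtain ⟨Y, ρ, hρ, hY0, hY, hYW, hYu⟩ := chart H.opn H.smooth hp hσ
  set w₀ : ℝ × ℝ := (p.1, f p) with hw₀
  have hW := Metric.isOpen_ball (x := w₀) (ε := ρ)
  have hw₀m : w₀ ∈ Metric.ball w₀ ρ := Metric.mem_ball_self hρ
  have hY' : ∀ w ∈ Metric.ball w₀ ρ, (w.1, Y w) ∈ U ∧ f (w.1, Y w) = w.2 :=
    fun w hw => ⟨(hYW w hw).1, (hYW w hw).2.1⟩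
  have ep : ((w₀.1, Y w₀) : ℝ × ℝ) = p := Prod.ext rfl hY0
  have h2 : Yd Y 2 w₀ ≠ 0 := by
    refine (cur_chart H hW hY hY' hw₀m ?_).1 ?_
    · rw [ep]; exact hσ
    · rw [ep]; exact hc
  have hon : On f k p ∧ On f k' p := ⟨h, h'⟩
  obtain ⟨ρ₁, hρ₁, hj₁, hev₁⟩ := leaf_conic hW hY hY' hw₀m hY0 h
  obtain ⟨ρ₂, hρ₂, hj₂, hev₂⟩ := leaf_conic hW hY hY' hw₀m hY0 h'
  set r := min ρ₁ ρ₂ with hr
  have hr0 : 0 < r := lt_min hρ₁ hρ₂
  have hr1 : r ≤ ρ₁ := min_le_left _ _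
  have hr2 : r ≤ ρ₂ := min_le_right _ _
  have hs1 : Ioo (p.1 - r) (p.1 + r) ⊆ Ioo (p.1 - ρ₁) (p.1 + ρ₁) :=
    Ioo_subset_Ioo (by linarith) (by linarith)
  have hs2 : Ioo (p.1 - r) (p.1 + r) ⊆ Ioo (p.1 - ρ₂) (p.1 + ρ₂) :=
    Ioo_subset_Ioo (by linarith) (by linarith)
  have hj : Jet (Ioo (p.1 - r) (p.1 + r)) (fun j x => Yd Y j (x, f p)) 5 :=
    fun j hj x hx => hj₁ j hj x (hs1 hx)
  have hpm : p.1 ∈ Ioo (p.1 - r) (p.1 + r) := ⟨by linarith, by linarith⟩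
  constructor
  · exact conic_unique (y := fun j x => Yd Y j (x, f p)) isOpen_Ioo hj
      (fun x hx => hev₁ x (hs1 hx)) (fun x hx => hev₂ x (hs2 hx)) hk hpm h2
  · obtain ⟨e0, e1, e2, e3, e4, e5⟩ := RR_zero (y := fun j x => Yd Y j (x, f p)) isOpen_Ioo hj
      (fun x hx => hev₁ x (hs1 hx)) p.1 hpm
    have hK : Ky k p.1 (Yd Y 0 (p.1, f p)) ≠ 0 := fun h0 => hk (k_zero h2 e0 e1 e2 e3 e4 h0)
    have hd := det_formula e0 e1 e2
    intro h0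
    rw [h0, mul_zero] at hd
    exact (mul_ne_zero (pow_ne_zero 3 hK) h2) hd

/-- closedness, when the leaf is a graph -/
lemma closed_graph (H : Hyp f U) {q : ℝ × ℝ} (hq : q ∈ U) (hσ : fderiv ℝ f q (0, 1) ≠ 0)
    {k : Fin 6 → ℝ} (hdet : detK k ≠ 0) (h : ∃ᶠ p in 𝓝 q, f p = f q ∧ On f k p) : Cur f q := by
  obtain ⟨Y, ρ, hρ, hY0, hY, hYW, hYu⟩ := chart H.opn H.smooth hq hσ
  set w₀ : ℝ × ℝ := (q.1, f q) with hw₀
  have hW := Metric.isOpen_ball (x := w₀) (ε := ρ)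
  have hw₀m : w₀ ∈ Metric.ball w₀ ρ := Metric.mem_ball_self hρ
  have hY' : ∀ w ∈ Metric.ball w₀ ρ, (w.1, Y w) ∈ U ∧ f (w.1, Y w) = w.2 :=
    fun w hw => ⟨(hYW w hw).1, (hYW w hw).2.1⟩
  have ep : ((w₀.1, Y w₀) : ℝ × ℝ) = q := Prod.ext rfl hY0
  have cY : ∀ j ≤ 5, ContinuousAt (Yd Y j) w₀ := fun j hj =>
    ((contDiffOn_Yd hW 8 hY j 0 (by omega)).contDiffAt (hW.mem_nhds hw₀m)).continuousAt
  have key : Yd Y 2 w₀ ≠ 0 := by
    intro h0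
    have c0 := cY 0 (by norm_num)
    have c2 := cY 2 (by norm_num)
    have cg : ContinuousAt (fun w : ℝ × ℝ => Ky k w.1 (Yd Y 0 w) ^ 3 * Yd Y 2 w - 8 * detK k) w₀ := by
      unfold Ky
      fun_prop
    have hg : (fun w : ℝ × ℝ => Ky k w.1 (Yd Y 0 w) ^ 3 * Yd Y 2 w - 8 * detK k) w₀ ≠ 0 := by
      show Ky k w₀.1 (Yd Y 0 w₀) ^ 3 * Yd Y 2 w₀ - 8 * detK k ≠ 0
      rw [h0, mul_zero, zero_sub]
      exact neg_ne_zero.2 (mul_ne_zero (by norm_num) hdet)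
    have cpf : Tendsto (fun q : ℝ × ℝ => ((q.1, f q) : ℝ × ℝ)) (𝓝 q) (𝓝 w₀) :=
      (continuousAt_fst.prodMk H.cont.continuousAt :
        ContinuousAt (fun q : ℝ × ℝ => ((q.1, f q) : ℝ × ℝ)) q)
    have e := (cpf.eventually ((cg.eventually_ne hg).and (hW.mem_nhds hw₀m))).and hYu
    obtain ⟨p, ⟨hpf, hon⟩, ⟨a1, a2⟩, a3⟩ := (h.and_eventually e).exists
    obtain ⟨ρ₁, hρ₁, hj₁, hev₁⟩ := leaf_conic hW hY hY' a2 a3 hon
    obtain ⟨e0, e1, e2, -⟩ := RR_zero (y := fun j x => Yd Y j (x, f p)) isOpen_Ioo hj₁ hev₁ p.1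
      ⟨by linarith, by linarith⟩
    apply a1
    have := det_formula e0 e1 e2
    show Ky k p.1 (Yd Y 0 (p.1, f p)) ^ 3 * Yd Y 2 (p.1, f p) - 8 * detK k = 0
    linarith
  have hσ' : fderiv ℝ f (w₀.1, Y w₀) (0, 1) ≠ 0 := by rw [ep]; exact hσ
  have := (cur_chart H hW hY hY' hw₀m hσ').2 key
  rwa [ep] at this

/-- the farthest points are curved, when the leaf is a graph -/
lemma far_graph (H : Hyp f U) {p z : ℝ × ℝ} (hp : p ∈ U) (hσ : fderiv ℝ f p (0, 1) ≠ 0)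
    (h : ∀ᶠ q in 𝓝 p, f q = f p → (q.1 - z.1) ^ 2 + (q.2 - z.2) ^ 2 ≤
      (p.1 - z.1) ^ 2 + (p.2 - z.2) ^ 2) : Cur f p := by
  obtain ⟨Y, ρ, hρ, hY0, hY, hYW, hYu⟩ := chart H.opn H.smooth hp hσ
  set w₀ : ℝ × ℝ := (p.1, f p) with hw₀
  have hW := Metric.isOpen_ball (x := w₀) (ε := ρ)
  have hw₀m : w₀ ∈ Metric.ball w₀ ρ := Metric.mem_ball_self hρ
  have hY' : ∀ w ∈ Metric.ball w₀ ρ, (w.1, Y w) ∈ U ∧ f (w.1, Y w) = w.2 :=
    fun w hw => ⟨(hYW w hw).1, (hYW w hw).2.1⟩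
  have ep : ((w₀.1, Y w₀) : ℝ × ℝ) = p := Prod.ext rfl hY0
  have hσ' : fderiv ℝ f (w₀.1, Y w₀) (0, 1) ≠ 0 := by rw [ep]; exact hσ
  have key : Yd Y 2 w₀ ≠ 0 := by
    intro h0
    have hmem : ∀ x ∈ Ioo (p.1 - ρ) (p.1 + ρ), ((x, f p) : ℝ × ℝ) ∈ Metric.ball w₀ ρ := by
      intro x hx
      rw [Metric.mem_ball, Prod.dist_eq, max_lt_iff]
      refine ⟨?_, ?_⟩
      · rw [Real.dist_eq, abs_lt]
        constructor <;> linarith [hx.1, hx.2]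
      · simpa [hw₀] using hρ
    have hj := jet_Yd hW hY (f p) (Ioo (p.1 - ρ) (p.1 + ρ)) hmem
    have j0 : ∀ x ∈ Ioo (p.1 - ρ) (p.1 + ρ), HasDerivAt (fun x => Y (x, f p)) (Yd Y 1 (x, f p)) x :=
      hj 0 (by norm_num)
    have j1 := hj 1 (by norm_num)
    have hpm : p.1 ∈ Ioo (p.1 - ρ) (p.1 + ρ) := ⟨by linarith, by linarith⟩
    set N : ℝ → ℝ := fun x => (x - z.1) ^ 2 + (Y (x, f p) - z.2) ^ 2 with hN
    set N' : ℝ → ℝ := fun x => 2 * (x - z.1) + 2 * (Y (x, f p) - z.2) * Yd Y 1 (x, f p) with hN'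
    have d1 : ∀ x ∈ Ioo (p.1 - ρ) (p.1 + ρ), HasDerivAt N (N' x) x := by
      intro x hx
      have h1 := (((hasDerivAt_id x).sub_const z.1).fun_pow 2).fun_add
        (((j0 x hx).sub_const z.2).fun_pow 2)
      refine h1.congr_deriv ?_
      simp only [hN', id]
      push_cast
      ring
    have d2 : HasDerivAt N' (2 + 2 * Yd Y 1 (p.1, f p) ^ 2) p.1 := by
      have h1 := (((hasDerivAt_id p.1).sub_const z.1).const_mul 2).fun_add
        ((((j0 p.1 hpm).sub_const z.2).const_mul 2).fun_mul (j1 p.1 hpm))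
      refine h1.congr_deriv ?_
      have h0' : Yd Y 2 (p.1, f p) = 0 := h0
      simp only [id]
      rw [show (1 : ℕ) + 1 = 2 from rfl, h0']
      ring
    have ed : deriv N =ᶠ[𝓝 p.1] N' := by
      filter_upwards [Ioo_mem_nhds hpm.1 hpm.2] with x hx using (d1 x hx).deriv
    have hmax : IsLocalMax N p.1 := by
      have c2 : ContinuousAt (fun x : ℝ => Y (x, f p)) p.1 := (j0 p.1 hpm).continuousAt
      have c3 : ContinuousAt (fun x : ℝ => ((x, Y (x, f p)) : ℝ × ℝ)) p.1 :=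
        continuousAt_id.prodMk c2
      have t3 : Tendsto (fun x : ℝ => ((x, Y (x, f p)) : ℝ × ℝ)) (𝓝 p.1) (𝓝 p) := by
        have := c3.tendsto
        rwa [hY0] at this
      filter_upwards [t3.eventually h, Ioo_mem_nhds hpm.1 hpm.2] with x hx hxm
      have h1 := hx (hY' _ (hmem x hxm)).2
      show (x - z.1) ^ 2 + (Y (x, f p) - z.2) ^ 2 ≤ (p.1 - z.1) ^ 2 + (Y (p.1, f p) - z.2) ^ 2
      rw [hY0]
      exact h1
    have hd0 : deriv N p.1 = 0 := hmax.deriv_eq_zero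
    have hdd : deriv (deriv N) p.1 = 2 + 2 * Yd Y 1 (p.1, f p) ^ 2 := by
      rw [ed.deriv_eq, d2.deriv]
    have hpos : 0 < deriv (deriv N) p.1 := by rw [hdd]; positivity
    have hmin := isLocalMin_of_deriv_deriv_pos hpos hd0 (d1 p.1 hpm).continuousAt
    have hconst : N =ᶠ[𝓝 p.1] fun _ => N p.1 := by
      filter_upwards [hmax, hmin] with x a1 a2 using le_antisymm a1 a2
    have : deriv (deriv N) p.1 = 0 := by
      have h1 : deriv N =ᶠ[𝓝 p.1] fun _ => 0 := by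
        have := hconst.deriv
        simpa using this
      rw [h1.deriv_eq]
      simp
    linarith
  have := (cur_chart H hW hY hY' hw₀m hσ').2 key
  rwa [ep] at this

end

end Pool.Agent.V5helper21.HD
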