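import Pool.Agent.V5helper21.HD.Monge

set_option autoImplicit false

/-!
# Leaves as graphs
-/

namespace Pool.Agent.V5helper21.HD

open Set Filter Topology
open scoped ContDiff

/-- iterated `x`-derivatives -/
noncomputable def Yd (Y : ℝ × ℝ → ℝ) : ℕ → ℝ × ℝ → ℝ
  | 0 => Y
  | (j + 1) => fun w => fderiv ℝ (Yd Y j) w (1, 0)

lemma contDiffOn_Yd {Y : ℝ × ℝ → ℝ} {W : Set (ℝ × ℝ)} (hW : IsOpen W) (n : ℕ)
    (hY : ContDiffOn ℝ (n : ℕ∞) Y W) (j m : ℕ) (h : m + j ≤ n) :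
    ContDiffOn ℝ (m : ℕ∞) (Yd Y j) W := by
  induction j generalizing m with
  | zero => exact hY.of_le (by exact_mod_cast h)
  | succ j ih =>
    have h1 : ContDiffOn ℝ ((m + 1 : ℕ) : ℕ∞) (Yd Y j) W := ih (m + 1) (by omega)
    have h2 : ContDiffOn ℝ (m : ℕ∞) (fderiv ℝ (Yd Y j)) W :=
      h1.fderiv_of_isOpen hW (by push_cast; exact le_rfl)
    exact h2.clm_apply contDiffOn_const

lemma jet_Yd {Y : ℝ × ℝ → ℝ} {W : Set (ℝ × ℝ)} (hW : IsOpen W)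
    (hY : ContDiffOn ℝ ((8 : ℕ) : ℕ∞) Y W) (c : ℝ) (S : Set ℝ) (hS : ∀ x ∈ S, (x, c) ∈ W) :
    Jet S (fun j x => Yd Y j (x, c)) 5 := by
  intro j hj x hx
  have h1 : ContDiffOn ℝ ((1 : ℕ) : ℕ∞) (Yd Y j) W := contDiffOn_Yd hW 8 hY j 1 (by omega)
  have h2 : DifferentiableAt ℝ (Yd Y j) (x, c) :=
    (h1.contDiffAt (hW.mem_nhds (hS x hx))).differentiableAt (by norm_num)
  have h3 : HasDerivAt (fun x : ℝ => ((x, c) : ℝ × ℝ)) (1, 0) x :=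
    (hasDerivAt_id x).prodMk (hasDerivAt_const x c)
  exact h2.hasFDerivAt.comp_hasDerivAt x h3

/-- **The chart** in which the leaves are graphs. -/
lemma chart {f : ℝ × ℝ → ℝ} {U : Set (ℝ × ℝ)} (hU : IsOpen U) (hf : ContDiffOn ℝ ∞ f U)
    {q : ℝ × ℝ} (hq : q ∈ U) (hσ : fderiv ℝ f q (0, 1) ≠ 0) :
    ∃ (Y : ℝ × ℝ → ℝ) (ρ : ℝ), 0 < ρ ∧ Y (q.1, f q) = q.2 ∧
      ContDiffOn ℝ ((8 : ℕ) : ℕ∞) Y (Metric.ball (q.1, f q) ρ) ∧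
      (∀ w ∈ Metric.ball (q.1, f q) ρ, (w.1, Y w) ∈ U ∧ f (w.1, Y w) = w.2 ∧
        ∀ᶠ p in 𝓝 ((w.1, Y w) : ℝ × ℝ), Y (p.1, f p) = p.2) ∧
      (∀ᶠ p in 𝓝 q, Y (p.1, f p) = p.2) := by
  set G : (ℝ × ℝ) × ℝ → ℝ := fun v => f (v.1.1, v.2) - v.1.2 with hG
  set u : (ℝ × ℝ) × ℝ := ((q.1, f q), q.2) with hu
  have hGu : G u = 0 := sub_self _
  have hcd : ContDiffAt ℝ ((8 : ℕ) : ℕ∞) G u := by
    have h1 : ContDiffAt ℝ ((8 : ℕ) : ℕ∞) (fun v : (ℝ × ℝ) × ℝ => ((v.1.1, v.2) : ℝ × ℝ)) u := by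
      fun_prop
    have h2 : ContDiffAt ℝ ((8 : ℕ) : ℕ∞) f (q.1, q.2) :=
      (hf.contDiffAt (hU.mem_nhds hq)).of_le (by exact_mod_cast le_top)
    have h3 : ContDiffAt ℝ ((8 : ℕ) : ℕ∞) (fun v : (ℝ × ℝ) × ℝ => f (v.1.1, v.2)) u :=
      ContDiffAt.comp (g := f) (f := fun v : (ℝ × ℝ) × ℝ => ((v.1.1, v.2) : ℝ × ℝ)) u h2 h1
    exact h3.sub (by fun_prop)
  have hn0 : (((8 : ℕ) : ℕ∞) : WithTop ℕ∞) ≠ 0 := by norm_num
  have hG2 : fderiv ℝ G u (0, 1) = fderiv ℝ f q (0, 1) := by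
    have h1 : HasDerivAt (fun y : ℝ => (((q.1, f q), y) : (ℝ × ℝ) × ℝ)) (0, 1) q.2 :=
      (hasDerivAt_const q.2 ((q.1, f q) : ℝ × ℝ)).prodMk (hasDerivAt_id q.2)
    have h2 : HasFDerivAt G (fderiv ℝ G u) u := (hcd.differentiableAt hn0).hasFDerivAt
    have h3 := h2.comp_hasDerivAt q.2 h1
    have h4 : HasDerivAt (fun y : ℝ => ((q.1, y) : ℝ × ℝ)) (0, 1) q.2 :=
      (hasDerivAt_const q.2 q.1).prodMk (hasDerivAt_id q.2)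
    have h5 : HasFDerivAt f (fderiv ℝ f q) (q.1, q.2) := (diff_f hU hf hq).hasFDerivAt
    have h6 : HasDerivAt (fun y : ℝ => f (q.1, y) - f q) (fderiv ℝ f q (0, 1)) q.2 :=
      (h5.comp_hasDerivAt q.2 h4).sub_const (f q)
    exact h3.unique h6
  have hinv : (fderiv ℝ G u ∘L .inr ℝ (ℝ × ℝ) ℝ).IsInvertible := by
    refine ⟨ContinuousLinearEquiv.unitsEquivAut ℝ (Units.mk0 _ hσ), ?_⟩
    ext
    simp [hG2]
  set Y := hcd.implicitFunction hn0 hinv with hYd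
  have hY0 : Y (q.1, f q) = q.2 := hcd.implicitFunction_apply_self hn0 hinv
  have hYc : ContDiffAt ℝ ((8 : ℕ) : ℕ∞) Y (q.1, f q) := hcd.contDiffAt_implicitFunction hn0 hinv
  have hcont : ContinuousAt Y (q.1, f q) := hYc.continuousAt
  have hev : ∀ᶠ w in 𝓝 ((q.1, f q) : ℝ × ℝ), f (w.1, Y w) = w.2 := by
    filter_upwards [hcd.eventually_apply_implicitFunction hn0 hinv] with w hw
    have : f (w.1, Y w) - w.2 = G u := hw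
    rw [hGu] at this
    exact sub_eq_zero.1 this
  have huniq : ∀ᶠ p in 𝓝 q, Y (p.1, f p) = p.2 := by
    have h1 := hcd.eventually_apply_eq_iff_implicitFunction hn0 hinv
    have cf : ContinuousAt f q := (diff_f hU hf hq).continuousAt
    have h2 : ContinuousAt (fun p : ℝ × ℝ => (((p.1, f p), p.2) : (ℝ × ℝ) × ℝ)) q := by fun_prop
    filter_upwards [h2.eventually h1] with p hp
    refine hp.1 ?_
    rw [hGu]
    exact sub_self _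
  have hcp : ContinuousAt (fun w : ℝ × ℝ => ((w.1, Y w) : ℝ × ℝ)) (q.1, f q) := by fun_prop
  have hU' : ∀ᶠ w in 𝓝 ((q.1, f q) : ℝ × ℝ), (w.1, Y w) ∈ U := by
    refine hcp.eventually_mem (hU.mem_nhds ?_)
    show (q.1, Y (q.1, f q)) ∈ U
    rw [hY0]; exact hq
  have huniq' : ∀ᶠ w in 𝓝 ((q.1, f q) : ℝ × ℝ), ∀ᶠ p in 𝓝 ((w.1, Y w) : ℝ × ℝ),
      Y (p.1, f p) = p.2 := by
    have h1 : ∀ᶠ p' in 𝓝 ((fun w : ℝ × ℝ => ((w.1, Y w) : ℝ × ℝ)) (q.1, f q)),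
        ∀ᶠ p in 𝓝 p', Y (p.1, f p) = p.2 := by
      show ∀ᶠ p' in 𝓝 ((q.1, Y (q.1, f q)) : ℝ × ℝ), ∀ᶠ p in 𝓝 p', Y (p.1, f p) = p.2
      rw [hY0]
      exact huniq.eventually_nhds
    exact hcp.eventually h1
  have hall : ∀ᶠ w in 𝓝 ((q.1, f q) : ℝ × ℝ), ContDiffAt ℝ ((8 : ℕ) : ℕ∞) Y w ∧
      (w.1, Y w) ∈ U ∧ f (w.1, Y w) = w.2 ∧
        ∀ᶠ p in 𝓝 ((w.1, Y w) : ℝ × ℝ), Y (p.1, f p) = p.2 := by
    filter_upwards [hYc.eventually (by simp), hU', hev, huniq'] with w h1 h2 h3 h4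
    exact ⟨h1, h2, h3, h4⟩
  obtain ⟨ρ, hρ, hb⟩ := Metric.eventually_nhds_iff_ball.1 hall
  exact ⟨Y, ρ, hρ, hY0, fun w hw => (hb w hw).1.contDiffWithinAt, fun w hw => (hb w hw).2, huniq⟩

/-- first and second derivative along the leaf -/
lemma chart_deriv {f : ℝ × ℝ → ℝ} {U : Set (ℝ × ℝ)} (hU : IsOpen U) (hf : ContDiffOn ℝ ∞ f U)
    {Y : ℝ × ℝ → ℝ} {W : Set (ℝ × ℝ)} (hW : IsOpen W) (hY : ContDiffOn ℝ ((8 : ℕ) : ℕ∞) Y W)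
    (h : ∀ w ∈ W, (w.1, Y w) ∈ U ∧ f (w.1, Y w) = w.2) {w : ℝ × ℝ} (hw : w ∈ W) :
    fderiv ℝ f (w.1, Y w) (1, Yd Y 1 w) = 0 ∧
      fderiv ℝ (fderiv ℝ f) (w.1, Y w) (1, Yd Y 1 w) (1, Yd Y 1 w) +
        fderiv ℝ f (w.1, Y w) (0, 1) * Yd Y 2 w = 0 := by
  obtain ⟨x, c⟩ := w
  set S : Set ℝ := {x | (x, c) ∈ W} with hS
  have hSo : IsOpen S := hW.preimage (by fun_prop : Continuous fun x : ℝ => ((x, c) : ℝ × ℝ))
  have hj := jet_Yd hW hY c S (fun x hx => hx)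
  have j0 := hj 0 (by norm_num)
  have j1 := hj 1 (by norm_num)
  have d1 : ∀ x ∈ S, HasDerivAt (fun x => f (x, Y (x, c)))
      (fderiv ℝ f (x, Y (x, c)) (1, Yd Y 1 (x, c))) x := by
    intro x hx
    have h1 : HasDerivAt (fun x : ℝ => ((x, Y (x, c)) : ℝ × ℝ)) (1, Yd Y 1 (x, c)) x :=
      (hasDerivAt_id x).prodMk (j0 x hx)
    exact (diff_f hU hf (h _ hx).1).hasFDerivAt.comp_hasDerivAt x h1
  have z1 : ∀ x ∈ S, fderiv ℝ f (x, Y (x, c)) (1, Yd Y 1 (x, c)) = 0 := by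
    intro x hx
    have h1 : (fun x => f (x, Y (x, c))) =ᶠ[𝓝 x] fun _ => c := by
      filter_upwards [hSo.mem_nhds hx] with x' hx'
      exact (h _ hx').2
    exact ((d1 x hx).congr_of_eventuallyEq h1.symm).unique (hasDerivAt_const x c)
  refine ⟨z1 x hw, ?_⟩
  have h1 : HasDerivAt (fun x : ℝ => ((x, Y (x, c)) : ℝ × ℝ)) (1, Yd Y 1 (x, c)) x :=
    (hasDerivAt_id x).prodMk (j0 x hw)
  have h2 : HasDerivAt (fun x : ℝ => fderiv ℝ f (x, Y (x, c)))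
      (fderiv ℝ (fderiv ℝ f) (x, Y (x, c)) (1, Yd Y 1 (x, c))) x :=
    (diff_fderiv hU hf (h _ hw).1).hasFDerivAt.comp_hasDerivAt x h1
  have h3 : HasDerivAt (fun x : ℝ => ((1, Yd Y 1 (x, c)) : ℝ × ℝ)) (0, Yd Y 2 (x, c)) x :=
    (hasDerivAt_const x (1 : ℝ)).prodMk (j1 x hw)
  have h4 := h2.clm_apply h3
  have h5 := zero_of_zero hSo (g := fun x => fderiv ℝ f (x, Y (x, c)) (1, Yd Y 1 (x, c)))
    (g' := fun x => deriv (fun x => fderiv ℝ f (x, Y (x, c)) (1, Yd Y 1 (x, c))) x)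
    (fun x hx => by
      have a1 : HasDerivAt (fun x : ℝ => ((x, Y (x, c)) : ℝ × ℝ)) (1, Yd Y 1 (x, c)) x :=
        (hasDerivAt_id x).prodMk (j0 x hx)
      have a2 : HasDerivAt (fun x : ℝ => fderiv ℝ f (x, Y (x, c)))
          (fderiv ℝ (fderiv ℝ f) (x, Y (x, c)) (1, Yd Y 1 (x, c))) x :=
        (diff_fderiv hU hf (h _ hx).1).hasFDerivAt.comp_hasDerivAt x a1
      have a3 : HasDerivAt (fun x : ℝ => ((1, Yd Y 1 (x, c)) : ℝ × ℝ)) (0, Yd Y 2 (x, c)) x :=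
        (hasDerivAt_const x (1 : ℝ)).prodMk (j1 x hx)
      exact (a2.clm_apply a3).differentiableAt.hasDerivAt) z1 x hw
  rw [h4.deriv] at h5
  have h6 : ((0, Yd Y 2 (x, c)) : ℝ × ℝ) = Yd Y 2 (x, c) • (0, 1) := by ext <;> simp
  rw [h6, map_smul, smul_eq_mul] at h5
  show fderiv ℝ (fderiv ℝ f) (x, Y (x, c)) (1, Yd Y 1 (x, c)) (1, Yd Y 1 (x, c)) +
        fderiv ℝ f (x, Y (x, c)) (0, 1) * Yd Y 2 (x, c) = 0
  linarith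

end Pool.Agent.V5helper21.HD
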