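import Pool.Agent.V5helper21.HD.Fatou

set_option autoImplicit false

/-!
# Three pairs of arcs which cut all lines in pairs of points of an involution

`m`: slope, `b`: intercept of the line `y = m x + b`; `S`, `P`: sum and product of the abscissae of
the two points of a pair on this line.
-/

namespace Pool.Agent.V5helper21.HD

open Polynomial Set Filter Topology

/-- sum and product of a pair of solutions of `∂_m x = x ∂_b x` -/
structure Pair (I J : Set ℝ) (S P Sm Sb Pm Pb : ℝ → ℝ → ℝ) : Prop where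
  dSm : ∀ m ∈ I, ∀ b ∈ J, HasDerivAt (fun m' => S m' b) (Sm m b) m
  dSb : ∀ m ∈ I, ∀ b ∈ J, HasDerivAt (fun b' => S m b') (Sb m b) b
  dPm : ∀ m ∈ I, ∀ b ∈ J, HasDerivAt (fun m' => P m' b) (Pm m b) m
  dPb : ∀ m ∈ I, ∀ b ∈ J, HasDerivAt (fun b' => P m b') (Pb m b) b
  e1 : ∀ m ∈ I, ∀ b ∈ J, Sm m b + Pb m b = S m b * Sb m b
  e2 : ∀ m ∈ I, ∀ b ∈ J, Pm m b = P m b * Sb m b

/-- a function on an interval with a polynomial derivative is a polynomial -/
lemma poly_of_deriv {u v : ℝ} (g g' : ℝ → ℝ) (hg : ∀ b ∈ Ioo u v, HasDerivAt g (g' b) b)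
    (p : ℝ[X]) {n : ℕ} (hp : p.natDegree ≤ n) (hp' : ∀ b ∈ Ioo u v, g' b = p.eval b) :
    ∃ q : ℝ[X], q.natDegree ≤ n + 1 ∧ ∀ b ∈ Ioo u v, g b = q.eval b := by
  rcases (Ioo u v).eq_empty_or_nonempty with he | ⟨c, hc⟩
  · exact ⟨0, by simp, fun b hb => by rw [he] at hb; exact absurd hb (notMem_empty _)⟩
  -- a primitive
  set r : ℝ[X] := ∑ i ∈ Finset.range (n + 1), C (p.coeff i / (i + 1)) * X ^ (i + 1) with hr
  have hrd : derivative r = p := by
    rw [hr, derivative_sum]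
    conv_rhs => rw [p.as_sum_range_C_mul_X_pow' (Nat.lt_succ_of_le hp)]
    refine Finset.sum_congr rfl fun i _ => ?_
    rw [derivative_C_mul_X_pow]
    congr 2
    push_cast
    field_simp
  have hrn : r.natDegree ≤ n + 1 := by
    refine natDegree_sum_le_of_forall_le _ _ fun i hi => ?_
    refine (natDegree_C_mul_X_pow_le _ _).trans ?_
    have := Finset.mem_range.1 hi
    omega
  refine ⟨C (g c - r.eval c) + r, ?_, fun b hb => ?_⟩
  · refine (natDegree_add_le _ _).trans (max_le ?_ hrn)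
    rw [natDegree_C]; omega
  · have hd : ∀ b ∈ Ioo u v, HasDerivAt (fun b => g b - r.eval b) 0 b := by
      intro b hb
      have h1 := (hg b hb).sub (r.hasDerivAt b)
      rw [hrd, hp' b hb, sub_self] at h1
      exact h1
    have hconst := (convex_Ioo u v).is_const_of_fderivWithin_eq_zero (𝕜 := ℝ)
      (f := fun b => g b - r.eval b)
      (fun b hb => (hd b hb).differentiableAt.differentiableWithinAt)
      (fun b hb => by
        rw [fderivWithin_of_isOpen isOpen_Ioo hb]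
        ext
        simpa using (hd b hb).deriv) hb hc
    rw [eval_add, eval_C]
    linarith

/-- two polynomials which agree on an interval -/
lemma poly_ext {u v : ℝ} (huv : u < v) (p q : ℝ[X]) (h : ∀ b ∈ Ioo u v, p.eval b = q.eval b) :
    p = q := by
  refine Polynomial.eq_of_infinite_eval_eq p q ?_
  refine Set.Infinite.mono ?_ (Set.Ioo_infinite huv)
  intro b hb
  exact h b hb

/-- `∂_m` of a family of polynomials -/
lemma poly_param {u v : ℝ} (huv : u < v) {I : Set ℝ} (hI : IsOpen I) (g gm : ℝ → ℝ → ℝ)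
    (hg : ∀ m ∈ I, ∀ b ∈ Ioo u v, HasDerivAt (fun m' => g m' b) (gm m b) m) (n : ℕ)
    (hp : ∀ m ∈ I, ∃ p : ℝ[X], p.natDegree ≤ n ∧ ∀ b ∈ Ioo u v, g m b = p.eval b) :
    ∀ m ∈ I, ∃ p : ℝ[X], p.natDegree ≤ n ∧ ∀ b ∈ Ioo u v, gm m b = p.eval b := by
  -- nodes
  obtain ⟨t, htJ, htc⟩ := (Set.Ioo_infinite huv).exists_subset_card_eq (n + 1)
  have hinj : Set.InjOn (id : ℝ → ℝ) (t : Set ℝ) := Set.injOn_id _
  have hrep : ∀ m ∈ I, ∀ b ∈ Ioo u v,
      g m b = ∑ i ∈ t, g m i * (Lagrange.basis t id i).eval b := by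
    intro m hm b hb
    obtain ⟨p, hpn, hpe⟩ := hp m hm
    have h1 : p = Lagrange.interpolate t id (fun i => p.eval (id i)) := by
      refine Lagrange.eq_interpolate_of_eval_eq _ hinj ?_ (fun i _ => rfl)
      rw [htc]
      exact lt_of_le_of_lt degree_le_natDegree (by exact_mod_cast Nat.lt_succ_of_le hpn)
    have h2 := congrArg (fun q : ℝ[X] => q.eval b) h1
    simp only [Lagrange.interpolate_apply, eval_finsetSum, eval_mul, eval_C, id] at h2
    rw [hpe b hb, h2]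
    refine Finset.sum_congr rfl fun i hi => ?_
    rw [hpe i (htJ hi)]
  intro m hm
  refine ⟨∑ i ∈ t, C (gm m i) * Lagrange.basis t id i, ?_, fun b hb => ?_⟩
  · refine natDegree_sum_le_of_forall_le _ _ fun i hi => ?_
    refine (natDegree_C_mul_le _ _).trans ?_
    rw [Lagrange.natDegree_basis hinj hi, htc]
    simp
  · rw [eval_finsetSum]
    have h1 : HasDerivAt (fun m' => g m' b)
        (∑ i ∈ t, gm m i * (Lagrange.basis t id i).eval b) m := by
      have h2 : HasDerivAt (fun m' => ∑ i ∈ t, g m' i * (Lagrange.basis t id i).eval b)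
          (∑ i ∈ t, gm m i * (Lagrange.basis t id i).eval b) m :=
        HasDerivAt.fun_sum fun i hi => (hg m hm i (htJ hi)).mul_const _
      refine h2.congr_of_eventuallyEq ?_
      filter_upwards [hI.mem_nhds hm] with m' hm'
      exact hrep m' hm' b hb
    rw [(hg m hm b hb).unique h1]
    refine Finset.sum_congr rfl fun i _ => ?_
    rw [eval_mul, eval_C]

section core

variable {I : Set ℝ} {u v : ℝ}
  {S₁ P₁ S₁m S₁b P₁m P₁b S₂ P₂ S₂m S₂b P₂m P₂b S₃ P₃ S₃m S₃b P₃m P₃b : ℝ → ℝ → ℝ}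

/-- the coefficients of `(d x - w) / (x² - S x + P)` at infinity -/
def ee (S P d w : ℝ) : ℕ → ℝ
  | 0 => d
  | 1 => S * d - w
  | (k + 2) => S * ee S P d w (k + 1) - P * ee S P d w k

/-- their derivatives -/
def ed (S P d w S' P' d' w' : ℝ) : ℕ → ℝ
  | 0 => d'
  | 1 => S' * d + S * d' - w'
  | (k + 2) => S' * ee S P d w (k + 1) + S * ed S P d w S' P' d' w' (k + 1) -
      (P' * ee S P d w k + P * ed S P d w S' P' d' w' k)

lemma hasDerivAt_ee {S P d w S' P' d' w' : ℝ → ℝ} {t : ℝ} (hS : HasDerivAt S (S' t) t)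
    (hP : HasDerivAt P (P' t) t) (hd : HasDerivAt d (d' t) t) (hw : HasDerivAt w (w' t) t)
    (k : ℕ) : HasDerivAt (fun t => ee (S t) (P t) (d t) (w t) k)
      (ed (S t) (P t) (d t) (w t) (S' t) (P' t) (d' t) (w' t) k) t := by
  induction k using Nat.strong_induction_on with
  | _ k ih =>
    match k with
    | 0 => simpa [ee, ed] using hd
    | 1 => simpa [ee, ed] using (hS.fun_mul hd).fun_sub hw
    | (k + 2) =>
      simp only [ee, ed]
      exact (hS.fun_mul (ih (k + 1) (by omega))).fun_sub (hP.fun_mul (ih k (by omega)))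

/-- the relation between the derivatives -/
lemma ee_pde (S P d w Sm Pm dm wm Sb Pb db wb : ℝ) (h1 : Sm + Pb = S * Sb) (h2 : Pm = P * Sb)
    (h3 : Sb * d + S * db - wb = dm + db * d)
    (h4 : Sb * (S * d - w) + S * (Sb * d + S * db - wb) - (Pb * d + P * db) =
      Sm * d + S * dm - wm + db * (S * d - w)) (k : ℕ) :
    ed S P d w Sb Pb db wb (k + 1) = ed S P d w Sm Pm dm wm k + db * ee S P d w k := by
  have key : ∀ k, ed S P d w Sb Pb db wb (k + 1) = ed S P d w Sm Pm dm wm k + db * ee S P d w k ∧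
      ed S P d w Sb Pb db wb (k + 2) = ed S P d w Sm Pm dm wm (k + 1) +
        db * ee S P d w (k + 1) := by
    intro k
    induction k with
    | zero =>
      refine ⟨?_, ?_⟩
      · simp only [ee, ed]; exact h3
      · simp only [ee, ed]; exact h4
    | succ k ih =>
      refine ⟨ih.2, ?_⟩
      have e1 : ed S P d w Sb Pb db wb (k + 1 + 2) = Sb * ee S P d w (k + 2) +
          S * ed S P d w Sb Pb db wb (k + 2) - (Pb * ee S P d w (k + 1) +
          P * ed S P d w Sb Pb db wb (k + 1)) := rfl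
      have e2 : ed S P d w Sm Pm dm wm (k + 1 + 1) = Sm * ee S P d w (k + 1) +
          S * ed S P d w Sm Pm dm wm (k + 1) - (Pm * ee S P d w k +
          P * ed S P d w Sm Pm dm wm k) := rfl
      have e3 : ee S P d w (k + 1 + 1) = S * ee S P d w (k + 1) - P * ee S P d w k := rfl
      rw [e1, e2, e3, ih.1, ih.2, h2]
      linear_combination (-ee S P d w (k + 1)) * h1
  exact (key k).1

/-- `λ` -/
lemma lam_exists (hI : IsOpen I) (h₁ : Pair I (Ioo u v) S₁ P₁ S₁m S₁b P₁m P₁b)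
    (h₂ : Pair I (Ioo u v) S₂ P₂ S₂m S₂b P₂m P₂b)
    (h₃ : Pair I (Ioo u v) S₃ P₃ S₃m S₃b P₃m P₃b)
    (hres : ∀ m ∈ I, ∀ b ∈ Ioo u v, (P₁ m b - P₂ m b) ^ 2 -
      S₂ m b * (S₁ m b - S₂ m b) * (P₁ m b - P₂ m b) + P₂ m b * (S₁ m b - S₂ m b) ^ 2 ≠ 0)
    (hcol : ∀ m ∈ I, ∀ b ∈ Ioo u v, (S₃ m b - S₂ m b) * (P₁ m b - P₂ m b) =
      (P₃ m b - P₂ m b) * (S₁ m b - S₂ m b)) :
    ∃ lam lm : ℝ → ℝ, (∀ m ∈ I, ∀ b ∈ Ioo u v,
      S₃ m b = S₂ m b + lam m * (S₁ m b - S₂ m b) ∧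
      P₃ m b = P₂ m b + lam m * (P₁ m b - P₂ m b)) ∧
      ∀ m ∈ I, ∀ b ∈ Ioo u v, lm m + lam m * (1 - lam m) * (S₁b m b - S₂b m b) = 0 := by
  rcases (Ioo u v).eq_empty_or_nonempty with he | ⟨c, hc⟩
  · exact ⟨0, 0, by simp [he], by simp [he]⟩
  set L : ℝ → ℝ → ℝ := fun m b => ((S₃ m b - S₂ m b) * (S₁ m b - S₂ m b) +
    (P₃ m b - P₂ m b) * (P₁ m b - P₂ m b)) / ((S₁ m b - S₂ m b) ^ 2 + (P₁ m b - P₂ m b) ^ 2)
    with hL
  have hden : ∀ m ∈ I, ∀ b ∈ Ioo u v, (S₁ m b - S₂ m b) ^ 2 + (P₁ m b - P₂ m b) ^ 2 ≠ 0 := by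
    intro m hm b hb h0
    have h1 : S₁ m b - S₂ m b = 0 := by
      nlinarith [sq_nonneg (S₁ m b - S₂ m b), sq_nonneg (P₁ m b - P₂ m b)]
    have h2 : P₁ m b - P₂ m b = 0 := by
      nlinarith [sq_nonneg (S₁ m b - S₂ m b), sq_nonneg (P₁ m b - P₂ m b)]
    apply hres m hm b hb
    rw [h1, h2]; ring
  have hS₃ : ∀ m ∈ I, ∀ b ∈ Ioo u v, S₃ m b = S₂ m b + L m b * (S₁ m b - S₂ m b) := by
    intro m hm b hb
    have h1 := hcol m hm b hb
    have h2 := hden m hm b hb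
    simp only [hL]
    field_simp
    linear_combination (P₁ m b - P₂ m b) * h1
  have hP₃ : ∀ m ∈ I, ∀ b ∈ Ioo u v, P₃ m b = P₂ m b + L m b * (P₁ m b - P₂ m b) := by
    intro m hm b hb
    have h1 := hcol m hm b hb
    have h2 := hden m hm b hb
    simp only [hL]
    field_simp
    linear_combination (-(S₁ m b - S₂ m b)) * h1
  -- differentiability
  have hLm : ∀ m ∈ I, ∀ b ∈ Ioo u v, DifferentiableAt ℝ (fun m' => L m' b) m := by
    intro m hm b hb
    have a1 := (h₁.dSm m hm b hb).differentiableAt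
    have a2 := (h₂.dSm m hm b hb).differentiableAt
    have a3 := (h₃.dSm m hm b hb).differentiableAt
    have b1 := (h₁.dPm m hm b hb).differentiableAt
    have b2 := (h₂.dPm m hm b hb).differentiableAt
    have b3 := (h₃.dPm m hm b hb).differentiableAt
    simp only [hL]
    exact (((a3.sub a2).mul (a1.sub a2)).add ((b3.sub b2).mul (b1.sub b2))).div
      (((a1.sub a2).pow 2).add ((b1.sub b2).pow 2)) (hden m hm b hb)
  have hLb : ∀ m ∈ I, ∀ b ∈ Ioo u v, DifferentiableAt ℝ (fun b' => L m b') b := by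
    intro m hm b hb
    have a1 := (h₁.dSb m hm b hb).differentiableAt
    have a2 := (h₂.dSb m hm b hb).differentiableAt
    have a3 := (h₃.dSb m hm b hb).differentiableAt
    have b1 := (h₁.dPb m hm b hb).differentiableAt
    have b2 := (h₂.dPb m hm b hb).differentiableAt
    have b3 := (h₃.dPb m hm b hb).differentiableAt
    simp only [hL]
    exact (((a3.sub a2).mul (a1.sub a2)).add ((b3.sub b2).mul (b1.sub b2))).div
      (((a1.sub a2).pow 2).add ((b1.sub b2).pow 2)) (hden m hm b hb)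
  have hmain : ∀ m ∈ I, ∀ b ∈ Ioo u v, deriv (fun b' => L m b') b = 0 ∧
      deriv (fun m' => L m' b) m + L m b * (1 - L m b) * (S₁b m b - S₂b m b) = 0 := by
    intro m hm b hb
    set lm := deriv (fun m' => L m' b) m with hlm
    set lb := deriv (fun b' => L m b') b with hlb
    have dm : HasDerivAt (fun m' => L m' b) lm m := (hLm m hm b hb).hasDerivAt
    have db : HasDerivAt (fun b' => L m b') lb b := (hLb m hm b hb).hasDerivAt
    have r1 : S₃m m b = S₂m m b + (lm * (S₁ m b - S₂ m b) + L m b * (S₁m m b - S₂m m b)) := by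
      refine (h₃.dSm m hm b hb).unique ?_
      refine HasDerivAt.congr_of_eventuallyEq (f := fun m' => S₂ m' b + L m' b * (S₁ m' b - S₂ m' b))
        ?_ ?_
      · exact (h₂.dSm m hm b hb).fun_add (dm.fun_mul ((h₁.dSm m hm b hb).fun_sub
          (h₂.dSm m hm b hb)))
      · filter_upwards [hI.mem_nhds hm] with m' hm' using hS₃ m' hm' b hb
    have r2 : P₃m m b = P₂m m b + (lm * (P₁ m b - P₂ m b) + L m b * (P₁m m b - P₂m m b)) := by
      refine (h₃.dPm m hm b hb).unique ?_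
      refine HasDerivAt.congr_of_eventuallyEq (f := fun m' => P₂ m' b + L m' b * (P₁ m' b - P₂ m' b))
        ?_ ?_
      · exact (h₂.dPm m hm b hb).fun_add (dm.fun_mul ((h₁.dPm m hm b hb).fun_sub
          (h₂.dPm m hm b hb)))
      · filter_upwards [hI.mem_nhds hm] with m' hm' using hP₃ m' hm' b hb
    have r3 : S₃b m b = S₂b m b + (lb * (S₁ m b - S₂ m b) + L m b * (S₁b m b - S₂b m b)) := by
      refine (h₃.dSb m hm b hb).unique ?_
      refine HasDerivAt.congr_of_eventuallyEq (f := fun b' => S₂ m b' + L m b' * (S₁ m b' - S₂ m b'))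
        ?_ ?_
      · exact (h₂.dSb m hm b hb).fun_add (db.fun_mul ((h₁.dSb m hm b hb).fun_sub
          (h₂.dSb m hm b hb)))
      · filter_upwards [isOpen_Ioo.mem_nhds hb] with b' hb' using hS₃ m hm b' hb'
    have r4 : P₃b m b = P₂b m b + (lb * (P₁ m b - P₂ m b) + L m b * (P₁b m b - P₂b m b)) := by
      refine (h₃.dPb m hm b hb).unique ?_
      refine HasDerivAt.congr_of_eventuallyEq (f := fun b' => P₂ m b' + L m b' * (P₁ m b' - P₂ m b'))
        ?_ ?_
      · exact (h₂.dPb m hm b hb).fun_add (db.fun_mul ((h₁.dPb m hm b hb).fun_sub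
          (h₂.dPb m hm b hb)))
      · filter_upwards [isOpen_Ioo.mem_nhds hb] with b' hb' using hP₃ m hm b' hb'
    have q1 := h₁.e1 m hm b hb
    have q2 := h₁.e2 m hm b hb
    have q3 := h₂.e1 m hm b hb
    have q4 := h₂.e2 m hm b hb
    have q5 := h₃.e1 m hm b hb
    have q6 := h₃.e2 m hm b hb
    rw [r1, r4, r3, hS₃ m hm b hb] at q5
    rw [r2, r3, hP₃ m hm b hb] at q6
    have hR := hres m hm b hb
    obtain ⟨x1, hx1⟩ : ∃ x, x = S₁ m b := ⟨_, rfl⟩
    obtain ⟨x2, hx2⟩ : ∃ x, x = S₂ m b := ⟨_, rfl⟩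
    obtain ⟨y1, hy1⟩ : ∃ x, x = P₁ m b := ⟨_, rfl⟩
    obtain ⟨y2, hy2⟩ : ∃ x, x = P₂ m b := ⟨_, rfl⟩
    obtain ⟨l, hl⟩ : ∃ x, x = L m b := ⟨_, rfl⟩
    rw [← hx1, ← hx2, ← hy1, ← hy2] at hR
    rw [← hx1, ← hx2, ← hy1, ← hy2, ← hl] at q5
    rw [← hx1, ← hx2, ← hy1, ← hy2, ← hl] at q6
    rw [← hx1] at q1
    rw [← hy1] at q2
    rw [← hx2] at q3
    rw [← hy2] at q4
    rw [← hl]
    have E1 : lm * (x1 - x2) + lb * (y1 - y2) - x2 * lb * (x1 - x2) -
        l * lb * (x1 - x2) ^ 2 + l * (1 - l) * (x1 - x2) * (S₁b m b - S₂b m b) = 0 := by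
      linear_combination q5 - l * q1 - (1 - l) * q3
    have E2 : lm * (y1 - y2) + l * (1 - l) * (y1 - y2) * (S₁b m b - S₂b m b) -
        y2 * lb * (x1 - x2) - l * lb * (x1 - x2) * (y1 - y2) = 0 := by
      linear_combination q6 - l * q2 - (1 - l) * q4
    have hlb0 : lb = 0 := by
      have : lb * ((y1 - y2) ^ 2 - x2 * (x1 - x2) * (y1 - y2) + y2 * (x1 - x2) ^ 2) = 0 := by
        linear_combination (y1 - y2) * E1 - (x1 - x2) * E2
      exact (mul_eq_zero.1 this).resolve_right hR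
    refine ⟨hlb0, ?_⟩
    rw [hlb0] at E1 E2
    by_contra hcon
    have z1 : x1 - x2 = 0 := by
      have : (x1 - x2) * (lm + l * (1 - l) * (S₁b m b - S₂b m b)) = 0 := by
        linear_combination E1
      exact (mul_eq_zero.1 this).resolve_right hcon
    have z2 : y1 - y2 = 0 := by
      have : (y1 - y2) * (lm + l * (1 - l) * (S₁b m b - S₂b m b)) = 0 := by
        linear_combination E2
      exact (mul_eq_zero.1 this).resolve_right hcon
    apply hR
    rw [z1, z2]; ring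
  -- `L` does not depend on `b`
  have hLc : ∀ m ∈ I, ∀ b ∈ Ioo u v, L m b = L m c := by
    intro m hm b hb
    exact (convex_Ioo u v).is_const_of_fderivWithin_eq_zero (𝕜 := ℝ) (f := fun b => L m b)
      (fun b hb => (hLb m hm b hb).differentiableWithinAt)
      (fun b hb => by
        rw [fderivWithin_of_isOpen isOpen_Ioo hb]
        ext
        simpa using (hmain m hm b hb).1) hb hc
  refine ⟨fun m => L m c, fun m => deriv (fun m' => L m' c) m, fun m hm b hb => ?_,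
    fun m hm b hb => ?_⟩
  · show S₃ m b = S₂ m b + L m c * (S₁ m b - S₂ m b) ∧ P₃ m b = P₂ m b + L m c * (P₁ m b - P₂ m b)
    rw [← hLc m hm b hb]
    exact ⟨hS₃ m hm b hb, hP₃ m hm b hb⟩
  · have h1 := (hmain m hm b hb).2
    have h2 : deriv (fun m' => L m' b) m = deriv (fun m' => L m' c) m := by
      refine Filter.EventuallyEq.deriv_eq ?_
      filter_upwards [hI.mem_nhds hm] with m' hm' using hLc m' hm' b hb
    rw [h2, hLc m hm b hb] at h1
    exact h1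

/-- **Three pairs in involution.** -/
theorem core (hI : IsOpen I) (huv : u < v) (h₁ : Pair I (Ioo u v) S₁ P₁ S₁m S₁b P₁m P₁b)
    (h₂ : Pair I (Ioo u v) S₂ P₂ S₂m S₂b P₂m P₂b)
    (h₃ : Pair I (Ioo u v) S₃ P₃ S₃m S₃b P₃m P₃b)
    (hres : ∀ m ∈ I, ∀ b ∈ Ioo u v, (P₁ m b - P₂ m b) ^ 2 -
      S₂ m b * (S₁ m b - S₂ m b) * (P₁ m b - P₂ m b) + P₂ m b * (S₁ m b - S₂ m b) ^ 2 ≠ 0)
    (hcol : ∀ m ∈ I, ∀ b ∈ Ioo u v, (S₃ m b - S₂ m b) * (P₁ m b - P₂ m b) =
      (P₃ m b - P₂ m b) * (S₁ m b - S₂ m b))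
    (hn1 : ∀ m ∈ I, ∀ b ∈ Ioo u v, ¬ (S₃ m b = S₁ m b ∧ P₃ m b = P₁ m b))
    (hn2 : ∀ m ∈ I, ∀ b ∈ Ioo u v, ¬ (S₃ m b = S₂ m b ∧ P₃ m b = P₂ m b)) :
    ∀ m ∈ I, (∃ s p : ℝ[X], s.natDegree ≤ 1 ∧ p.natDegree ≤ 2 ∧
      ∀ b ∈ Ioo u v, S₁ m b = s.eval b ∧ P₁ m b = p.eval b) ∧
      ∃ l : ℝ, ∀ b ∈ Ioo u v, S₃ m b = S₂ m b + l * (S₁ m b - S₂ m b) ∧
        P₃ m b = P₂ m b + l * (P₁ m b - P₂ m b) := by
  obtain ⟨lam, lm, hlam, hlm⟩ := lam_exists hI h₁ h₂ h₃ hres hcol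
  intro m₀ hm₀
  refine ⟨?_, lam m₀, fun b hb => hlam m₀ hm₀ b hb⟩
  -- `d_b` does not depend on `b`
  obtain ⟨c, hc⟩ : (Ioo u v).Nonempty := nonempty_Ioo.2 huv
  have hl0 : ∀ m ∈ I, lam m * (1 - lam m) ≠ 0 := by
    intro m hm
    refine mul_ne_zero ?_ ?_
    · intro h0
      have := hlam m hm c hc
      rw [h0] at this
      exact hn2 m hm c hc ⟨by linarith [this.1], by linarith [this.2]⟩
    · intro h0
      have := hlam m hm c hc
      have h1 : lam m = 1 := by linarith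
      rw [h1] at this
      exact hn1 m hm c hc ⟨by linarith [this.1], by linarith [this.2]⟩
  have hδ : ∀ m ∈ I, ∀ b ∈ Ioo u v, S₁b m b - S₂b m b = -lm m / (lam m * (1 - lam m)) := by
    intro m hm b hb
    have h1 := hlm m hm b hb
    rw [eq_div_iff (hl0 m hm)]
    linear_combination h1
  set e : ℕ → ℝ → ℝ → ℝ := fun k m b => ee (S₁ m b) (P₁ m b) (S₁ m b - S₂ m b)
    (P₁ m b - P₂ m b) k with he
  set em : ℕ → ℝ → ℝ → ℝ := fun k m b => ed (S₁ m b) (P₁ m b) (S₁ m b - S₂ m b)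
    (P₁ m b - P₂ m b) (S₁m m b) (P₁m m b) (S₁m m b - S₂m m b) (P₁m m b - P₂m m b) k with hem
  set eb : ℕ → ℝ → ℝ → ℝ := fun k m b => ed (S₁ m b) (P₁ m b) (S₁ m b - S₂ m b)
    (P₁ m b - P₂ m b) (S₁b m b) (P₁b m b) (S₁b m b - S₂b m b) (P₁b m b - P₂b m b) k with heb
  have hdm : ∀ k, ∀ m ∈ I, ∀ b ∈ Ioo u v, HasDerivAt (fun m' => e k m' b) (em k m b) m := by
    intro k m hm b hb
    exact hasDerivAt_ee (S := fun m' => S₁ m' b) (P := fun m' => P₁ m' b)
      (d := fun m' => S₁ m' b - S₂ m' b) (w := fun m' => P₁ m' b - P₂ m' b)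
      (S' := fun m' => S₁m m' b) (P' := fun m' => P₁m m' b)
      (d' := fun m' => S₁m m' b - S₂m m' b) (w' := fun m' => P₁m m' b - P₂m m' b)
      (h₁.dSm m hm b hb) (h₁.dPm m hm b hb)
      ((h₁.dSm m hm b hb).fun_sub (h₂.dSm m hm b hb))
      ((h₁.dPm m hm b hb).fun_sub (h₂.dPm m hm b hb)) k
  have hdb : ∀ k, ∀ m ∈ I, ∀ b ∈ Ioo u v, HasDerivAt (fun b' => e k m b') (eb k m b) b := by
    intro k m hm b hb
    exact hasDerivAt_ee (S := fun b' => S₁ m b') (P := fun b' => P₁ m b')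
      (d := fun b' => S₁ m b' - S₂ m b') (w := fun b' => P₁ m b' - P₂ m b')
      (S' := fun b' => S₁b m b') (P' := fun b' => P₁b m b')
      (d' := fun b' => S₁b m b' - S₂b m b') (w' := fun b' => P₁b m b' - P₂b m b')
      (h₁.dSb m hm b hb) (h₁.dPb m hm b hb)
      ((h₁.dSb m hm b hb).fun_sub (h₂.dSb m hm b hb))
      ((h₁.dPb m hm b hb).fun_sub (h₂.dPb m hm b hb)) k
  have hpde : ∀ k, ∀ m ∈ I, ∀ b ∈ Ioo u v,
      eb (k + 1) m b = em k m b + (S₁b m b - S₂b m b) * e k m b := by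
    intro k m hm b hb
    have q1 := h₁.e1 m hm b hb
    have q2 := h₁.e2 m hm b hb
    have q3 := h₂.e1 m hm b hb
    have q4 := h₂.e2 m hm b hb
    refine ee_pde _ _ _ _ _ _ _ _ _ _ _ _ q1 q2 ?_ ?_ k
    · linear_combination q3 - q1
    · linear_combination (S₂ m b - 2 * S₁ m b) * q1 + S₁ m b * q3 - q4 + q2
  have hpoly : ∀ k, ∀ m ∈ I, ∃ p : ℝ[X], p.natDegree ≤ k + 1 ∧
      ∀ b ∈ Ioo u v, e k m b = p.eval b := by
    intro k
    induction k with
    | zero =>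
      intro m hm
      refine poly_of_deriv (fun b => e 0 m b) (fun b => eb 0 m b) (fun b hb => hdb 0 m hm b hb)
        (C (-lm m / (lam m * (1 - lam m)))) (n := 0) (by rw [natDegree_C]) (fun b hb => ?_)
      rw [eval_C, ← hδ m hm b hb]
      rfl
    | succ k ih =>
      intro m hm
      obtain ⟨p, hp, hpe⟩ := poly_param huv hI (fun m b => e k m b) (fun m b => em k m b)
        (fun m hm b hb => hdm k m hm b hb) (k + 1) ih m hm
      obtain ⟨q, hq, hqe⟩ := ih m hm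
      refine poly_of_deriv (fun b => e (k + 1) m b) (fun b => eb (k + 1) m b)
        (fun b hb => hdb (k + 1) m hm b hb)
        (p + C (-lm m / (lam m * (1 - lam m))) * q) (n := k + 1) ?_ (fun b hb => ?_)
      · refine (natDegree_add_le _ _).trans (max_le hp ?_)
        exact (natDegree_C_mul_le _ _).trans hq
      · rw [eval_add, eval_mul, eval_C, ← hpe b hb, ← hqe b hb, ← hδ m hm b hb]
        exact hpde k m hm b hb
  have hpoly' := fun k => hpoly k m₀ hm₀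
  choose p hpd hpe using hpoly'
  -- relations on the interval
  have rel : ∀ k b, e (k + 2) m₀ b = S₁ m₀ b * e (k + 1) m₀ b - P₁ m₀ b * e k m₀ b :=
    fun k b => rfl
  have hΔ : ∀ b ∈ Ioo u v, e 0 m₀ b * e 2 m₀ b - e 1 m₀ b ^ 2 ≠ 0 := by
    intro b hb h0
    apply hres m₀ hm₀ b hb
    have e0 : e 0 m₀ b = S₁ m₀ b - S₂ m₀ b := rfl
    have e1 : e 1 m₀ b = S₁ m₀ b * (S₁ m₀ b - S₂ m₀ b) - (P₁ m₀ b - P₂ m₀ b) := rfl
    rw [rel 0 b, zero_add, e0, e1] at h0
    linear_combination -h0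
  have hN1 : ∀ b, e 0 m₀ b * e 3 m₀ b - e 1 m₀ b * e 2 m₀ b =
      S₁ m₀ b * (e 0 m₀ b * e 2 m₀ b - e 1 m₀ b ^ 2) := by
    intro b
    have r1 := rel 0 b
    have r2 := rel 1 b
    simp only [zero_add] at r1
    rw [show (1 + 2 : ℕ) = 3 from rfl, show (1 + 1 : ℕ) = 2 from rfl] at r2
    rw [r2]
    linear_combination (-e 1 m₀ b) * r1
  have hN2 : ∀ b, e 1 m₀ b * e 3 m₀ b - e 2 m₀ b ^ 2 =
      P₁ m₀ b * (e 0 m₀ b * e 2 m₀ b - e 1 m₀ b ^ 2) := by
    intro b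
    have r1 := rel 0 b
    have r2 := rel 1 b
    simp only [zero_add] at r1
    rw [show (1 + 2 : ℕ) = 3 from rfl, show (1 + 1 : ℕ) = 2 from rfl] at r2
    rw [r2]
    linear_combination (-e 2 m₀ b) * r1
  have hne : p 0 * p 2 - p 1 ^ 2 ≠ 0 := by
    intro h0
    apply hΔ c hc
    have := congrArg (fun q : ℝ[X] => q.eval c) h0
    simp only [eval_sub, eval_mul, eval_pow, eval_zero] at this
    rw [hpe 0 c hc, hpe 1 c hc, hpe 2 c hc]
    exact this
  have hrec : ∀ k, (p 0 * p 2 - p 1 ^ 2) * p (k + 2) =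
      (p 0 * p 3 - p 1 * p 2) * p (k + 1) - (p 1 * p 3 - p 2 ^ 2) * p k := by
    intro k
    refine poly_ext huv _ _ fun b hb => ?_
    simp only [eval_sub, eval_mul, eval_pow]
    rw [← hpe 0 b hb, ← hpe 1 b hb, ← hpe 2 b hb, ← hpe 3 b hb, ← hpe k b hb,
      ← hpe (k + 1) b hb, ← hpe (k + 2) b hb, hN1, hN2, rel k b]
    ring
  obtain ⟨s, q, hs, hq, hs', hq'⟩ := poly_rec p hpd hne hrec
  refine ⟨s, q, hs, hq, fun b hb => ⟨?_, ?_⟩⟩
  · have h1 := congrArg (fun q : ℝ[X] => q.eval b) hs'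
    simp only [eval_sub, eval_mul, eval_pow] at h1
    rw [← hpe 0 b hb, ← hpe 1 b hb, ← hpe 2 b hb, ← hpe 3 b hb, hN1] at h1
    exact mul_left_cancel₀ (hΔ b hb) (by linear_combination h1)
  · have h1 := congrArg (fun q : ℝ[X] => q.eval b) hq'
    simp only [eval_sub, eval_mul, eval_pow] at h1
    rw [← hpe 0 b hb, ← hpe 1 b hb, ← hpe 2 b hb, ← hpe 3 b hb, hN2] at h1
    exact mul_left_cancel₀ (hΔ b hb) (by linear_combination h1)

end core

end Pool.Agent.V5helper21.HD
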