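import Pool.Agent.V5helper21.HD.Hyp

set_option autoImplicit false

/-!
# Near curved points the leaves lie, somewhere, on the conics of a pencil (Baire)
-/

namespace Pool.Agent.V5helper21.HD

open Set Filter Topology
open scoped ContDiff

section
variable {f : ℝ × ℝ → ℝ} {U : Set (ℝ × ℝ)}

lemma den_pos {n : ℕ} {c s : ℝ} (hc : |c| ≤ n) (hs : |s| ≤ 1 / (4 * (n + 1))) :
    0 < 1 + c * s := by
  have h1 : |c * s| ≤ 1 / 4 := by
    rw [abs_mul]
    calc |c| * |s| ≤ n * (1 / (4 * (n + 1))) :=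
          mul_le_mul hc hs (abs_nonneg _) (Nat.cast_nonneg _)
      _ ≤ 1 / 4 := by
          rw [mul_one_div, div_le_div_iff₀ (by positivity) (by positivity)]
          have : (0 : ℝ) ≤ n := Nat.cast_nonneg _
          nlinarith
  have := (abs_le.1 h1).1
  linarith

lemma exists_loc (H : Hyp f U) {p₀ : ℝ × ℝ} (hp₀ : p₀ ∈ U) (hσ : fderiv ℝ f p₀ (0, 1) ≠ 0)
    (hc : Cur f p₀) {O : Set (ℝ × ℝ)} (hO : O ∈ 𝓝 p₀) : ∃ p ∈ O, LocPencil f p := by
  have h1 := ev_good H hp₀ hσ hc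
  obtain ⟨R', hR', hb'⟩ := Metric.eventually_nhds_iff_ball.1 (h1.and hO)
  set R := R' / 2 with hRd
  have hR : 0 < R := by rw [hRd]; linarith
  set B₀ := Metric.closedBall p₀ R with hB₀
  have hB : ∀ p ∈ B₀, (p ∈ U ∧ fderiv ℝ f p (0, 1) ≠ 0 ∧ Cur f p) ∧ p ∈ O := by
    intro p hp
    refine hb' p ?_
    rw [Metric.mem_ball]
    have : dist p p₀ ≤ R := hp
    rw [hRd] at this
    linarith
  set E : ℕ → Set (ℝ × ℝ) := fun n => {p ∈ B₀ | ∃ c : ℝ, |c| ≤ n ∧ ∀ s : ℝ,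
    |s| ≤ 1 / (4 * (n + 1)) → f (p + s • (1, sl f p)) =
      f (p - (s / (1 + c * s)) • (1, sl f p))} with hE
  have hEc : ∀ n, IsClosed (E n) := by
    intro n
    set Z : Set ((ℝ × ℝ) × ℝ) := B₀ ×ˢ Icc (-(n : ℝ)) n with hZ
    have hZc : IsCompact Z := (isCompact_closedBall p₀ R).prod isCompact_Icc
    set F : ℝ → (ℝ × ℝ) × ℝ → ℝ := fun s x => f (x.1 + s • (1, sl f x.1)) -
      f (x.1 - (s / (1 + x.2 * s)) • (1, sl f x.1)) with hF
    have hFc : ∀ s : ℝ, |s| ≤ 1 / (4 * (n + 1)) → ContinuousOn (F s) Z := by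
      intro s hs x hx
      have hx1 : x.1 ∈ B₀ := hx.1
      have hx2 : |x.2| ≤ n := abs_le.2 ⟨hx.2.1, hx.2.2⟩
      have hd := den_pos hx2 hs
      have c1 : ContinuousAt (fun x : (ℝ × ℝ) × ℝ => sl f x.1) x :=
        ContinuousAt.comp (g := sl f) (f := Prod.fst)
          (contAt_sl H (hB _ hx1).1.1 (hB _ hx1).1.2.1) continuousAt_fst
      have c2 : ContinuousAt (fun x : (ℝ × ℝ) × ℝ => s / (1 + x.2 * s)) x := by
        refine ContinuousAt.div (by fun_prop) (by fun_prop) hd.ne'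
      have c3 : ContinuousAt (fun x : (ℝ × ℝ) × ℝ => x.1 + s • ((1, sl f x.1) : ℝ × ℝ)) x :=
        continuousAt_fst.add ((continuousAt_const.prodMk c1).const_smul s)
      have c4 : ContinuousAt (fun x : (ℝ × ℝ) × ℝ =>
          x.1 - (s / (1 + x.2 * s)) • ((1, sl f x.1) : ℝ × ℝ)) x :=
        continuousAt_fst.sub (c2.smul (continuousAt_const.prodMk c1))
      exact ((H.cont.continuousAt.comp c3).sub (H.cont.continuousAt.comp c4)).continuousWithinAt
    have hK : IsCompact (⋂ s : {s : ℝ // |s| ≤ 1 / (4 * ((n : ℝ) + 1))}, Z ∩ F s ⁻¹' {0}) := by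
      haveI : Nonempty {s : ℝ // |s| ≤ 1 / (4 * ((n : ℝ) + 1))} :=
        ⟨⟨0, by rw [abs_zero]; positivity⟩⟩
      refine hZc.of_isClosed_subset (isClosed_iInter fun s => ?_) ?_
      · exact (hFc s s.2).preimage_isClosed_of_isClosed hZc.isClosed isClosed_singleton
      · intro x hx
        exact (mem_iInter.1 hx ⟨0, by rw [abs_zero]; positivity⟩).1
    have hEq : E n = Prod.fst '' (⋂ s : {s : ℝ // |s| ≤ 1 / (4 * ((n : ℝ) + 1))},
        Z ∩ F s ⁻¹' {0}) := by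
      ext p
      constructor
      · rintro ⟨hp, c, hc, h⟩
        refine ⟨(p, c), mem_iInter.2 fun s => ⟨⟨hp, (abs_le.1 hc).1, (abs_le.1 hc).2⟩, ?_⟩, rfl⟩
        show f (p + (s : ℝ) • (1, sl f p)) - f (p - ((s : ℝ) / (1 + c * s)) • (1, sl f p)) = 0
        rw [h s s.2, sub_self]
      · rintro ⟨⟨p', c⟩, hx, rfl⟩
        have h0 := (mem_iInter.1 hx ⟨0, by rw [abs_zero]; positivity⟩).1
        refine ⟨h0.1, c, abs_le.2 ⟨h0.2.1, h0.2.2⟩, fun s hs => ?_⟩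
        exact sub_eq_zero.1 (mem_iInter.1 hx ⟨s, hs⟩).2
    rw [hEq]
    exact (hK.image continuous_fst).isClosed
  have hcov : ∀ p ∈ B₀, ∃ n, p ∈ E n := by
    intro p hp
    obtain ⟨c, hc⟩ := H.inv p (hB p hp).1.1 (1, sl f p)
      (fun h => by simpa using congrArg Prod.fst h) (fderiv_sl (hB p hp).1.2.1)
    obtain ⟨δ, hδ, hd⟩ := Metric.eventually_nhds_iff_ball.1 hc
    obtain ⟨n, hn⟩ := exists_nat_ge (max |c| (1 / δ))
    have hn1 : |c| ≤ n := (le_max_left _ _).trans hn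
    have hn2 : 1 / δ ≤ n := (le_max_right _ _).trans hn
    refine ⟨n, hp, c, hn1, fun s hs => hd s ?_⟩
    rw [Metric.mem_ball, Real.dist_eq, sub_zero]
    refine lt_of_le_of_lt hs ?_
    rw [div_lt_iff₀ (by positivity)]
    rw [div_le_iff₀ hδ] at hn2
    have : (0 : ℝ) ≤ n := Nat.cast_nonneg _
    nlinarith
  set Fn : ℕ → Set (ℝ × ℝ) := fun n => E n ∪ (Metric.ball p₀ R)ᶜ with hFn
  have hd : Dense (⋃ n, interior (Fn n)) := by
    refine dense_iUnion_interior_of_closed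
      (fun n => (hEc n).union Metric.isOpen_ball.isClosed_compl) ?_
    refine eq_univ_of_forall fun p => mem_iUnion.2 ?_
    by_cases hp : p ∈ Metric.ball p₀ R
    · obtain ⟨n, hn⟩ := hcov p (Metric.ball_subset_closedBall hp)
      exact ⟨n, Or.inl hn⟩
    · exact ⟨0, Or.inr hp⟩
  obtain ⟨p, hp, hpb⟩ := hd.exists_mem_open Metric.isOpen_ball ⟨p₀, Metric.mem_ball_self hR⟩
  obtain ⟨n, hn⟩ := mem_iUnion.1 hp
  have hpB : p ∈ B₀ := Metric.ball_subset_closedBall hpb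
  refine ⟨p, (hB p hpB).2, ?_⟩
  have hnb : interior (Fn n) ∩ Metric.ball p₀ R ∈ 𝓝 p :=
    (isOpen_interior.inter Metric.isOpen_ball).mem_nhds ⟨hn, hpb⟩
  obtain ⟨ε', hε', hsub⟩ := Metric.mem_nhds_iff.1 hnb
  obtain ⟨pU, pσ, pc⟩ := (hB p hpB).1
  have hn4 : (0 : ℝ) < 1 / (4 * (n + 1)) := by positivity
  set ε := min ε' (1 / (4 * ((n : ℝ) + 1))) with hεd
  have hε : 0 < ε := lt_min hε' hn4
  refine loc H.opn H.smooth (mq := sl f p) (ε := ε) pU (fderiv_sl pσ) pσ ((cur_iff pσ).1 pc) hε ?_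
  intro x hx m hm
  have hx1 : x ∈ interior (Fn n) ∩ Metric.ball p₀ R :=
    hsub (Metric.ball_subset_ball (min_le_left _ _) hx)
  have hx2 : x ∈ E n := by
    rcases interior_subset hx1.1 with h | h
    · exact h
    · exact absurd hx1.2 h
  have hxB : x ∈ B₀ := Metric.ball_subset_closedBall hx1.2
  have hme : m = sl f x := eq_sl (hB x hxB).1.2.1 hm
  obtain ⟨-, c, hc, h⟩ := hx2
  refine ⟨c, ?_, fun s hs => ?_⟩
  · refine hc.trans ?_
    have h1 : 1 / (1 / (4 * ((n : ℝ) + 1))) ≤ 1 / ε :=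
      one_div_le_one_div_of_le hε (min_le_right _ _)
    rw [one_div_one_div] at h1
    have : (0 : ℝ) ≤ n := Nat.cast_nonneg _
    linarith
  · rw [hme]
    exact h s (hs.le.trans (min_le_right _ _))

end

end Pool.Agent.V5helper21.HD
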