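import Pool.Agent.V5helper21.HD.Ray

set_option autoImplicit false

/-!
# A conic which contains a leaf is an ellipse
-/

namespace Pool.Agent.V5helper21.HD

open Set Filter Topology
open scoped ContDiff

/-- linear part along a line -/
def lin (k : Fin 6 → ℝ) (z u : ℝ × ℝ) : ℝ :=
  k 1 * u.1 + k 2 * u.2 + 2 * k 3 * (z.1 * u.1) + k 4 * (z.1 * u.2 + z.2 * u.1) +
    2 * k 5 * (z.2 * u.2)

/-- quadratic part -/
def quad (k : Fin 6 → ℝ) (u : ℝ × ℝ) : ℝ := k 3 * u.1 ^ 2 + k 4 * (u.1 * u.2) + k 5 * u.2 ^ 2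

lemma ev_line (k : Fin 6 → ℝ) (z u : ℝ × ℝ) (t : ℝ) :
    ev k (z + t • u) = ev k z + t * lin k z u + t ^ 2 * quad k u := by
  simp only [ev, lin, quad, Prod.fst_add, Prod.snd_add, Prod.smul_fst, Prod.smul_snd, smul_eq_mul]
  ring

section
variable {f : ℝ × ℝ → ℝ} {r : ℝ} {z : ℝ × ℝ}

/-- the values of the polynomial on a line through `z` -/
lemma on_ray (G : Glob f r z) {c : ℝ} (h0 : 0 ≤ c) (h1 : c < r) {k : Fin 6 → ℝ}
    (h : ∀ p, f p = c → ev k p = 0) {u : ℝ × ℝ} (hu : u ≠ 0) :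
    ∃ T S : ℝ, 0 < T ∧ 0 < S ∧ T = (gauge (KK f z c) u)⁻¹ ∧ ev k z = -(S * T) * quad k u ∧
      lin k z u = (S - T) * quad k u := by
  set T := (gauge (KK f z c) u)⁻¹ with hT
  set S := (gauge (KK f z c) (-u))⁻¹ with hS
  have hT0 : 0 < T := inv_pos.2 (gauge_pos' G h0 h1 hu)
  have hS0 : 0 < S := inv_pos.2 (gauge_pos' G h0 h1 (neg_ne_zero.2 hu))
  have e1 := h _ (ray G h0 h1 hu)
  have e2 := h _ (ray G h0 h1 (neg_ne_zero.2 hu))
  rw [← hT, ev_line] at e1
  rw [← hS, ev_line] at e2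
  have l1 : lin k z (-u) = -lin k z u := by
    simp only [lin, Prod.fst_neg, Prod.snd_neg]; ring
  have l2 : quad k (-u) = quad k u := by
    simp only [quad, Prod.fst_neg, Prod.snd_neg]; ring
  rw [l1, l2] at e2
  have hST : S + T ≠ 0 := by positivity
  have a1 : ev k z = -(S * T) * quad k u := by
    have : (S + T) * (ev k z - -(S * T) * quad k u) = 0 := by
      linear_combination S * e1 + T * e2
    have := (mul_eq_zero.1 this).resolve_left hST
    linarith
  refine ⟨T, S, hT0, hS0, rfl, a1, ?_⟩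
  have : T * (lin k z u - (S - T) * quad k u) = 0 := by
    rw [a1] at e1
    linear_combination e1
  have := (mul_eq_zero.1 this).resolve_left hT0.ne'
  linarith

lemma ev_z_ne (G : Glob f r z) {c : ℝ} (h0 : 0 ≤ c) (h1 : c < r) {k : Fin 6 → ℝ} (hk : k ≠ 0)
    (h : ∀ p, f p = c → ev k p = 0) : ev k z ≠ 0 := by
  intro hz
  have hq : ∀ u : ℝ × ℝ, u ≠ 0 → quad k u = 0 ∧ lin k z u = 0 := by
    intro u hu
    obtain ⟨T, S, hT, hS, -, e1, e2⟩ := on_ray G h0 h1 h hu
    rw [hz] at e1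
    have h2 : quad k u = 0 := by
      have : (S * T) * quad k u = 0 := by linarith
      exact (mul_eq_zero.1 this).resolve_left (by positivity)
    exact ⟨h2, by rw [e2, h2, mul_zero]⟩
  obtain ⟨q1, l1⟩ := hq (1, 0) (fun h => by simpa using congrArg Prod.fst h)
  obtain ⟨q2, l2⟩ := hq (0, 1) (fun h => by simpa using congrArg Prod.snd h)
  obtain ⟨q3, -⟩ := hq (1, 1) (fun h => by simpa using congrArg Prod.fst h)
  simp only [quad, lin, ev] at q1 q2 q3 l1 l2 hz
  have k3 : k 3 = 0 := by linarith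
  have k5 : k 5 = 0 := by linarith
  have k4 : k 4 = 0 := by rw [k3, k5] at q3; linarith
  rw [k3, k4, k5] at l1 l2 hz
  have k1 : k 1 = 0 := by linarith
  have k2 : k 2 = 0 := by linarith
  rw [k1, k2] at hz
  have k0 : k 0 = 0 := by linarith
  apply hk
  ext i
  fin_cases i <;> simp [k0, k1, k2, k3, k4, k5]

/-- **The ellipse lemma.** -/
lemma ellipse (G : Glob f r z) {c : ℝ} (h0 : 0 ≤ c) (h1 : c < r) {k : Fin 6 → ℝ}
    (hz : ev k z < 0) (h : ∀ p, f p = c → ev k p = 0) :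
    (∀ u : ℝ × ℝ, u ≠ 0 → 0 < quad k u) ∧ 0 < k 3 ∧ k 4 ^ 2 < 4 * (k 3 * k 5) ∧
      (∀ p, ev k p < 0 ↔ f p < c) ∧ (∀ p, ev k p = 0 ↔ f p = c) := by
  have hq : ∀ u : ℝ × ℝ, u ≠ 0 → 0 < quad k u := by
    intro u hu
    obtain ⟨T, S, hT, hS, -, e1, e2⟩ := on_ray G h0 h1 h hu
    by_contra hn
    push Not at hn
    have : 0 < S * T := by positivity
    nlinarith
  have k3 : 0 < k 3 := by
    have := hq (1, 0) (fun h => by simpa using congrArg Prod.fst h)
    simpa [quad] using this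
  have hsign : ∀ u : ℝ × ℝ, u ≠ 0 → ∃ T S : ℝ, 0 < T ∧ 0 < S ∧ T = (gauge (KK f z c) u)⁻¹ ∧
      ev k (z + u) = quad k u * ((1 - T) * (1 + S)) := by
    intro u hu
    obtain ⟨T, S, hT, hS, hTe, e1, e2⟩ := on_ray G h0 h1 h hu
    refine ⟨T, S, hT, hS, hTe, ?_⟩
    have := ev_line k z u 1
    rw [one_smul] at this
    rw [this, e1, e2]
    ring
  have hT : ∀ u : ℝ × ℝ, u ≠ 0 → (1 - (gauge (KK f z c) u)⁻¹ < 0 ↔ f (z + u) < c) ∧
      (1 - (gauge (KK f z c) u)⁻¹ = 0 ↔ f (z + u) = c) := by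
    intro u hu
    have hg := gauge_pos' G h0 h1 hu
    rw [lt_iff G h0 h1, eq_iff G h0 h1]
    constructor
    · rw [sub_neg, one_lt_inv₀ hg]
    · rw [sub_eq_zero, eq_comm, inv_eq_one]
  refine ⟨hq, k3, ?_, fun p => ?_, fun p => ?_⟩
  · have hu : ((-k 4, 2 * k 3) : ℝ × ℝ) ≠ 0 := fun h => by
      have : 2 * k 3 = 0 := congrArg Prod.snd h
      linarith
    have := hq _ hu
    simp only [quad] at this
    have h2 : 0 < k 3 * (4 * (k 3 * k 5) - k 4 ^ 2) := by nlinarith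
    have := (mul_pos_iff_of_pos_left k3).1 h2
    linarith
  · by_cases hp : p = z
    · rw [hp]
      exact ⟨fun _ => lt_of_lt_of_le G.neg h0, fun _ => hz⟩
    · have hu : p - z ≠ 0 := sub_ne_zero.2 hp
      obtain ⟨T, S, hT0, hS0, hTe, e⟩ := hsign (p - z) hu
      obtain ⟨g1, -⟩ := hT (p - z) hu
      rw [add_sub_cancel] at e g1
      rw [← g1, ← hTe, e]
      have hqp := hq _ hu
      constructor
      · intro h2
        by_contra h3
        push Not at h3
        have : 0 ≤ quad k (p - z) * ((1 - T) * (1 + S)) := by positivity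
        linarith
      · intro h2
        have h3 : (1 - T) * (1 + S) < 0 := mul_neg_of_neg_of_pos h2 (by linarith)
        exact mul_neg_of_pos_of_neg hqp h3
  · by_cases hp : p = z
    · rw [hp]
      have := G.neg
      exact ⟨fun h => by linarith, fun h => by linarith⟩
    · have hu : p - z ≠ 0 := sub_ne_zero.2 hp
      obtain ⟨T, S, hT0, hS0, hTe, e⟩ := hsign (p - z) hu
      obtain ⟨-, g1⟩ := hT (p - z) hu
      rw [add_sub_cancel] at e g1
      rw [← g1, ← hTe, e]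
      have hqp := hq _ hu
      have hS1 : 1 + S ≠ 0 := by positivity
      constructor
      · intro h2
        rcases mul_eq_zero.1 h2 with h3 | h3
        · exact absurd h3 hqp.ne'
        · exact (mul_eq_zero.1 h3).resolve_right hS1
      · intro h2
        rw [h2]
        ring

/-- the normalised conic of a leaf -/
def IsK (f : ℝ × ℝ → ℝ) (z : ℝ × ℝ) (c : ℝ) (k : Fin 6 → ℝ) : Prop :=
  ev k z = -1 ∧ ∀ p, f p = c → ev k p = 0

lemma isK_of (G : Glob f r z) {c : ℝ} (h0 : 0 ≤ c) (h1 : c < r) {k : Fin 6 → ℝ} (hk : k ≠ 0)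
    (h : ∀ p, f p = c → ev k p = 0) : IsK f z c ((-(ev k z)⁻¹) • k) := by
  have hz := ev_z_ne G h0 h1 hk h
  constructor
  · rw [ev_smul]
    field_simp
  · intro p hp
    rw [ev_smul, h p hp, mul_zero]

lemma isK_unique (G : Glob f r z) {c : ℝ} (h0 : 0 ≤ c) (h1 : c < r) {k k' : Fin 6 → ℝ}
    (h : IsK f z c k) (h' : IsK f z c k') : k = k' := by
  by_contra hne
  have h2 : k + (-1 : ℝ) • k' ≠ 0 := by
    intro h0
    apply hne
    rw [neg_smul, one_smul, ← sub_eq_add_neg] at h0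
    exact sub_eq_zero.1 h0
  refine ev_z_ne G h0 h1 h2 ?_ ?_
  · intro p hp
    rw [ev_add, ev_smul, h.2 p hp, h'.2 p hp]; ring
  · rw [ev_add, ev_smul, h.1, h'.1]; ring

lemma isK_ne {c : ℝ} {k : Fin 6 → ℝ} (h : IsK f z c k) : k ≠ 0 := by
  intro h0
  have := h.1
  rw [h0] at this
  simp [ev] at this

/-- `lin = 1 - quad` on the leaf -/
lemma isK_lin {c : ℝ} {k : Fin 6 → ℝ} (h : IsK f z c k) {p : ℝ × ℝ} (hp : f p = c) :
    lin k z (p - z) = 1 - quad k (p - z) := by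
  have e := ev_line k z (p - z) 1
  rw [one_smul, add_sub_cancel, h.2 p hp, h.1] at e
  linarith

end

end Pool.Agent.V5helper21.HD
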