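import Mathlib

set_option autoImplicit false

/-!
# A lemma of Fatou type for linear recurrences of order two over a factorial ring
-/

namespace Pool.Agent.V5helper21.HD

open Polynomial

section
variable {R : Type*} [CommRing R] [IsDomain R] [UniqueFactorizationMonoid R]

/-- a power series without prime content which divides a constant has an invertible constant
coefficient -/
lemma unit_of_mul_eq_const (D : PowerSeries R) (hD : ∀ p : R, Prime p → ∃ n, ¬ p ∣ PowerSeries.coeff n D)
    (r : R) (hr : r ≠ 0) (W : PowerSeries R) (h : D * W = PowerSeries.C r) :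
    IsUnit (PowerSeries.constantCoeff D) := by
  induction r using UniqueFactorizationMonoid.induction_on_prime generalizing W with
  | h₁ => exact absurd rfl hr
  | h₂ x hx =>
    have h1 := congrArg PowerSeries.constantCoeff h
    rw [map_mul, PowerSeries.constantCoeff_C] at h1
    exact isUnit_of_mul_isUnit_left (h1 ▸ hx)
  | h₃ a p ha hp ih =>
    -- reduce modulo `p`
    have : (Ideal.span {p}).IsPrime := (Ideal.span_singleton_prime hp.ne_zero).2 hp
    set φ := PowerSeries.map (Ideal.Quotient.mk (Ideal.span {p})) with hφ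
    have h1 : φ D * φ W = 0 := by
      rw [← map_mul, h, hφ, PowerSeries.map_C]
      have : Ideal.Quotient.mk (Ideal.span {p}) (p * a) = 0 := by
        rw [Ideal.Quotient.eq_zero_iff_mem]
        exact Ideal.mem_span_singleton.2 (dvd_mul_right p a)
      rw [this, map_zero]
    rcases mul_eq_zero.1 h1 with h2 | h2
    · exfalso
      obtain ⟨n, hn⟩ := hD p hp
      apply hn
      have h3 := congrArg (PowerSeries.coeff n) h2
      rw [hφ, PowerSeries.coeff_map, map_zero, Ideal.Quotient.eq_zero_iff_mem] at h3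
      exact Ideal.mem_span_singleton.1 h3
    · have h3 : ∀ n, p ∣ PowerSeries.coeff n W := by
        intro n
        have h3 := congrArg (PowerSeries.coeff n) h2
        rw [hφ, PowerSeries.coeff_map, map_zero, Ideal.Quotient.eq_zero_iff_mem] at h3
        exact Ideal.mem_span_singleton.1 h3
      choose w hw using h3
      have h4 : W = PowerSeries.C p * PowerSeries.mk w := by
        ext n
        rw [PowerSeries.coeff_C_mul, PowerSeries.coeff_mk, hw]
      refine ih ha (PowerSeries.mk w) ?_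
      have h5 : PowerSeries.C p * (D * PowerSeries.mk w) = PowerSeries.C p * PowerSeries.C a := by
        rw [← map_mul, ← h, h4]
        ring
      exact mul_left_cancel₀ (by
        intro h6
        have := congrArg PowerSeries.constantCoeff h6
        rw [PowerSeries.constantCoeff_C, map_zero] at this
        exact hp.ne_zero this) h5

/-- Fatou's lemma, order two, primitive form -/
lemma fatou_prim (e : ℕ → R) (a b c : R) (ha : a ≠ 0)
    (hprim : ∀ p : R, Prime p → ¬ (p ∣ a ∧ p ∣ b ∧ p ∣ c))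
    (hrec : ∀ k, a * e (k + 2) = b * e (k + 1) - c * e k)
    (hne : e 0 * e 2 - e 1 ^ 2 ≠ 0) : IsUnit a := by
  set X : PowerSeries R := PowerSeries.X with hX
  set D : PowerSeries R := PowerSeries.C a - PowerSeries.C b * X + PowerSeries.C c * X ^ 2 with hD
  set F : PowerSeries R := PowerSeries.mk e with hF
  set p0 : R := a * e 0 with hp0
  set p1 : R := a * e 1 - b * e 0 with hp1
  have c0 : PowerSeries.coeff 0 D = a := by simp [hD, hX]
  have c1 : PowerSeries.coeff 1 D = -b := by
    simp [hD, hX, PowerSeries.coeff_X_pow, PowerSeries.coeff_C]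
  have c2 : PowerSeries.coeff 2 D = c := by
    simp [hD, hX, PowerSeries.coeff_X_pow, PowerSeries.coeff_C, PowerSeries.coeff_X]
  -- `D F = p0 + p1 X`
  have hDF : D * F = PowerSeries.C p0 + PowerSeries.C p1 * X := by
    have h1 : F = PowerSeries.C (e 0) + PowerSeries.C (e 1) * X +
        X ^ 2 * PowerSeries.mk (fun k => e (k + 2)) := by
      ext n
      rcases n with _ | _ | n
      · simp [hF, hX]
      · simp [hF, hX, PowerSeries.coeff_C, pow_two, mul_assoc, PowerSeries.coeff_succ_X_mul]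
      · simp [hF, hX, PowerSeries.coeff_C, pow_two, mul_assoc, PowerSeries.coeff_succ_X_mul,
          PowerSeries.coeff_succ_mul_X]
    have h2 : F = PowerSeries.C (e 0) + X * PowerSeries.mk (fun k => e (k + 1)) := by
      ext n
      rcases n with _ | n
      · simp [hF, hX]
      · simp [hF, hX, PowerSeries.coeff_C, PowerSeries.coeff_succ_X_mul]
    have h3 : PowerSeries.C a * PowerSeries.mk (fun k => e (k + 2)) =
        PowerSeries.C b * PowerSeries.mk (fun k => e (k + 1)) - PowerSeries.C c * F := by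
      ext n
      simp [hF, hrec]
    have e1 : D * F = PowerSeries.C a * F - PowerSeries.C b * X * F + PowerSeries.C c * X ^ 2 * F := by
      rw [hD]; ring
    rw [e1]
    have e2 : PowerSeries.C a * F = PowerSeries.C a * (PowerSeries.C (e 0) +
        PowerSeries.C (e 1) * X + X ^ 2 * PowerSeries.mk (fun k => e (k + 2))) := by rw [← h1]
    have e3 : PowerSeries.C b * X * F = PowerSeries.C b * X * (PowerSeries.C (e 0) +
        X * PowerSeries.mk (fun k => e (k + 1))) := by rw [← h2]
    rw [e2, e3, hp0, hp1, map_sub, map_mul, map_mul, map_mul]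
    linear_combination X ^ 2 * h3
  -- the identity
  have hid : D * (PowerSeries.C p1 ^ 2 - F * (PowerSeries.C c * PowerSeries.C p1 * X -
      PowerSeries.C b * PowerSeries.C p1 - PowerSeries.C c * PowerSeries.C p0)) =
      PowerSeries.C (a * p1 ^ 2 + b * p0 * p1 + c * p0 ^ 2) := by
    have : D * (PowerSeries.C p1 ^ 2 - F * (PowerSeries.C c * PowerSeries.C p1 * X -
      PowerSeries.C b * PowerSeries.C p1 - PowerSeries.C c * PowerSeries.C p0)) =
      D * PowerSeries.C p1 ^ 2 - (D * F) * (PowerSeries.C c * PowerSeries.C p1 * X -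
      PowerSeries.C b * PowerSeries.C p1 - PowerSeries.C c * PowerSeries.C p0) := by ring
    rw [this, hDF, hD]
    simp only [map_add, map_mul, map_pow]
    ring
  have hr : a * p1 ^ 2 + b * p0 * p1 + c * p0 ^ 2 ≠ 0 := by
    have h1 : a * p1 ^ 2 + b * p0 * p1 + c * p0 ^ 2 = -(a ^ 3 * (e 0 * e 2 - e 1 ^ 2)) := by
      rw [hp0, hp1]
      have := hrec 0
      simp only [zero_add] at this
      linear_combination (a ^ 2 * e 0) * this
    rw [h1]
    exact neg_ne_zero.2 (mul_ne_zero (pow_ne_zero 3 ha) hne)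
  have hu := unit_of_mul_eq_const D (fun p hp => by
    by_contra hcon
    push Not at hcon
    apply hprim p hp
    refine ⟨c0 ▸ hcon 0, ?_, c2 ▸ hcon 2⟩
    have := hcon 1
    rw [c1] at this
    exact (dvd_neg).1 this) _ hr _ hid
  have : PowerSeries.constantCoeff D = a := by
    rw [← PowerSeries.coeff_zero_eq_constantCoeff_apply, c0]
  rwa [this] at hu

/-- **Fatou's lemma**, order two. -/
theorem fatou (e : ℕ → R) (a b c : R) (ha : a ≠ 0)
    (hrec : ∀ k, a * e (k + 2) = b * e (k + 1) - c * e k)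
    (hne : e 0 * e 2 - e 1 ^ 2 ≠ 0) : a ∣ b ∧ a ∣ c := by
  classical
  let _ : GCDMonoid R := UniqueFactorizationMonoid.toGCDMonoid R
  set g : R := GCDMonoid.gcd a (GCDMonoid.gcd b c) with hg
  have hga : g ∣ a := GCDMonoid.gcd_dvd_left _ _
  have hgb : g ∣ b := (GCDMonoid.gcd_dvd_right _ _).trans (GCDMonoid.gcd_dvd_left _ _)
  have hgc : g ∣ c := (GCDMonoid.gcd_dvd_right _ _).trans (GCDMonoid.gcd_dvd_right _ _)
  have hg0 : g ≠ 0 := fun h => ha (zero_dvd_iff.1 (h ▸ hga))
  obtain ⟨a', ha'⟩ := hga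
  obtain ⟨b', hb'⟩ := hgb
  obtain ⟨c', hc'⟩ := hgc
  have ha0 : a' ≠ 0 := by
    rintro rfl
    exact ha (by rw [ha', mul_zero])
  have hu : IsUnit a' := by
    refine fatou_prim e a' b' c' ha0 ?_ ?_ hne
    · rintro p hp ⟨h1, h2, h3⟩
      have h4 : g * p ∣ g := by
        conv_rhs => rw [hg]
        refine GCDMonoid.dvd_gcd ?_ (GCDMonoid.dvd_gcd ?_ ?_)
        · rw [ha']; exact mul_dvd_mul_left g h1
        · rw [hb']; exact mul_dvd_mul_left g h2
        · rw [hc']; exact mul_dvd_mul_left g h3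
      have h5 : p ∣ 1 := by
        have : g * p ∣ g * 1 := by rwa [mul_one]
        exact (mul_dvd_mul_iff_left hg0).1 this
      exact hp.not_isUnit (isUnit_of_dvd_one h5)
    · intro k
      apply mul_left_cancel₀ hg0
      have := hrec k
      rw [ha', hb', hc'] at this
      linear_combination this
  obtain ⟨u, hu⟩ := hu
  constructor
  · refine ⟨(↑u⁻¹ : R) * b', ?_⟩
    rw [hb', ha', ← hu]
    have : (u : R) * (↑u⁻¹ : R) = 1 := u.mul_inv
    linear_combination (-g * b') * this
  · refine ⟨(↑u⁻¹ : R) * c', ?_⟩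
    rw [hc', ha', ← hu]
    have : (u : R) * (↑u⁻¹ : R) = 1 := u.mul_inv
    linear_combination (-g * c') * this

end

/-- reflection in a larger degree -/
lemma reflect_add_deg (f : ℝ[X]) (N j : ℕ) (h : f.natDegree ≤ N) :
    reflect (N + j) f = reflect N f * X ^ j := by
  have h1 := reflect_mul f (C 1) h (natDegree_C (1 : ℝ) ▸ Nat.zero_le j)
  rw [reflect_C, map_one, one_mul, mul_one] at h1
  exact h1

/-- Polynomials `e k` of degree `≤ k + 1` with a recurrence of order two: the coefficients are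
polynomials of degree one and two. -/
theorem poly_rec (e : ℕ → ℝ[X]) (hdeg : ∀ k, (e k).natDegree ≤ k + 1)
    (hne : e 0 * e 2 - e 1 ^ 2 ≠ 0)
    (hrec : ∀ k, (e 0 * e 2 - e 1 ^ 2) * e (k + 2) =
      (e 0 * e 3 - e 1 * e 2) * e (k + 1) - (e 1 * e 3 - e 2 ^ 2) * e k) :
    ∃ S P : ℝ[X], S.natDegree ≤ 1 ∧ P.natDegree ≤ 2 ∧
      e 0 * e 3 - e 1 * e 2 = (e 0 * e 2 - e 1 ^ 2) * S ∧
      e 1 * e 3 - e 2 ^ 2 = (e 0 * e 2 - e 1 ^ 2) * P := by
  obtain ⟨⟨S, hS⟩, ⟨P, hP⟩⟩ := fatou e _ _ _ hne hrec hne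
  -- the reflected polynomials
  set r : ℕ → ℝ[X] := fun k => reflect (k + 1) (e k) with hr
  have hmul : ∀ i j, reflect (i + 1 + (j + 1)) (e i * e j) = r i * r j := fun i j =>
    reflect_mul _ _ (hdeg i) (hdeg j)
  have hA : reflect 4 (e 0 * e 2 - e 1 ^ 2) = r 0 * r 2 - r 1 ^ 2 := by
    rw [reflect_sub, pow_two, pow_two, ← hmul 0 2, ← hmul 1 1]
  have hB : reflect 5 (e 0 * e 3 - e 1 * e 2) = r 0 * r 3 - r 1 * r 2 := by
    rw [reflect_sub, ← hmul 0 3, ← hmul 1 2]
  have hC : reflect 6 (e 1 * e 3 - e 2 ^ 2) = r 1 * r 3 - r 2 ^ 2 := by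
    rw [reflect_sub, pow_two, pow_two, ← hmul 1 3, ← hmul 2 2]
  have dA : (e 0 * e 2 - e 1 ^ 2).natDegree ≤ 4 := by
    refine (natDegree_sub_le _ _).trans (max_le ?_ ?_)
    · refine natDegree_mul_le.trans ?_
      have := hdeg 0; have := hdeg 2; omega
    · refine natDegree_pow_le.trans ?_
      have := hdeg 1; omega
  have dB : (e 0 * e 3 - e 1 * e 2).natDegree ≤ 5 := by
    refine (natDegree_sub_le _ _).trans (max_le ?_ ?_)
    · refine natDegree_mul_le.trans ?_
      have := hdeg 0; have := hdeg 3; omega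
    · refine natDegree_mul_le.trans ?_
      have := hdeg 1; have := hdeg 2; omega
  have dC : (e 1 * e 3 - e 2 ^ 2).natDegree ≤ 6 := by
    refine (natDegree_sub_le _ _).trans (max_le ?_ ?_)
    · refine natDegree_mul_le.trans ?_
      have := hdeg 1; have := hdeg 3; omega
    · refine natDegree_pow_le.trans ?_
      have := hdeg 2; omega
  have hA0 : r 0 * r 2 - r 1 ^ 2 ≠ 0 := by
    rw [← hA]
    intro h
    apply hne
    rwa [reflect_eq_zero_iff] at h
  have hrec' : ∀ k, (r 0 * r 2 - r 1 ^ 2) * r (k + 2) =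
      (r 0 * r 3 - r 1 * r 2) * r (k + 1) - (r 1 * r 3 - r 2 ^ 2) * r k := by
    intro k
    have e1 : 4 + (k + 2 + 1) = 5 + (k + 1 + 1) := by omega
    have e2 : 4 + (k + 2 + 1) = 6 + (k + 1) := by omega
    have h1 : reflect (4 + (k + 2 + 1)) ((e 0 * e 2 - e 1 ^ 2) * e (k + 2)) =
        (r 0 * r 2 - r 1 ^ 2) * r (k + 2) := by
      rw [reflect_mul _ _ dA (hdeg (k + 2)), hA]
    have h2 : reflect (4 + (k + 2 + 1)) ((e 0 * e 3 - e 1 * e 2) * e (k + 1)) =
        (r 0 * r 3 - r 1 * r 2) * r (k + 1) := by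
      rw [e1, reflect_mul _ _ dB (hdeg (k + 1)), hB]
    have h3 : reflect (4 + (k + 2 + 1)) ((e 1 * e 3 - e 2 ^ 2) * e k) =
        (r 1 * r 3 - r 2 ^ 2) * r k := by
      rw [e2, reflect_mul _ _ dC (hdeg k), hC]
    rw [← h1, ← h2, ← h3, ← reflect_sub, hrec k]
  obtain ⟨⟨S', hS'⟩, ⟨P', hP'⟩⟩ := fatou r _ _ _ hA0 hrec' hA0
  -- general comparison
  have key : ∀ (d : ℕ) (T T' B : ℝ[X]), B.natDegree ≤ 4 + d → B = (e 0 * e 2 - e 1 ^ 2) * T →
      reflect (4 + d) B = (r 0 * r 2 - r 1 ^ 2) * T' → T.natDegree ≤ d := by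
    intro d T T' B hB1 hB2 hB3
    by_contra hcon
    push Not at hcon
    obtain ⟨j, hj⟩ := Nat.exists_eq_add_of_lt hcon
    have h1 : reflect (4 + T.natDegree) B = (r 0 * r 2 - r 1 ^ 2) * reflect T.natDegree T := by
      rw [hB2, reflect_mul _ _ dA le_rfl, hA]
    have h2 : reflect (4 + T.natDegree) B = reflect (4 + d) B * X ^ (j + 1) := by
      have : 4 + T.natDegree = 4 + d + (j + 1) := by omega
      rw [this]
      exact reflect_add_deg B (4 + d) (j + 1) hB1
    rw [h2, hB3, mul_assoc] at h1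
    have h3 := mul_left_cancel₀ hA0 h1
    have h4 := congrArg (fun q : ℝ[X] => q.coeff 0) h3
    simp only [pow_succ, ← mul_assoc, mul_coeff_zero, coeff_X_zero, mul_zero, coeff_reflect] at h4
    rw [revAt_le (Nat.zero_le _), Nat.sub_zero] at h4
    have h5 : T ≠ 0 := by
      rintro rfl
      simp at hcon
    exact h5 (leadingCoeff_eq_zero.1 h4.symm)
  exact ⟨S, P, key 1 S S' _ dB hS (by rw [hB]; exact hS'),
    key 2 P P' _ dC hP (by rw [hC]; exact hP'), hS, hP⟩

end Pool.Agent.V5helper21.HD
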