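import Pool.Agent.V5helper21.HD.Pencil

set_option autoImplicit false

/-!
# The inner leaf, and the final assembly
-/

namespace Pool.Agent.V5helper21.HD

open Set Filter Topology
open scoped ContDiff

lemma neg_second {g g' : ℝ → ℝ} {a : ℝ} (h1 : ∀ᶠ s in 𝓝 (0 : ℝ), HasDerivAt g (g' s) s)
    (h2 : HasDerivAt g' a 0) (h0 : g' 0 = 0) (ha : a < 0) :
    ∃ δ : ℝ, 0 < δ ∧ ∀ s : ℝ, s ≠ 0 → |s| < δ → g s < g 0 := by
  have h3 : ∀ᶠ s in 𝓝[≠] (0 : ℝ), slope g' 0 s < 0 :=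
    (hasDerivAt_iff_tendsto_slope.1 h2).eventually_lt_const ha
  have h4 : ∀ᶠ s in 𝓝 (0 : ℝ), s ≠ 0 → g' s / s < 0 := by
    have := eventually_nhdsWithin_iff.1 h3
    filter_upwards [this] with s hs hs0
    have := hs hs0
    rw [slope_def_field, h0, sub_zero, sub_zero] at this
    exact this
  obtain ⟨δ, hδ, hb⟩ := Metric.eventually_nhds_iff_ball.1 (h1.and h4)
  have hb' : ∀ s : ℝ, |s| < δ → HasDerivAt g (g' s) s ∧ (s ≠ 0 → g' s / s < 0) := by
    intro s hs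
    exact hb s (by rwa [Metric.mem_ball, Real.dist_eq, sub_zero])
  refine ⟨δ, hδ, fun s hs0 hs => ?_⟩
  rcases lt_or_gt_of_ne hs0 with hneg | hpos
  · obtain ⟨ξ, hξ, he⟩ := exists_hasDerivAt_eq_slope g g' hneg
      (fun x hx => ((hb' x (by
        rw [abs_lt] at hs ⊢
        constructor <;> linarith [hx.1, hx.2, hs.1])).1.continuousAt.continuousWithinAt))
      (fun x hx => (hb' x (by
        rw [abs_lt] at hs ⊢
        constructor <;> linarith [hx.1, hx.2, hs.1])).1)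
    have h5 := (hb' ξ (by
        rw [abs_lt] at hs ⊢
        constructor <;> linarith [hξ.1, hξ.2, hs.1])).2 hξ.2.ne
    have h6 : 0 < g' ξ := by
      by_contra hn
      push Not at hn
      have := div_nonneg_of_nonpos hn hξ.2.le
      linarith
    rw [he] at h6
    have h7 : 0 < 0 - s := by linarith
    have h8 := (div_pos_iff_of_pos_right h7).1 h6
    linarith
  · obtain ⟨ξ, hξ, he⟩ := exists_hasDerivAt_eq_slope g g' hpos
      (fun x hx => ((hb' x (by
        rw [abs_lt] at hs ⊢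
        constructor <;> linarith [hx.1, hx.2, hs.2])).1.continuousAt.continuousWithinAt))
      (fun x hx => (hb' x (by
        rw [abs_lt] at hs ⊢
        constructor <;> linarith [hx.1, hx.2, hs.2])).1)
    have h5 := (hb' ξ (by
        rw [abs_lt] at hs ⊢
        constructor <;> linarith [hξ.1, hξ.2, hs.2])).2 hξ.1.ne'
    have h6 : g' ξ < 0 := by
      by_contra hn
      push Not at hn
      have := div_nonneg hn hξ.1.le
      linarith
    rw [he] at h6
    have h7 : 0 < s - 0 := by linarith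
    rw [div_neg_iff] at h6
    rcases h6 with h8 | h8
    · linarith [h8.2]
    · linarith [h8.1]

section
variable {f : ℝ × ℝ → ℝ} {r : ℝ} {z : ℝ × ℝ} {U : Set (ℝ × ℝ)}

lemma glob_of (hc : Continuous f)
    (hconv : ∀ c, 0 ≤ c → c < r → Convex ℝ {p | f p ≤ c} ∧ Bornology.IsBounded {p | f p ≤ c})
    (hneg : f z < 0) (hU : IsOpen U) (hUs : {p | 0 ≤ f p ∧ f p < r} ⊆ U)
    (hf : ContDiffOn ℝ ∞ f U) (hd : ∀ p, 0 ≤ f p → f p < r → fderiv ℝ f p ≠ 0) :
    Glob f r z where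
  cont := hc
  cvx := fun c h0 h1 => (hconv c h0 h1).1
  bdd := fun c h0 h1 => (hconv c h0 h1).2
  neg := hneg
  sub := by
    intro p h0 h1
    have hp : p ∈ U := hUs ⟨h0, h1⟩
    have hs : HasStrictFDerivAt f (fderiv ℝ f p) p :=
      (hf.contDiffAt (hU.mem_nhds hp)).hasStrictFDerivAt (by simp)
    refine hs.map_nhds_eq_of_surj ?_
    have hne := hd p h0 h1
    have hne' : (fderiv ℝ f p : (ℝ × ℝ) →ₗ[ℝ] ℝ) ≠ 0 := by
      intro h
      apply hne
      ext <;> exact LinearMap.congr_fun h _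
    exact LinearMap.range_eq_top.2 (LinearMap.surjective hne')

lemma hyp_of (G : Glob f r z) (hU : IsOpen U) (hUs : {p | 0 ≤ f p ∧ f p < r} ⊆ U)
    (hf : ContDiffOn ℝ ∞ f U) (hd : ∀ p, 0 ≤ f p → f p < r → fderiv ℝ f p ≠ 0)
    (hinv : ∀ p, 0 < f p → f p < r → ∀ v : ℝ × ℝ, v ≠ 0 → fderiv ℝ f p v = 0 →
      ∃ c : ℝ, ∀ᶠ s in 𝓝 (0 : ℝ), f (p + s • v) = f (p - (s / (1 + c * s)) • v)) :
    Hyp f {p | 0 < f p ∧ f p < r} where
  opn := (isOpen_lt continuous_const G.cont).inter (isOpen_lt G.cont continuous_const)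
  smooth := hf.mono fun p hp => hUs ⟨hp.1.le, hp.2⟩
  cont := G.cont
  ne := fun p hp => hd p hp.1.le hp.2
  inv := fun p hp => hinv p hp.1 hp.2
  cv := by
    intro p hp v hv
    by_contra hn
    push Not at hn
    have hpU : p ∈ U := hUs ⟨hp.1.le, hp.2⟩
    have hline : ∀ s : ℝ, HasDerivAt (fun s : ℝ => p + s • v) v s := by
      intro s
      simpa using ((hasDerivAt_id s).smul_const v).const_add p
    have hc0 : ContinuousAt (fun s : ℝ => p + s • v) 0 := (hline 0).continuousAt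
    have hev : ∀ᶠ s in 𝓝 (0 : ℝ), p + s • v ∈ U := by
      refine hc0.eventually_mem (hU.mem_nhds ?_)
      rw [zero_smul, add_zero]
      exact hpU
    have h1 : ∀ᶠ s in 𝓝 (0 : ℝ), HasDerivAt (fun s : ℝ => f (p + s • v))
        (fderiv ℝ f (p + s • v) v) s := by
      filter_upwards [hev] with s hs
      exact (diff_f hU hf hs).hasFDerivAt.comp_hasDerivAt s (hline s)
    have h2 : HasDerivAt (fun s : ℝ => fderiv ℝ f (p + s • v) v)
        (fderiv ℝ (fderiv ℝ f) p v v) 0 := by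
      have a0 : p + (0 : ℝ) • v = p := by rw [zero_smul, add_zero]
      have a1 : HasFDerivAt (fderiv ℝ f) (fderiv ℝ (fderiv ℝ f) p) (p + (0 : ℝ) • v) := by
        rw [a0]; exact (diff_fderiv hU hf hpU).hasFDerivAt
      have a3 : HasDerivAt (fun s : ℝ => fderiv ℝ f (p + s • v))
          (fderiv ℝ (fderiv ℝ f) p v) 0 := a1.comp_hasDerivAt (0 : ℝ) (hline 0)
      have a2 := a3.clm_apply (hasDerivAt_const (0 : ℝ) v)
      rw [map_zero, add_zero] at a2
      exact a2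
    have a00 : p + (0 : ℝ) • v = p := by rw [zero_smul, add_zero]
    have h3 : fderiv ℝ f (p + (0 : ℝ) • v) v = 0 := by rw [a00]; exact hv
    obtain ⟨δ, hδ, hg⟩ := neg_second (g := fun s : ℝ => f (p + s • v))
      (g' := fun s : ℝ => fderiv ℝ f (p + s • v) v) h1 h2 h3 hn
    have ha : |δ / 2| < δ := by rw [abs_of_pos (by linarith)]; linarith
    have hb : |-(δ / 2)| < δ := by rw [abs_neg]; exact ha
    have g1 := hg (δ / 2) (by linarith) ha
    have g2 := hg (-(δ / 2)) (by linarith) hb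
    have e0 : f (p + (0 : ℝ) • v) = f p := by rw [a00]
    have g1' : f (p + (δ / 2) • v) < f (p + (0 : ℝ) • v) := g1
    have g2' : f (p + (-(δ / 2)) • v) < f (p + (0 : ℝ) • v) := g2
    rw [e0] at g1' g2'
    have hI := KK_interior G hp.1.le hp.2
    have m1 : p + (δ / 2) • v - z ∈ interior (KK f z (f p)) := by
      rw [hI]
      show f (z + (p + (δ / 2) • v - z)) < f p
      rwa [add_sub_cancel]
    have m2 : p + (-(δ / 2)) • v - z ∈ interior (KK f z (f p)) := by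
      rw [hI]
      show f (z + (p + (-(δ / 2)) • v - z)) < f p
      rwa [add_sub_cancel]
    have m3 := (KK_convex G hp.1.le hp.2).interior m1 m2 (a := 1 / 2) (b := 1 / 2) (by norm_num)
      (by norm_num) (by norm_num)
    rw [hI] at m3
    have m4 : f (z + ((1 / 2 : ℝ) • (p + (δ / 2) • v - z) +
      (1 / 2 : ℝ) • (p + (-(δ / 2)) • v - z))) < f p := m3
    have e : z + ((1 / 2 : ℝ) • (p + (δ / 2) • v - z) +
      (1 / 2 : ℝ) • (p + (-(δ / 2)) • v - z)) = p := by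
      ext <;> simp <;> ring
    rw [e] at m4
    exact lt_irrefl _ m4

/-- the conic of the inner leaf -/
lemma zero_case (G : Glob f r z) (hr : 0 < r) {A B : Fin 6 → ℝ} (hB : B ≠ 0)
    (hBz : ev B z = 0)
    (hK : ∀ c ∈ Ioo 0 r, ∃ s : ℝ, ∀ p, f p = c → ev (A + s • B) p = 0) :
    ∃ s : ℝ, ∀ p, f p = 0 → ev (A + s • B) p = 0 := by
  -- a point of the inner leaf where `B` does not vanish
  obtain ⟨p₀, hp₀, hBp⟩ : ∃ p, f p = 0 ∧ ev B p ≠ 0 := by
    by_contra hn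
    push Not at hn
    exact ev_z_ne G le_rfl hr hB hn hBz
  choose! s hs using hK
  have cev : ∀ k : Fin 6 → ℝ, Continuous (ev k) := by
    intro k
    unfold ev
    fun_prop
  set s₀ := -ev A p₀ / ev B p₀ with hs₀
  have hlim : Tendsto s (𝓝[>] 0) (𝓝 s₀) := by
    rw [Metric.tendsto_nhds]
    intro ε hε
    have c1 : ContinuousAt (fun q => -ev A q / ev B q) p₀ :=
      ((cev A).continuousAt.neg).div (cev B).continuousAt hBp
    have e1 : ∀ᶠ q in 𝓝 p₀, dist (-ev A q / ev B q) s₀ < ε ∧ ev B q ≠ 0 := by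
      filter_upwards [Metric.tendsto_nhds.1 c1.tendsto ε hε,
        (cev B).continuousAt.eventually_ne hBp] with q h1 h2 using ⟨h1, h2⟩
    have e2 := near_leaf G (p := p₀) (by rw [hp₀]) (by rw [hp₀]; exact hr) e1
    rw [hp₀] at e2
    filter_upwards [nhdsWithin_le_nhds e2, Ioo_mem_nhdsGT hr] with c hc hcI
    obtain ⟨q, hq, h1, h2⟩ := hc
    have h3 := hs c hcI q hq
    rw [ev_add, ev_smul] at h3
    have h4 : s c = -ev A q / ev B q := by
      field_simp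
      linarith
    rw [h4]
    exact h1
  refine ⟨s₀, fun p hp => ?_⟩
  by_contra hne
  have c2 : ContinuousAt (fun x : (ℝ × ℝ) × ℝ => ev (A + x.2 • B) x.1) (p, s₀) := by
    have : (fun x : (ℝ × ℝ) × ℝ => ev (A + x.2 • B) x.1) =
        fun x : (ℝ × ℝ) × ℝ => ev A x.1 + x.2 * ev B x.1 := by
      ext x
      rw [ev_add, ev_smul]
    rw [this]
    exact (((cev A).comp continuous_fst).add
      (continuous_snd.mul ((cev B).comp continuous_fst))).continuousAt
  have e3 : ∀ᶠ x in 𝓝 ((p, s₀) : (ℝ × ℝ) × ℝ), ev (A + x.2 • B) x.1 ≠ 0 := c2.eventually_ne hne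
  rw [nhds_prod_eq] at e3
  obtain ⟨P, hP, Q, hQ, hPQ⟩ := eventually_prod_iff.1 e3
  have e4 := near_leaf G (p := p) (by rw [hp]) (by rw [hp]; exact hr) hP
  rw [hp] at e4
  have e4' : ∀ᶠ c in 𝓝[>] (0 : ℝ), ∃ q, f q = c ∧ P q := e4.filter_mono nhdsWithin_le_nhds
  have e6 : ∀ᶠ c in 𝓝[>] (0 : ℝ), c ∈ Ioo 0 r := Ioo_mem_nhdsGT hr
  have e5 := (e4'.and ((hlim.eventually hQ).and e6)).exists
  obtain ⟨c, ⟨q, hq, hPq⟩, hQc, hcI⟩ := e5
  exact hPQ hPq hQc (hs c hcI q hq)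

/-- **The theorem.** -/
theorem main (f : ℝ × ℝ → ℝ) (r : ℝ) (hr : 0 < r) (hc : Continuous f)
    (hconv : ∀ c, 0 ≤ c → c < r → Convex ℝ {p | f p ≤ c} ∧ Bornology.IsBounded {p | f p ≤ c})
    (hneg : ∃ z, f z < 0) (U : Set (ℝ × ℝ)) (hU : IsOpen U)
    (hUs : {p | 0 ≤ f p ∧ f p < r} ⊆ U)
    (hf : ContDiffOn ℝ ∞ f U) (hd : ∀ p, 0 ≤ f p → f p < r → fderiv ℝ f p ≠ 0)
    (hinv : ∀ p, 0 < f p → f p < r → ∀ v : ℝ × ℝ, v ≠ 0 → fderiv ℝ f p v = 0 →
      ∃ c : ℝ, ∀ᶠ s in 𝓝 (0 : ℝ), f (p + s • v) = f (p - (s / (1 + c * s)) • v)) :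
    ∃ A B : Fin 6 → ℝ, LinearIndependent ℝ ![A, B] ∧ ∀ c, 0 ≤ c → c < r →
      ∃ k ∈ Submodule.span ℝ {A, B}, 0 < k 3 ∧ k 4 ^ 2 < 4 * (k 3 * k 5) ∧
        (∀ p, ev k p < 0 ↔ f p < c) ∧ ∀ p, ev k p = 0 ↔ f p = c := by
  obtain ⟨z, hz⟩ := hneg
  have G := glob_of hc hconv hz hU hUs hf hd
  have H := hyp_of G hU hUs hf hd hinv
  have hex : ∀ c ∈ Ioo 0 r, ∃ k, IsK f z c k := by
    intro c hc
    obtain ⟨k, hk, h⟩ := leaf G H hc.1 hc.2
    exact ⟨_, isK_of G hc.1.le hc.2 hk h⟩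
  choose! K hK using hex
  set c₁ := r / 2 with hc₁
  have hc₁m : c₁ ∈ Ioo 0 r := ⟨by rw [hc₁]; linarith, by rw [hc₁]; linarith⟩
  have hL := K_line G H hK hc₁m
  set A := K c₁ with hA
  set B := deriv K c₁ with hB
  have hB0 : B ≠ 0 := K_deriv_ne G H hK hc₁m
  have hAz : ev A z = -1 := (hK c₁ hc₁m).1
  have hBz : ev B z = 0 := by
    -- another leaf
    set c₂ := r / 4 with hc₂
    have hc₂m : c₂ ∈ Ioo 0 r := ⟨by rw [hc₂]; linarith, by rw [hc₂]; linarith⟩
    obtain ⟨s, hs⟩ := hL c₂ hc₂m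
    have h1 := (hK c₂ hc₂m).1
    rw [hs, ev_add, ev_smul, hAz] at h1
    have h2 : s * ev B z = 0 := by linarith
    rcases mul_eq_zero.1 h2 with h3 | h3
    · exfalso
      rw [h3, zero_smul, add_zero] at hs
      obtain ⟨p, hp⟩ := leaf_nonempty G hc₂m.1.le hc₂m.2
      have hp' : f p = c₂ := hp
      have h4 := (hK c₂ hc₂m).2 p hp'
      rw [hs] at h4
      have h5 := ((ellipse G hc₁m.1.le hc₁m.2 (by rw [hAz]; norm_num) (hK c₁ hc₁m).2).2.2.2.2 p).1 h4
      rw [hp', hc₁, hc₂] at h5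
      linarith
    · exact h3
  have hspan : ∀ s : ℝ, A + s • B ∈ Submodule.span ℝ {A, B} := fun s =>
    Submodule.add_mem _ (Submodule.subset_span (by simp))
      (Submodule.smul_mem _ _ (Submodule.subset_span (by simp)))
  have hevs : ∀ s : ℝ, ev (A + s • B) z = -1 := by
    intro s
    rw [ev_add, ev_smul, hAz, hBz]; ring
  refine ⟨A, B, ?_, ?_⟩
  · rw [LinearIndependent.pair_iff]
    intro s t hst
    have h1 : ev (s • A + t • B) z = 0 := by rw [hst]; simp [ev]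
    rw [ev_add, ev_smul, ev_smul, hAz, hBz] at h1
    have hs : s = 0 := by linarith
    rw [hs, zero_smul, zero_add] at hst
    exact ⟨hs, (smul_eq_zero.1 hst).resolve_right hB0⟩
  · intro c h0 h1
    have hex2 : ∃ s : ℝ, ∀ p, f p = c → ev (A + s • B) p = 0 := by
      rcases h0.eq_or_lt with h2 | h2
      · rw [← h2]
        refine zero_case G hr hB0 hBz fun c hc => ?_
        obtain ⟨s, hs⟩ := hL c hc
        exact ⟨s, by rw [← hs]; exact (hK c hc).2⟩
      · obtain ⟨s, hs⟩ := hL c ⟨h2, h1⟩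
        exact ⟨s, by rw [← hs]; exact (hK c ⟨h2, h1⟩).2⟩
    obtain ⟨s, hs⟩ := hex2
    have he := ellipse G h0 h1 (by rw [hevs s]; norm_num) hs
    exact ⟨A + s • B, hspan s, he.2⟩

end

end Pool.Agent.V5helper21.HD
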