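import Pool.Agent.V5helper21.HD.Dense

set_option autoImplicit false

/-!
# The leaves near a curved point form a smooth family of arcs of conics
-/

namespace Pool.Agent.V5helper21.HD

open Set Filter Topology
open scoped ContDiff

/-- the leaves near `p` lie on a `C²` family of conics -/
def LC (f : ℝ × ℝ → ℝ) (p : ℝ × ℝ) : Prop :=
  ∃ κ : ℝ → Fin 6 → ℝ, ContDiffAt ℝ 2 κ (f p) ∧ κ (f p) ≠ 0 ∧ ∀ᶠ q in 𝓝 p, ev (κ (f q)) q = 0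

/-- the conic `k` contains the leaf of `p` near `p` -/
def On (f : ℝ × ℝ → ℝ) (k : Fin 6 → ℝ) (p : ℝ × ℝ) : Prop :=
  ∀ᶠ q in 𝓝 p, f q = f p → ev k q = 0

section
variable {f : ℝ × ℝ → ℝ} {U : Set (ℝ × ℝ)}

lemma cur_chart (H : Hyp f U) {Y : ℝ × ℝ → ℝ} {W : Set (ℝ × ℝ)} (hW : IsOpen W)
    (hY : ContDiffOn ℝ ((8 : ℕ) : ℕ∞) Y W) (h : ∀ w ∈ W, (w.1, Y w) ∈ U ∧ f (w.1, Y w) = w.2)
    {w : ℝ × ℝ} (hw : w ∈ W) (hσ : fderiv ℝ f (w.1, Y w) (0, 1) ≠ 0) :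
    Cur f (w.1, Y w) ↔ Yd Y 2 w ≠ 0 := by
  obtain ⟨h1, h2⟩ := chart_deriv H.opn H.smooth hW hY h hw
  have hm := eq_sl hσ h1
  rw [cur_iff hσ, ← hm]
  constructor
  · intro h3 h4
    rw [h4, mul_zero, add_zero] at h2
    exact h3.ne' h2
  · intro h3
    refine lt_of_le_of_ne (H.cv _ (h w hw).1 _ h1) fun h4 => ?_
    rw [← h4, zero_add] at h2
    exact (mul_ne_zero hσ h3) h2

lemma leaf_conic {Y : ℝ × ℝ → ℝ} {W : Set (ℝ × ℝ)} (hW : IsOpen W)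
    (hY : ContDiffOn ℝ ((8 : ℕ) : ℕ∞) Y W) (h : ∀ w ∈ W, (w.1, Y w) ∈ U ∧ f (w.1, Y w) = w.2)
    {p : ℝ × ℝ} (hp : (p.1, f p) ∈ W) (hpY : Y (p.1, f p) = p.2) {k : Fin 6 → ℝ} (hk : On f k p) :
    ∃ ρ : ℝ, 0 < ρ ∧ Jet (Ioo (p.1 - ρ) (p.1 + ρ)) (fun j x => Yd Y j (x, f p)) 5 ∧
      ∀ x ∈ Ioo (p.1 - ρ) (p.1 + ρ), ev k (x, Y (x, f p)) = 0 := by
  have hYc : ContinuousAt Y (p.1, f p) := (hY.contDiffAt (hW.mem_nhds hp)).continuousAt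
  have c1 : ContinuousAt (fun x : ℝ => ((x, f p) : ℝ × ℝ)) p.1 := by fun_prop
  have c2 : ContinuousAt (fun x : ℝ => Y (x, f p)) p.1 :=
    ContinuousAt.comp (g := Y) (f := fun x : ℝ => ((x, f p) : ℝ × ℝ)) hYc c1
  have c3 : ContinuousAt (fun x : ℝ => ((x, Y (x, f p)) : ℝ × ℝ)) p.1 := continuousAt_id.prodMk c2
  have e1 : ∀ᶠ x in 𝓝 p.1, (x, f p) ∈ W := c1.eventually_mem (hW.mem_nhds hp)
  have e2 : ∀ᶠ x in 𝓝 p.1, f (x, Y (x, f p)) = f p → ev k (x, Y (x, f p)) = 0 := by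
    have : Tendsto (fun x : ℝ => ((x, Y (x, f p)) : ℝ × ℝ)) (𝓝 p.1) (𝓝 p) := by
      have := c3.tendsto
      rwa [hpY] at this
    exact this.eventually hk
  obtain ⟨ρ, hρ, hb⟩ := Metric.eventually_nhds_iff_ball.1 (e1.and e2)
  rw [Real.ball_eq_Ioo] at hb
  refine ⟨ρ, hρ, jet_Yd hW hY (f p) _ (fun x hx => (hb x hx).1), fun x hx => ?_⟩
  exact (hb x hx).2 (h _ (hb x hx).1).2

lemma on_of_loc {p : ℝ × ℝ} (h : LocPencil f p) : ∃ k : Fin 6 → ℝ, k ≠ 0 ∧ On f k p := by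
  obtain ⟨δ, hδ, A, B, h⟩ := h
  obtain ⟨k, -, hk, h⟩ := h p (Metric.mem_ball_self hδ)
  exact ⟨k, hk, by filter_upwards [Metric.ball_mem_nhds p hδ] with q hq using h q hq⟩

/-- the equation of Monge -/
lemma mo_zero (H : Hyp f U) {Y : ℝ × ℝ → ℝ} {W : Set (ℝ × ℝ)} (hW : IsOpen W)
    (hY : ContDiffOn ℝ ((8 : ℕ) : ℕ∞) Y W) (h : ∀ w ∈ W, (w.1, Y w) ∈ U ∧ f (w.1, Y w) = w.2 ∧
      ∀ᶠ p in 𝓝 ((w.1, Y w) : ℝ × ℝ), Y (p.1, f p) = p.2)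
    {w : ℝ × ℝ} (hw : w ∈ W) (hσ : fderiv ℝ f (w.1, Y w) (0, 1) ≠ 0) (h2 : Yd Y 2 w ≠ 0) :
    Mo (Yd Y 2 w) (Yd Y 3 w) (Yd Y 4 w) (Yd Y 5 w) = 0 := by
  by_contra hne
  have h' : ∀ w ∈ W, (w.1, Y w) ∈ U ∧ f (w.1, Y w) = w.2 := fun w hw => ⟨(h w hw).1, (h w hw).2.1⟩
  obtain ⟨pU, pf, pu⟩ := h w hw
  have pc : Cur f (w.1, Y w) := (cur_chart H hW hY h' hw hσ).2 h2
  have cY : ∀ j ≤ 5, ContinuousAt (Yd Y j) w := fun j hj =>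
    ((contDiffOn_Yd hW 8 hY j 0 (by omega)).contDiffAt (hW.mem_nhds hw)).continuousAt
  have cpf : ContinuousAt (fun p : ℝ × ℝ => ((p.1, f p) : ℝ × ℝ)) (w.1, Y w) :=
    continuousAt_fst.prodMk H.cont.continuousAt
  have epf : (((w.1, Y w) : ℝ × ℝ).1, f (w.1, Y w)) = w := by rw [pf]
  have tpf : Tendsto (fun p : ℝ × ℝ => ((p.1, f p) : ℝ × ℝ)) (𝓝 ((w.1, Y w) : ℝ × ℝ)) (𝓝 w) := by
    have := cpf.tendsto
    simp only [pf] at this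
    exact this
  have e1 : ∀ᶠ v in 𝓝 w, Mo (Yd Y 2 v) (Yd Y 3 v) (Yd Y 4 v) (Yd Y 5 v) ≠ 0 := by
    have a2 := cY 2 (by norm_num)
    have a3 := cY 3 (by norm_num)
    have a4 := cY 4 (by norm_num)
    have a5 := cY 5 (by norm_num)
    have c : ContinuousAt (fun v => Mo (Yd Y 2 v) (Yd Y 3 v) (Yd Y 4 v) (Yd Y 5 v)) w := by
      unfold Mo
      fun_prop
    exact c.eventually_ne hne
  have e2 : ∀ᶠ v in 𝓝 w, Yd Y 2 v ≠ 0 := (cY 2 (by norm_num)).eventually_ne h2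
  have e3 : ∀ᶠ v in 𝓝 w, v ∈ W := hW.mem_nhds hw
  have e4 := (tpf.eventually (e1.and (e2.and e3))).and pu
  obtain ⟨p, ⟨⟨hp1, hp2, hp3⟩, hp4⟩, hp5⟩ := exists_loc H pU hσ pc (O := {p | _ ∧ _}) e4
  obtain ⟨k, hk, hon⟩ := on_of_loc hp5
  obtain ⟨ρ, hρ, hj, hev⟩ := leaf_conic hW hY h' hp3 hp4 hon
  exact hp1 (monge_of_conic (y := fun j x => Yd Y j (x, f p)) isOpen_Ioo hj hev hk
    (x := p.1) ⟨by linarith, by linarith⟩ hp2)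

end

end Pool.Agent.V5helper21.HD
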