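import Pool.Agent.V5helper21.HD.Loc

set_option autoImplicit false

/-!
# The local theorem
-/

namespace Pool.Agent.V5helper21.HD

open Set Filter Topology Polynomial
open scoped ContDiff

/-- the two roots as a pair -/
lemma pair_of_roots {I J : Set ℝ} {X Y : ℝ × ℝ × ℝ → ℝ} {c : ℝ}
    (hX : ∀ m ∈ I, ∀ b ∈ J, DifferentiableAt ℝ X (m, b, c) ∧
      fderiv ℝ X (m, b, c) (1, 0, 0) = X (m, b, c) * fderiv ℝ X (m, b, c) (0, 1, 0))
    (hY : ∀ m ∈ I, ∀ b ∈ J, DifferentiableAt ℝ Y (m, b, c) ∧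
      fderiv ℝ Y (m, b, c) (1, 0, 0) = Y (m, b, c) * fderiv ℝ Y (m, b, c) (0, 1, 0)) :
    Pair I J (fun m b => X (m, b, c) + Y (m, b, c)) (fun m b => X (m, b, c) * Y (m, b, c))
      (fun m b => fderiv ℝ X (m, b, c) (1, 0, 0) + fderiv ℝ Y (m, b, c) (1, 0, 0))
      (fun m b => fderiv ℝ X (m, b, c) (0, 1, 0) + fderiv ℝ Y (m, b, c) (0, 1, 0))
      (fun m b => fderiv ℝ X (m, b, c) (1, 0, 0) * Y (m, b, c) +
        X (m, b, c) * fderiv ℝ Y (m, b, c) (1, 0, 0))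
      (fun m b => fderiv ℝ X (m, b, c) (0, 1, 0) * Y (m, b, c) +
        X (m, b, c) * fderiv ℝ Y (m, b, c) (0, 1, 0)) := by
  have lm : ∀ m b : ℝ, HasDerivAt (fun m' : ℝ => ((m', b, c) : ℝ × ℝ × ℝ)) (1, 0, 0) m := fun m b =>
    (hasDerivAt_id m).prodMk (hasDerivAt_const m ((b, c) : ℝ × ℝ))
  have lb : ∀ m b : ℝ, HasDerivAt (fun b' : ℝ => ((m, b', c) : ℝ × ℝ × ℝ)) (0, 1, 0) b := fun m b =>
    (hasDerivAt_const b m).prodMk ((hasDerivAt_id b).prodMk (hasDerivAt_const b c))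
  have Xm : ∀ m ∈ I, ∀ b ∈ J, HasDerivAt (fun m' : ℝ => X (m', b, c))
      (fderiv ℝ X (m, b, c) (1, 0, 0)) m := fun m hm b hb =>
    (hX m hm b hb).1.hasFDerivAt.comp_hasDerivAt m (lm m b)
  have Xb : ∀ m ∈ I, ∀ b ∈ J, HasDerivAt (fun b' : ℝ => X (m, b', c))
      (fderiv ℝ X (m, b, c) (0, 1, 0)) b := fun m hm b hb =>
    (hX m hm b hb).1.hasFDerivAt.comp_hasDerivAt b (lb m b)
  have Ym : ∀ m ∈ I, ∀ b ∈ J, HasDerivAt (fun m' : ℝ => Y (m', b, c))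
      (fderiv ℝ Y (m, b, c) (1, 0, 0)) m := fun m hm b hb =>
    (hY m hm b hb).1.hasFDerivAt.comp_hasDerivAt m (lm m b)
  have Yb : ∀ m ∈ I, ∀ b ∈ J, HasDerivAt (fun b' : ℝ => Y (m, b', c))
      (fderiv ℝ Y (m, b, c) (0, 1, 0)) b := fun m hm b hb =>
    (hY m hm b hb).1.hasFDerivAt.comp_hasDerivAt b (lb m b)
  refine ⟨fun m hm b hb => (Xm m hm b hb).add (Ym m hm b hb),
    fun m hm b hb => (Xb m hm b hb).add (Yb m hm b hb),
    fun m hm b hb => (Xm m hm b hb).mul (Ym m hm b hb),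
    fun m hm b hb => (Xb m hm b hb).mul (Yb m hm b hb), fun m hm b hb => ?_, fun m hm b hb => ?_⟩
  · have e1 := (hX m hm b hb).2
    have e2 := (hY m hm b hb).2
    rw [e1, e2]; ring
  · have e1 := (hX m hm b hb).2
    have e2 := (hY m hm b hb).2
    rw [e1, e2]; ring

lemma prod_ball {m b c m₀ b₀ c₀ r : ℝ} (h1 : |m - m₀| < r) (h2 : |b - b₀| < r) (h3 : |c - c₀| < r) :
    ((m, b, c) : ℝ × ℝ × ℝ) ∈ Metric.ball (m₀, b₀, c₀) r := by
  rw [Metric.mem_ball, Prod.dist_eq, Prod.dist_eq]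
  simp only [Real.dist_eq]
  exact max_lt h1 (max_lt h2 h3)

section
variable {f : ℝ × ℝ → ℝ} {U : Set (ℝ × ℝ)} (hU : IsOpen U) (hf : ContDiffOn ℝ ∞ f U)
include hU hf

lemma continuousAt_glx_root {ψ : ℝ × ℝ × ℝ → ℝ} {m₀ b₀ c₀ x₀ : ℝ} (h0 : ψ (m₀, b₀, c₀) = x₀)
    (hψ : ContinuousAt ψ (m₀, b₀, c₀)) (hp : (x₀, m₀ * x₀ + b₀) ∈ U) :
    ContinuousAt (fun w : ℝ × ℝ × ℝ => glx f w.1 w.2.1 (ψ w)) (m₀, b₀, c₀) := by
  have h1 : ContinuousAt (fun w : ℝ × ℝ × ℝ => ((w.1, w.2.1, ψ w) : ℝ × ℝ × ℝ))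
      (m₀, b₀, c₀) := by fun_prop
  refine ContinuousAt.comp (f := fun w : ℝ × ℝ × ℝ => ((w.1, w.2.1, ψ w) : ℝ × ℝ × ℝ))
    (g := fun v : ℝ × ℝ × ℝ => glx f v.1 v.2.1 v.2.2) (x := (m₀, b₀, c₀)) ?_ h1
  show ContinuousAt _ (m₀, b₀, ψ (m₀, b₀, c₀))
  rw [h0]
  exact continuousAt_glx hU hf hp

/-- **The local theorem.** -/
theorem loc {q : ℝ × ℝ} {mq ε : ℝ} (hq : q ∈ U) (h1 : fderiv ℝ f q (1, mq) = 0)
    (hσ : fderiv ℝ f q (0, 1) ≠ 0) (h2 : 0 < fderiv ℝ (fderiv ℝ f) q (1, mq) (1, mq)) (hε : 0 < ε)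
    (hLU : ∀ p ∈ Metric.ball q ε, ∀ m, fderiv ℝ f p (1, m) = 0 → ∃ c : ℝ, |c| ≤ 1 / ε ∧
      ∀ s : ℝ, |s| < ε → f (p + s • (1, m)) = f (p - (s / (1 + c * s)) • (1, m))) :
    LocPencil f q := by
  set bq := q.2 - mq * q.1 with hbq
  have hqe : (q.1, mq * q.1 + bq) = q := by ext <;> simp [hbq]
  have hqm : ∀ m : ℝ, (q.1, m * q.1 + (q.2 - m * q.1)) = q := fun m => by ext <;> simp
  -- the box
  have hev : ∀ᶠ v in 𝓝 ((mq, bq, q.1) : ℝ × ℝ × ℝ), (v.2.2, v.1 * v.2.2 + v.2.1) ∈ U ∧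
      (v.2.2, v.1 * v.2.2 + v.2.1) ∈ Metric.ball q ε ∧ 0 < glxx f v.1 v.2.1 v.2.2 := by
    have c1 : ContinuousAt (fun v : ℝ × ℝ × ℝ => ((v.2.2, v.1 * v.2.2 + v.2.1) : ℝ × ℝ))
        (mq, bq, q.1) := by fun_prop
    have a1 := c1.eventually_mem (hU.mem_nhds (show (q.1, mq * q.1 + bq) ∈ U by rw [hqe]; exact hq))
    have a2 := c1.eventually_mem (Metric.isOpen_ball.mem_nhds
      (show (q.1, mq * q.1 + bq) ∈ Metric.ball q ε by rw [hqe]; exact Metric.mem_ball_self hε))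
    have c2 := continuousAt_glxx hU hf (m := mq) (b := bq) (x := q.1) (by rw [hqe]; exact hq)
    have a3 := c2.eventually_const_lt (show 0 < glxx f mq bq q.1 by unfold glxx; rw [hqe]; exact h2)
    filter_upwards [a1, a2, a3] with v b1 b2 b3 using ⟨b1, b2, b3⟩
  obtain ⟨ρ, hρ, hbox⟩ := Metric.eventually_nhds_iff_ball.1 hev
  have hbox' : ∀ m b x : ℝ, |m - mq| < ρ → |b - bq| < ρ → |x - q.1| < ρ →
      (x, m * x + b) ∈ U ∧ (x, m * x + b) ∈ Metric.ball q ε ∧ 0 < glxx f m b x :=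
    fun m b x k1 k2 k3 => hbox (m, b, x) (prod_ball k1 k2 k3)
  set η := min ρ ε / 16 with hη
  have hη0 : 0 < η := by rw [hη]; have := lt_min hρ hε; positivity
  have hηρ : 16 * η ≤ ρ := by rw [hη]; have := min_le_left ρ ε; linarith
  have hηε : 16 * η ≤ ε := by rw [hη]; have := min_le_right ρ ε; linarith
  obtain ⟨m₁, x', hm₁, hb₁, hgx, hx'η, hx'q, hx'v, hx'n⟩ := choose_line hU hf hη0 hηρ
    (fun m b x k1 k2 k3 => ⟨(hbox' m b x k1 k2 k3).1, (hbox' m b x k1 k2 k3).2.2⟩) h1 hσ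
  set b₁ := q.2 - m₁ * q.1 with hb₁d
  have hx'U : (x', m₁ * x' + b₁) ∈ U := (hbox' m₁ b₁ x' hm₁ hb₁ (by linarith)).1
  obtain ⟨X, hX0, hXc, hXev, hXu⟩ := exists_root hU hf m₁ b₁ (f q) q.1
    (by rw [hqm]; exact hq) (by unfold gl; rw [hqm]) hgx.ne'
  obtain ⟨Y, hY0, hYc, hYev, -⟩ := exists_root hU hf m₁ b₁ (f q) x' hx'U hx'v hx'n.ne
  -- the good neighbourhood
  have hgood : ∀ᶠ w in 𝓝 ((m₁, b₁, f q) : ℝ × ℝ × ℝ), (|w.1 - mq| < ρ ∧ |w.2.1 - bq| < ρ) ∧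
      (gl f w.1 w.2.1 (X w) = w.2.2 ∧ DifferentiableAt ℝ X w ∧
        fderiv ℝ X w (1, 0, 0) = X w * fderiv ℝ X w (0, 1, 0)) ∧
      (gl f w.1 w.2.1 (Y w) = w.2.2 ∧ DifferentiableAt ℝ Y w ∧
        fderiv ℝ Y w (1, 0, 0) = Y w * fderiv ℝ Y w (0, 1, 0)) ∧
      (|X w - q.1| < 2 * η ∧ |Y w - q.1| < 2 * η) ∧
      (0 < glx f w.1 w.2.1 (X w) ∧ glx f w.1 w.2.1 (Y w) < 0) := by
    have a1 : ∀ᶠ w in 𝓝 ((m₁, b₁, f q) : ℝ × ℝ × ℝ), |w.1 - mq| < ρ := by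
      have : ContinuousAt (fun w : ℝ × ℝ × ℝ => |w.1 - mq|) (m₁, b₁, f q) := by fun_prop
      exact this.eventually_lt_const hm₁
    have a2 : ∀ᶠ w in 𝓝 ((m₁, b₁, f q) : ℝ × ℝ × ℝ), |w.2.1 - bq| < ρ := by
      have : ContinuousAt (fun w : ℝ × ℝ × ℝ => |w.2.1 - bq|) (m₁, b₁, f q) := by fun_prop
      exact this.eventually_lt_const hb₁
    have a3 : ∀ᶠ w in 𝓝 ((m₁, b₁, f q) : ℝ × ℝ × ℝ), |X w - q.1| < 2 * η := by
      have : ContinuousAt (fun w : ℝ × ℝ × ℝ => |X w - q.1|) (m₁, b₁, f q) := by fun_prop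
      refine this.eventually_lt_const ?_
      show |X (m₁, b₁, f q) - q.1| < 2 * η
      rw [hX0, sub_self, abs_zero]
      positivity
    have a4 : ∀ᶠ w in 𝓝 ((m₁, b₁, f q) : ℝ × ℝ × ℝ), |Y w - q.1| < 2 * η := by
      have : ContinuousAt (fun w : ℝ × ℝ × ℝ => |Y w - q.1|) (m₁, b₁, f q) := by fun_prop
      refine this.eventually_lt_const ?_
      show |Y (m₁, b₁, f q) - q.1| < 2 * η
      rw [hY0]
      linarith
    have a5 := (continuousAt_glx_root hU hf hX0 hXc (by rw [hqm]; exact hq)).eventually_const_lt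
      (show 0 < glx f m₁ b₁ (X (m₁, b₁, f q)) by rw [hX0]; exact hgx)
    have a6 := (continuousAt_glx_root hU hf hY0 hYc hx'U).eventually_lt_const
      (show glx f m₁ b₁ (Y (m₁, b₁, f q)) < 0 by rw [hY0]; exact hx'n)
    filter_upwards [a1, a2, a3, a4, a5, a6, hXev, hYev] with w b1 b2 b3 b4 b5 b6 b7 b8
    exact ⟨⟨b1, b2⟩, b7, b8, ⟨b3, b4⟩, b5, b6⟩
  obtain ⟨r, hr, hball⟩ := Metric.eventually_nhds_iff_ball.1 hgood
  set I : Set ℝ := Ioo (m₁ - r) (m₁ + r) with hI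
  have hIm : ∀ m ∈ I, |m - m₁| < r := fun m hm => by rw [abs_lt]; constructor <;> linarith [hm.1, hm.2]
  have hJm : ∀ b ∈ Ioo (b₁ - r) (b₁ + r), |b - b₁| < r := fun m hm => by
    rw [abs_lt]; constructor <;> linarith [hm.1, hm.2]
  have good := fun m (hm : m ∈ I) b (hb : b ∈ Ioo (b₁ - r) (b₁ + r)) c (hc : |c - f q| < r) =>
    hball (m, b, c) (prod_ball (hIm m hm) (hJm b hb) hc)
  -- the line `(m, b)`
  have habs : ∀ x ∈ Ioo (q.1 - ρ) (q.1 + ρ), |x - q.1| < ρ := fun x hx => by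
    rw [abs_lt]; constructor <;> linarith [hx.1, hx.2]
  have hline : ∀ m ∈ I, ∀ b ∈ Ioo (b₁ - r) (b₁ + r), ∃ x₀ a : ℝ,
      ∀ c, |c - f q| < r → Y (m, b, c) < x₀ ∧ x₀ < X (m, b, c) ∧
        (1 - a * x₀) * (X (m, b, c) + Y (m, b, c)) + a * (X (m, b, c) * Y (m, b, c)) =
          2 * x₀ - a * x₀ ^ 2 := by
    intro m hm b hb
    have hfq : |f q - f q| < r := by rw [sub_self, abs_zero]; exact hr
    obtain ⟨⟨k1, k2⟩, k3, k4, ⟨k5, k6⟩, k7, k8⟩ := good m hm b hb (f q) hfq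
    simp only at k1 k2 k3 k4 k5 k6 k7 k8
    have hin : ∀ x ∈ Ioo (q.1 - ρ) (q.1 + ρ), (x, m * x + b) ∈ U := fun x hx =>
      (hbox' m b x k1 k2 (habs x hx)).1
    have hpos : ∀ x ∈ Ioo (q.1 - ρ) (q.1 + ρ), 0 < glxx f m b x := fun x hx =>
      (hbox' m b x k1 k2 (habs x hx)).2.2
    have hmono := glx_mono hU hf hin hpos
    have hsub : ∀ x, |x - q.1| < 2 * η → x ∈ Ioo (q.1 - ρ) (q.1 + ρ) := by
      intro x hx
      rw [abs_lt] at hx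
      constructor <;> linarith
    have hYX : Y (m, b, f q) < X (m, b, f q) := by
      rw [← hmono.lt_iff_lt (hsub _ k6) (hsub _ k5)]
      exact k8.trans k7
    obtain ⟨x₀, hx₀, hx₀'⟩ : ∃ x₀ ∈ Icc (Y (m, b, f q)) (X (m, b, f q)), glx f m b x₀ = 0 := by
      have hc : ContinuousOn (fun x => glx f m b x) (Icc (Y (m, b, f q)) (X (m, b, f q))) := by
        intro x hx
        have hx' : x ∈ Ioo (q.1 - ρ) (q.1 + ρ) :=
          ⟨lt_of_lt_of_le (hsub _ k6).1 hx.1, lt_of_le_of_lt hx.2 (hsub _ k5).2⟩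
        exact (hasDerivAt_glx hU hf (hin x hx')).continuousAt.continuousWithinAt
      obtain ⟨x₀, h3, h4⟩ := intermediate_value_Icc hYX.le hc
        (show (0 : ℝ) ∈ Icc (glx f m b (Y (m, b, f q))) (glx f m b (X (m, b, f q))) from
          ⟨k8.le, k7.le⟩)
      exact ⟨x₀, h3, h4⟩
    have hx₀η : |x₀ - q.1| < 2 * η := by
      rw [abs_lt] at k5 k6 ⊢
      constructor <;> linarith [hx₀.1, hx₀.2]
    obtain ⟨a, ha⟩ := invol hU hf hε (m := m) (b := b)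
      (fun x hx => ⟨(hbox' m b x k1 k2 (habs x hx)).1, (hbox' m b x k1 k2 (habs x hx)).2.1⟩)
      hpos hηρ hηε hη0 hLU hx₀η hx₀'
    refine ⟨x₀, a, fun c hc => ?_⟩
    obtain ⟨-, l3, l4, ⟨l5, l6⟩, l7, l8⟩ := good m hm b hb c hc
    simp only at l3 l4 l5 l6 l7 l8
    have hY' : Y (m, b, c) < x₀ := by
      rw [← hmono.lt_iff_lt (hsub _ l6) (hsub _ hx₀η)]
      rw [hx₀']
      exact l8
    have hX' : x₀ < X (m, b, c) := by
      rw [← hmono.lt_iff_lt (hsub _ hx₀η) (hsub _ l5)]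
      rw [hx₀']
      exact l7
    exact ⟨hY', hX', ha _ _ l5 l6 hY' hX' (by rw [l3.1, l4.1])⟩
  -- pairs
  have hpair : ∀ c, |c - f q| < r → Pair I (Ioo (b₁ - r) (b₁ + r))
      (fun m b => X (m, b, c) + Y (m, b, c)) (fun m b => X (m, b, c) * Y (m, b, c))
      (fun m b => fderiv ℝ X (m, b, c) (1, 0, 0) + fderiv ℝ Y (m, b, c) (1, 0, 0))
      (fun m b => fderiv ℝ X (m, b, c) (0, 1, 0) + fderiv ℝ Y (m, b, c) (0, 1, 0))
      (fun m b => fderiv ℝ X (m, b, c) (1, 0, 0) * Y (m, b, c) +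
        X (m, b, c) * fderiv ℝ Y (m, b, c) (1, 0, 0))
      (fun m b => fderiv ℝ X (m, b, c) (0, 1, 0) * Y (m, b, c) +
        X (m, b, c) * fderiv ℝ Y (m, b, c) (0, 1, 0)) := by
    intro c hc
    exact pair_of_roots (fun m hm b hb => (good m hm b hb c hc).2.1.2)
      (fun m hm b hb => (good m hm b hb c hc).2.2.1.2)
  have hdist : ∀ c c', |c - f q| < r → |c' - f q| < r → c ≠ c' → ∀ m ∈ I,
      ∀ b ∈ Ioo (b₁ - r) (b₁ + r), X (m, b, c) ≠ X (m, b, c') ∧ Y (m, b, c) ≠ Y (m, b, c') ∧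
        Y (m, b, c) < X (m, b, c') := by
    intro c c' hc hc' hcc m hm b hb
    obtain ⟨x₀, a, h3⟩ := hline m hm b hb
    refine ⟨fun h => hcc ?_, fun h => hcc ?_, (h3 c hc).1.trans (h3 c' hc').2.1⟩
    · have e1 := (good m hm b hb c hc).2.1.1
      have e2 := (good m hm b hb c' hc').2.1.1
      simp only at e1 e2
      rw [← e1, ← e2, h]
    · have e1 := (good m hm b hb c hc).2.2.1.1
      have e2 := (good m hm b hb c' hc').2.2.1.1
      simp only at e1 e2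
      rw [← e1, ← e2, h]
  -- resultants
  have hres : ∀ c c', |c - f q| < r → |c' - f q| < r → c ≠ c' → ∀ m ∈ I,
      ∀ b ∈ Ioo (b₁ - r) (b₁ + r),
      (X (m, b, c) * Y (m, b, c) - X (m, b, c') * Y (m, b, c')) ^ 2 -
      (X (m, b, c') + Y (m, b, c')) * (X (m, b, c) + Y (m, b, c) - (X (m, b, c') + Y (m, b, c'))) *
        (X (m, b, c) * Y (m, b, c) - X (m, b, c') * Y (m, b, c')) +
      X (m, b, c') * Y (m, b, c') *
        (X (m, b, c) + Y (m, b, c) - (X (m, b, c') + Y (m, b, c'))) ^ 2 ≠ 0 := by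
    intro c c' hc hc' hcc m hm b hb
    obtain ⟨d1, d2, d3⟩ := hdist c c' hc hc' hcc m hm b hb
    obtain ⟨-, -, d4⟩ := hdist c' c hc' hc (Ne.symm hcc) m hm b hb
    have e : (X (m, b, c) * Y (m, b, c) - X (m, b, c') * Y (m, b, c')) ^ 2 -
      (X (m, b, c') + Y (m, b, c')) * (X (m, b, c) + Y (m, b, c) - (X (m, b, c') + Y (m, b, c'))) *
        (X (m, b, c) * Y (m, b, c) - X (m, b, c') * Y (m, b, c')) +
      X (m, b, c') * Y (m, b, c') *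
        (X (m, b, c) + Y (m, b, c) - (X (m, b, c') + Y (m, b, c'))) ^ 2 =
      (X (m, b, c) - X (m, b, c')) * (X (m, b, c) - Y (m, b, c')) *
        ((Y (m, b, c) - X (m, b, c')) * (Y (m, b, c) - Y (m, b, c'))) := by ring
    rw [e]
    exact mul_ne_zero (mul_ne_zero (sub_ne_zero.2 d1) (sub_ne_zero.2 d4.ne'))
      (mul_ne_zero (sub_ne_zero.2 d3.ne) (sub_ne_zero.2 d2))
  have hcol : ∀ c₁ c₂ c₃, |c₁ - f q| < r → |c₂ - f q| < r → |c₃ - f q| < r → ∀ m ∈ I,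
      ∀ b ∈ Ioo (b₁ - r) (b₁ + r),
      (X (m, b, c₃) + Y (m, b, c₃) - (X (m, b, c₂) + Y (m, b, c₂))) *
        (X (m, b, c₁) * Y (m, b, c₁) - X (m, b, c₂) * Y (m, b, c₂)) =
      (X (m, b, c₃) * Y (m, b, c₃) - X (m, b, c₂) * Y (m, b, c₂)) *
        (X (m, b, c₁) + Y (m, b, c₁) - (X (m, b, c₂) + Y (m, b, c₂))) := by
    intro c₁ c₂ c₃ hc₁ hc₂ hc₃ m hm b hb
    obtain ⟨x₀, a, h3⟩ := hline m hm b hb
    have e1 := (h3 c₁ hc₁).2.2
    have e2 := (h3 c₂ hc₂).2.2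
    have e3 := (h3 c₃ hc₃).2.2
    by_cases ha : a = 0
    · rw [ha] at e1 e2 e3
      have t1 : X (m, b, c₃) + Y (m, b, c₃) = X (m, b, c₂) + Y (m, b, c₂) := by linarith
      have t2 : X (m, b, c₁) + Y (m, b, c₁) = X (m, b, c₂) + Y (m, b, c₂) := by linarith
      rw [t1, t2]; ring
    · apply mul_left_cancel₀ ha
      linear_combination (X (m, b, c₃) + Y (m, b, c₃) - (X (m, b, c₂) + Y (m, b, c₂))) * (e1 - e2) -
        (X (m, b, c₁) + Y (m, b, c₁) - (X (m, b, c₂) + Y (m, b, c₂))) * (e3 - e2)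
  have hneq : ∀ c c', |c - f q| < r → |c' - f q| < r → c ≠ c' → ∀ m ∈ I,
      ∀ b ∈ Ioo (b₁ - r) (b₁ + r), ¬ (X (m, b, c) + Y (m, b, c) = X (m, b, c') + Y (m, b, c') ∧
        X (m, b, c) * Y (m, b, c) = X (m, b, c') * Y (m, b, c')) := by
    rintro c c' hc hc' hcc m hm b hb ⟨h3, h4⟩
    obtain ⟨d1, d2, d3⟩ := hdist c c' hc hc' hcc m hm b hb
    obtain ⟨-, -, d4⟩ := hdist c' c hc' hc (Ne.symm hcc) m hm b hb
    have : (X (m, b, c) - X (m, b, c')) * (X (m, b, c) - Y (m, b, c')) = 0 := by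
      linear_combination X (m, b, c) * h3 - h4
    rcases mul_eq_zero.1 this with h | h
    · exact d1 (sub_eq_zero.1 h)
    · exact d4.ne' (sub_eq_zero.1 h)
  -- the core
  set ca := f q - r / 2 with hca
  set cb := f q + r / 2 with hcb
  have hca' : |ca - f q| < r := by rw [hca, abs_lt]; constructor <;> linarith
  have hcb' : |cb - f q| < r := by rw [hcb, abs_lt]; constructor <;> linarith
  have hfq' : |f q - f q| < r := by rw [sub_self, abs_zero]; exact hr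
  have hm₁I : m₁ ∈ I := ⟨by linarith, by linarith⟩
  have huv : b₁ - r < b₁ + r := by linarith
  have hcore := fun c₁ c₂ c₃ (h₁ : |c₁ - f q| < r) (h₂ : |c₂ - f q| < r) (h₃ : |c₃ - f q| < r)
    (h12 : c₁ ≠ c₂) (h31 : c₃ ≠ c₁) (h32 : c₃ ≠ c₂) =>
    core (I := I) isOpen_Ioo huv (hpair c₁ h₁) (hpair c₂ h₂) (hpair c₃ h₃)
      (hres c₁ c₂ h₁ h₂ h12) (hcol c₁ c₂ c₃ h₁ h₂ h₃) (hneq c₃ c₁ h₃ h₁ h31)
      (hneq c₃ c₂ h₃ h₂ h32) m₁ hm₁I
  obtain ⟨⟨sa, pa, hsa, hpa, hab⟩, -⟩ := hcore ca cb (f q) hca' hcb' hfq' (by linarith)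
    (by linarith) (by linarith)
  obtain ⟨⟨sb, pb, hsb, hpb, hbb⟩, -⟩ := hcore cb ca (f q) hcb' hca' hfq' (by linarith)
    (by linarith) (by linarith)
  set A := con m₁ (sa.coeff 0) (sa.coeff 1) (pa.coeff 0) (pa.coeff 1) (pa.coeff 2) with hA
  set B := con m₁ (sb.coeff 0) (sb.coeff 1) (pb.coeff 0) (pb.coeff 1) (pb.coeff 2) with hB
  -- the neighbourhood of `q`
  have hfin : ∀ᶠ p in 𝓝 q, |f p - f q| < r / 2 ∧ (p.2 - m₁ * p.1) ∈ Ioo (b₁ - r) (b₁ + r) ∧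
      X (m₁, p.2 - m₁ * p.1, f p) = p.1 := by
    have cf : ContinuousAt f q := (diff_f hU hf hq).continuousAt
    have a1 : ∀ᶠ p in 𝓝 q, |f p - f q| < r / 2 := by
      have : ContinuousAt (fun p => |f p - f q|) q := by fun_prop
      refine this.eventually_lt_const ?_
      show |f q - f q| < r / 2
      rw [sub_self, abs_zero]; positivity
    have a2 : ∀ᶠ p in 𝓝 q, (p.2 - m₁ * p.1) ∈ Ioo (b₁ - r) (b₁ + r) := by
      have : ContinuousAt (fun p : ℝ × ℝ => p.2 - m₁ * p.1) q := by fun_prop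
      exact this.eventually_mem (isOpen_Ioo.mem_nhds ⟨by linarith, by linarith⟩)
    have a3 : ∀ᶠ p in 𝓝 q, gl f m₁ (p.2 - m₁ * p.1) p.1 = f p →
        X (m₁, p.2 - m₁ * p.1, f p) = p.1 := by
      have : ContinuousAt (fun p : ℝ × ℝ =>
          (((m₁, p.2 - m₁ * p.1, f p), p.1) : (ℝ × ℝ × ℝ) × ℝ)) q := by fun_prop
      exact this.eventually hXu
    filter_upwards [a1, a2, a3] with p k1 k2 k3
    refine ⟨k1, k2, k3 ?_⟩
    unfold gl
    congr 1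
    ext <;> simp
  obtain ⟨δ, hδ, hδb⟩ := Metric.eventually_nhds_iff_ball.1 hfin
  refine ⟨δ, hδ, A, B, fun p hp => ?_⟩
  obtain ⟨k1, -, -⟩ := hδb p hp
  have hc : |f p - f q| < r := by linarith
  have hpa' : f p ≠ ca := by
    intro h
    rw [h, hca, abs_lt] at k1
    linarith [k1.1]
  have hpb' : f p ≠ cb := by
    intro h
    rw [h, hcb, abs_lt] at k1
    linarith [k1.2]
  obtain ⟨-, l, hl⟩ := hcore ca cb (f p) hca' hcb' hc (by linarith) hpa' hpb'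
  refine ⟨l • A + (1 - l) • B, ?_, ?_, fun p' hp' hpp' => ?_⟩
  · exact Submodule.add_mem _ (Submodule.smul_mem _ _ (Submodule.subset_span (by simp)))
      (Submodule.smul_mem _ _ (Submodule.subset_span (by simp)))
  · intro h0
    have e0 := congrFun h0 3
    have e1 := congrFun h0 4
    have e2 := congrFun h0 5
    simp only [Pi.add_apply, Pi.smul_apply, smul_eq_mul, Pi.zero_apply] at e0 e1 e2
    have t1 : A 3 + m₁ * A 4 + m₁ ^ 2 * A 5 = 1 := lead_con _ _ _ _ _ _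
    have t2 : B 3 + m₁ * B 4 + m₁ ^ 2 * B 5 = 1 := lead_con _ _ _ _ _ _
    have : (1 : ℝ) = 0 := by
      linear_combination e0 + m₁ * e1 + m₁ ^ 2 * e2 - l * t1 - (1 - l) * t2
    exact one_ne_zero this
  · obtain ⟨j1, j2, j3⟩ := hδb p' hp'
    rw [hpp'] at j3
    set b := p'.2 - m₁ * p'.1 with hb
    have ep : p' = (p'.1, m₁ * p'.1 + b) := by ext <;> simp [hb]
    rw [ev_add, ev_smul, ev_smul, ep, hA, hB, ev_con, ev_con]
    have e1 := hab b j2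
    have e2 := hbb b j2
    have e3 := hl b j2
    rw [eval_deg_one sa hsa, eval_deg_two pa hpa] at e1
    rw [eval_deg_one sb hsb, eval_deg_two pb hpb] at e2
    rw [j3] at e3
    rw [e1.1, e1.2, e2.1, e2.2] at e3
    linear_combination p'.1 * e3.1 - e3.2

end

end Pool.Agent.V5helper21.HD
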