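import Pool.Agent.V5helper21.HD.Chart
import Pool.Agent.V5helper21.HD.Loc2

set_option autoImplicit false

/-!
# The hypotheses, exchange of the coordinates
-/

namespace Pool.Agent.V5helper21.HD

open Set Filter Topology
open scoped ContDiff

/-- the local hypotheses on the open annulus -/
structure Hyp (f : ℝ × ℝ → ℝ) (U : Set (ℝ × ℝ)) : Prop where
  opn : IsOpen U
  smooth : ContDiffOn ℝ ∞ f U
  cont : Continuous f
  ne : ∀ p ∈ U, fderiv ℝ f p ≠ 0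
  inv : ∀ p ∈ U, ∀ v : ℝ × ℝ, v ≠ 0 → fderiv ℝ f p v = 0 → ∃ c : ℝ, ∀ᶠ s in 𝓝 (0 : ℝ),
    f (p + s • v) = f (p - (s / (1 + c * s)) • v)
  cv : ∀ p ∈ U, ∀ v : ℝ × ℝ, fderiv ℝ f p v = 0 → 0 ≤ fderiv ℝ (fderiv ℝ f) p v v

/-- a point where the leaf is curved -/
def Cur (f : ℝ × ℝ → ℝ) (p : ℝ × ℝ) : Prop :=
  ∀ v : ℝ × ℝ, v ≠ 0 → fderiv ℝ f p v = 0 → 0 < fderiv ℝ (fderiv ℝ f) p v v

/-- exchange of the coordinates -/
def swp (f : ℝ × ℝ → ℝ) : ℝ × ℝ → ℝ := fun p => f (p.2, p.1)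

lemma swp_swp (f : ℝ × ℝ → ℝ) : swp (swp f) = f := rfl

lemma hasDeriv_sw (p : ℝ × ℝ) : HasFDerivAt (fun p : ℝ × ℝ => ((p.2, p.1) : ℝ × ℝ))
    ((ContinuousLinearEquiv.prodComm ℝ ℝ ℝ : (ℝ × ℝ) ≃L[ℝ] (ℝ × ℝ)) : (ℝ × ℝ) →L[ℝ] (ℝ × ℝ)) p :=
  (ContinuousLinearEquiv.prodComm ℝ ℝ ℝ).hasFDerivAt

section
variable {f : ℝ × ℝ → ℝ} {U : Set (ℝ × ℝ)}

lemma fderiv_swp (f : ℝ × ℝ → ℝ) (p v : ℝ × ℝ) :
    fderiv ℝ (swp f) p v = fderiv ℝ f (p.2, p.1) (v.2, v.1) := by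
  have h := (ContinuousLinearEquiv.prodComm ℝ ℝ ℝ).comp_right_fderiv (f := f) (x := p)
  have e : (f ∘ (ContinuousLinearEquiv.prodComm ℝ ℝ ℝ)) = swp f := rfl
  rw [e] at h
  rw [h]
  rfl

lemma fderiv2_swp (hU : IsOpen U) (hf : ContDiffOn ℝ ∞ f U) {p : ℝ × ℝ} (hp : (p.2, p.1) ∈ U)
    (v w : ℝ × ℝ) : fderiv ℝ (fderiv ℝ (swp f)) p v w =
      fderiv ℝ (fderiv ℝ f) (p.2, p.1) (v.2, v.1) (w.2, w.1) := by
  have hUs : IsOpen ((fun p : ℝ × ℝ => ((p.2, p.1) : ℝ × ℝ)) ⁻¹' U) :=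
    hU.preimage (by fun_prop)
  have hfs : ContDiffOn ℝ ∞ (swp f) ((fun p : ℝ × ℝ => ((p.2, p.1) : ℝ × ℝ)) ⁻¹' U) := by
    refine hf.comp (f := fun p : ℝ × ℝ => ((p.2, p.1) : ℝ × ℝ)) ?_ (fun x hx => hx)
    exact (contDiff_snd.prodMk contDiff_fst).contDiffOn
  have h1 := (diff_fderiv hUs hfs (p := p) hp).hasFDerivAt
  have h2 : HasFDerivAt (fun x => fderiv ℝ (swp f) x w)
      ((fderiv ℝ (fderiv ℝ (swp f)) p).flip w) p := by
    have := h1.clm_apply (hasFDerivAt_const w p)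
    simpa using this
  have h3 := (diff_fderiv hU hf (p := (p.2, p.1)) hp).hasFDerivAt
  have h4 : HasFDerivAt (fun x => fderiv ℝ f x (w.2, w.1))
      ((fderiv ℝ (fderiv ℝ f) (p.2, p.1)).flip (w.2, w.1)) (p.2, p.1) := by
    have := h3.clm_apply (hasFDerivAt_const ((w.2, w.1) : ℝ × ℝ) (p.2, p.1))
    simpa using this
  have h5 := h4.comp p (hasDeriv_sw p)
  have e : (fun x => fderiv ℝ (swp f) x w) = (fun x => fderiv ℝ f x (w.2, w.1)) ∘
      (fun p : ℝ × ℝ => ((p.2, p.1) : ℝ × ℝ)) := by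
    ext x
    exact fderiv_swp f x w
  rw [e] at h2
  have h6 := h2.unique h5
  have h7 := congrArg (fun L : (ℝ × ℝ) →L[ℝ] ℝ => L v) h6
  exact h7

lemma Hyp.swp (H : Hyp f U) : Hyp (swp f) ((fun p : ℝ × ℝ => ((p.2, p.1) : ℝ × ℝ)) ⁻¹' U) where
  opn := H.opn.preimage (by fun_prop)
  smooth := by
    refine H.smooth.comp (f := fun p : ℝ × ℝ => ((p.2, p.1) : ℝ × ℝ)) ?_ (fun x hx => hx)
    exact (contDiff_snd.prodMk contDiff_fst).contDiffOn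
  cont := H.cont.comp (by fun_prop)
  ne := by
    intro p hp h0
    refine H.ne _ hp ?_
    refine ContinuousLinearMap.ext fun v => ?_
    have := fderiv_swp f p (v.2, v.1)
    rw [h0] at this
    exact this.symm
  inv := by
    intro p hp v hv h0
    have hv' : ((v.2, v.1) : ℝ × ℝ) ≠ 0 := by
      intro h
      apply hv
      have e1 := congrArg Prod.fst h
      have e2 := congrArg Prod.snd h
      exact Prod.ext e2 e1
    rw [fderiv_swp] at h0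
    exact H.inv _ hp _ hv' h0
  cv := by
    intro p hp v h0
    rw [fderiv_swp] at h0
    rw [fderiv2_swp H.opn H.smooth hp]
    exact H.cv _ hp _ h0

lemma Cur.swp (H : Hyp f U) {p : ℝ × ℝ} (hp : p ∈ U) (h : Cur f p) :
    Cur (swp f) (p.2, p.1) := by
  intro v hv h0
  have hv' : ((v.2, v.1) : ℝ × ℝ) ≠ 0 := by
    intro h
    apply hv
    have e1 := congrArg Prod.fst h
    have e2 := congrArg Prod.snd h
    exact Prod.ext e2 e1
  rw [fderiv_swp] at h0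
  rw [fderiv2_swp H.opn H.smooth (p := (p.2, p.1)) hp]
  exact h _ hv' h0

/-- the slope of the leaf -/
noncomputable def sl (f : ℝ × ℝ → ℝ) (p : ℝ × ℝ) : ℝ := -(fderiv ℝ f p (1, 0) / fderiv ℝ f p (0, 1))

lemma lin_pair (D : (ℝ × ℝ) →L[ℝ] ℝ) (a b : ℝ) : D (a, b) = a * D (1, 0) + b * D (0, 1) := by
  have : ((a, b) : ℝ × ℝ) = a • (1, 0) + b • (0, 1) := by ext <;> simp
  rw [this, map_add, map_smul, map_smul, smul_eq_mul, smul_eq_mul]

lemma fderiv_sl {p : ℝ × ℝ} (hσ : fderiv ℝ f p (0, 1) ≠ 0) : fderiv ℝ f p (1, sl f p) = 0 := by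
  rw [lin_pair, sl]
  field_simp
  ring

lemma eq_sl {p : ℝ × ℝ} (hσ : fderiv ℝ f p (0, 1) ≠ 0) {m : ℝ} (h : fderiv ℝ f p (1, m) = 0) :
    m = sl f p := by
  rw [lin_pair] at h
  rw [sl]
  field_simp
  linarith

lemma tangent_eq {p : ℝ × ℝ} (hσ : fderiv ℝ f p (0, 1) ≠ 0) {v : ℝ × ℝ} (h : fderiv ℝ f p v = 0) :
    v = v.1 • (1, sl f p) := by
  have h1 : fderiv ℝ f p v = v.1 * fderiv ℝ f p (1, 0) + v.2 * fderiv ℝ f p (0, 1) :=
    lin_pair _ v.1 v.2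
  rw [h1] at h
  ext
  · simp
  · simp only [Prod.smul_snd, smul_eq_mul, sl]
    field_simp
    linarith

lemma cur_iff {p : ℝ × ℝ} (hσ : fderiv ℝ f p (0, 1) ≠ 0) :
    Cur f p ↔ 0 < fderiv ℝ (fderiv ℝ f) p (1, sl f p) (1, sl f p) := by
  constructor
  · intro h
    exact h _ (fun h => by simpa using congrArg Prod.fst h) (fderiv_sl hσ)
  · intro h v hv h0
    have e := tangent_eq hσ h0
    have hv1 : v.1 ≠ 0 := by
      intro h1
      apply hv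
      rw [e, h1, zero_smul]
    rw [e, map_smul, map_smul]
    simp only [smul_apply, smul_eq_mul]
    have : 0 < v.1 * v.1 := mul_self_pos.2 hv1
    nlinarith

lemma contAt_sl (H : Hyp f U) {p : ℝ × ℝ} (hp : p ∈ U) (hσ : fderiv ℝ f p (0, 1) ≠ 0) :
    ContinuousAt (sl f) p := by
  have h := (diff_fderiv H.opn H.smooth hp).continuousAt
  unfold sl
  exact ((h.clm_apply continuousAt_const).div (h.clm_apply continuousAt_const) hσ).neg

/-- near a curved point -/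
lemma ev_good (H : Hyp f U) {p : ℝ × ℝ} (hp : p ∈ U) (hσ : fderiv ℝ f p (0, 1) ≠ 0)
    (hc : Cur f p) : ∀ᶠ q in 𝓝 p, q ∈ U ∧ fderiv ℝ f q (0, 1) ≠ 0 ∧ Cur f q := by
  have h := (diff_fderiv H.opn H.smooth hp).continuousAt
  have h2 : ContinuousAt (fderiv ℝ (fderiv ℝ f)) p := by
    have h := (contDiffOn_fderiv H.opn H.smooth).fderiv_of_isOpen H.opn (m := ∞) (by simp)
    exact (h.contDiffAt (H.opn.mem_nhds hp)).continuousAt
  have hsl := contAt_sl H hp hσ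
  have h3 : ContinuousAt (fun q => fderiv ℝ (fderiv ℝ f) q (1, sl f q) (1, sl f q)) p :=
    (h2.clm_apply (continuousAt_const.prodMk hsl)).clm_apply (continuousAt_const.prodMk hsl)
  have h4 : ContinuousAt (fun q => fderiv ℝ f q (0, 1)) p := h.clm_apply continuousAt_const
  filter_upwards [H.opn.mem_nhds hp, h4.eventually_ne hσ,
    h3.eventually_const_lt ((cur_iff hσ).1 hc)] with q q1 q2 q3
  exact ⟨q1, q2, (cur_iff q2).2 q3⟩

/-- either the leaf or the exchanged leaf is a graph -/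
lemma fy_or (H : Hyp f U) {p : ℝ × ℝ} (hp : p ∈ U) :
    fderiv ℝ f p (0, 1) ≠ 0 ∨ fderiv ℝ (swp f) (p.2, p.1) (0, 1) ≠ 0 := by
  by_contra h
  push Not at h
  obtain ⟨h1, h2⟩ := h
  rw [fderiv_swp] at h2
  apply H.ne p hp
  refine ContinuousLinearMap.ext fun v => ?_
  have h3 : fderiv ℝ f p v = v.1 * fderiv ℝ f p (1, 0) + v.2 * fderiv ℝ f p (0, 1) :=
    lin_pair _ v.1 v.2
  rw [h3, h1]
  have h4 : fderiv ℝ f p (1, 0) = 0 := h2
  rw [h4]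
  simp

end

end Pool.Agent.V5helper21.HD
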