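import Pool.Agent.V5helper21.HD.Root

set_option autoImplicit false

/-!
# The local theorem: near a point where all tangent involutions are projective, uniformly, the
leaves lie on conics of a pencil
-/

namespace Pool.Agent.V5helper21.HD

open Set Filter Topology Polynomial
open scoped ContDiff

/-- the quadratic polynomial with the coefficient vector `k` -/
def ev (k : Fin 6 → ℝ) (p : ℝ × ℝ) : ℝ :=
  k 0 + k 1 * p.1 + k 2 * p.2 + k 3 * p.1 ^ 2 + k 4 * (p.1 * p.2) + k 5 * p.2 ^ 2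

lemma ev_add (k k' : Fin 6 → ℝ) (p : ℝ × ℝ) : ev (k + k') p = ev k p + ev k' p := by
  simp only [ev, Pi.add_apply]; ring

lemma ev_smul (a : ℝ) (k : Fin 6 → ℝ) (p : ℝ × ℝ) : ev (a • k) p = a * ev k p := by
  simp only [ev, Pi.smul_apply, smul_eq_mul]; ring

/-- near `q` the leaves of `f` lie on conics of a pencil -/
def LocPencil (f : ℝ × ℝ → ℝ) (q : ℝ × ℝ) : Prop :=
  ∃ δ : ℝ, 0 < δ ∧ ∃ A B : Fin 6 → ℝ, ∀ p ∈ Metric.ball q δ, ∃ k ∈ Submodule.span ℝ {A, B}, k ≠ 0 ∧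
    ∀ p' ∈ Metric.ball q δ, f p' = f p → ev k p' = 0

/-- the conic of a leaf -/
def con (m s0 s1 p0 p1 p2 : ℝ) : Fin 6 → ℝ :=
  ![p0, -s0 - p1 * m, p1, 1 + s1 * m + p2 * m ^ 2, -s1 - 2 * p2 * m, p2]

lemma ev_con (m s0 s1 p0 p1 p2 x b : ℝ) : ev (con m s0 s1 p0 p1 p2) (x, m * x + b) =
    x ^ 2 - (s0 + s1 * b) * x + (p0 + p1 * b + p2 * b ^ 2) := by
  simp only [ev, con]
  simp
  ring

lemma lead_con (m s0 s1 p0 p1 p2 : ℝ) : con m s0 s1 p0 p1 p2 3 + m * con m s0 s1 p0 p1 p2 4 +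
    m ^ 2 * con m s0 s1 p0 p1 p2 5 = 1 := by
  simp only [con]
  simp
  ring

lemma eval_deg_one (s : ℝ[X]) (h : s.natDegree ≤ 1) (b : ℝ) :
    s.eval b = s.coeff 0 + s.coeff 1 * b := by
  rw [eval_eq_sum_range' (Nat.lt_succ_of_le h)]
  simp [Finset.sum_range_succ]

lemma eval_deg_two (s : ℝ[X]) (h : s.natDegree ≤ 2) (b : ℝ) :
    s.eval b = s.coeff 0 + s.coeff 1 * b + s.coeff 2 * b ^ 2 := by
  rw [eval_eq_sum_range' (Nat.lt_succ_of_le h)]
  simp [Finset.sum_range_succ]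

section
variable {f : ℝ × ℝ → ℝ} {U : Set (ℝ × ℝ)} (hU : IsOpen U) (hf : ContDiffOn ℝ ∞ f U)
include hU hf

/-- Convexity on a line. -/
lemma glx_mono {m b u v : ℝ} (hin : ∀ x ∈ Ioo u v, (x, m * x + b) ∈ U)
    (hpos : ∀ x ∈ Ioo u v, 0 < glxx f m b x) : StrictMonoOn (fun x => glx f m b x) (Ioo u v) := by
  refine strictMonoOn_of_deriv_pos (convex_Ioo u v) ?_ ?_
  · intro x hx
    exact (hasDerivAt_glx hU hf (hin x hx)).continuousAt.continuousWithinAt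
  · intro x hx
    rw [interior_Ioo] at hx
    rw [(hasDerivAt_glx hU hf (hin x hx)).deriv]
    exact hpos x hx

lemma gl_anti {m b u v x₀ : ℝ} (hin : ∀ x ∈ Ioo u v, (x, m * x + b) ∈ U)
    (hpos : ∀ x ∈ Ioo u v, 0 < glxx f m b x) (hx₀ : x₀ ∈ Ioo u v) (h0 : glx f m b x₀ ≤ 0) :
    StrictAntiOn (fun x => gl f m b x) (Ioc u x₀) := by
  have hsub : Ioc u x₀ ⊆ Ioo u v := fun x hx => ⟨hx.1, lt_of_le_of_lt hx.2 hx₀.2⟩
  refine strictAntiOn_of_deriv_neg (convex_Ioc u x₀) ?_ ?_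
  · intro x hx
    exact (hasDerivAt_gl hU hf (hin x (hsub hx))).continuousAt.continuousWithinAt
  · intro x hx
    rw [interior_Ioc] at hx
    have hx' : x ∈ Ioo u v := hsub ⟨hx.1, hx.2.le⟩
    rw [(hasDerivAt_gl hU hf (hin x hx')).deriv]
    exact lt_of_lt_of_le (glx_mono hU hf hin hpos hx' hx₀ hx.2) h0

lemma gl_mono {m b u v x₀ : ℝ} (hin : ∀ x ∈ Ioo u v, (x, m * x + b) ∈ U)
    (hpos : ∀ x ∈ Ioo u v, 0 < glxx f m b x) (hx₀ : x₀ ∈ Ioo u v) (h0 : 0 ≤ glx f m b x₀) :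
    StrictMonoOn (fun x => gl f m b x) (Ico x₀ v) := by
  have hsub : Ico x₀ v ⊆ Ioo u v := fun x hx => ⟨lt_of_lt_of_le hx₀.1 hx.1, hx.2⟩
  refine strictMonoOn_of_deriv_pos (convex_Ico x₀ v) ?_ ?_
  · intro x hx
    exact (hasDerivAt_gl hU hf (hin x (hsub hx))).continuousAt.continuousWithinAt
  · intro x hx
    rw [interior_Ico] at hx
    have hx' : x ∈ Ioo u v := hsub ⟨hx.1.le, hx.2⟩
    rw [(hasDerivAt_gl hU hf (hin x hx')).deriv]
    exact lt_of_le_of_lt h0 (glx_mono hU hf hin hpos hx₀ hx' hx.1)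

/-- the relation of the two points of a leaf on a line, from the involution -/
lemma invol {q : ℝ × ℝ} {ε ρ η m b x₀ : ℝ} (hε : 0 < ε)
    (hin : ∀ x ∈ Ioo (q.1 - ρ) (q.1 + ρ), (x, m * x + b) ∈ U ∧ (x, m * x + b) ∈ Metric.ball q ε)
    (hpos : ∀ x ∈ Ioo (q.1 - ρ) (q.1 + ρ), 0 < glxx f m b x) (hη : 16 * η ≤ ρ) (hη' : 16 * η ≤ ε)
    (hη0 : 0 < η)
    (hLU : ∀ p ∈ Metric.ball q ε, ∀ m, fderiv ℝ f p (1, m) = 0 → ∃ c : ℝ, |c| ≤ 1 / ε ∧
      ∀ s : ℝ, |s| < ε → f (p + s • (1, m)) = f (p - (s / (1 + c * s)) • (1, m)))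
    (hx₀ : |x₀ - q.1| < 2 * η) (h0 : glx f m b x₀ = 0) :
    ∃ c : ℝ, ∀ X Y : ℝ, |X - q.1| < 2 * η → |Y - q.1| < 2 * η → Y < x₀ → x₀ < X →
      gl f m b X = gl f m b Y →
      (1 - c * x₀) * (X + Y) + c * (X * Y) = 2 * x₀ - c * x₀ ^ 2 := by
  have hx₀' : x₀ ∈ Ioo (q.1 - ρ) (q.1 + ρ) := by
    rw [abs_lt] at hx₀
    constructor <;> linarith
  obtain ⟨c, hc, h⟩ := hLU (x₀, m * x₀ + b) (hin x₀ hx₀').2 m h0
  refine ⟨c, fun X Y hX hY hYx hxX hXY => ?_⟩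
  set s := X - x₀ with hs
  have hs0 : 0 < s := by linarith
  have hs4 : s < 4 * η := by
    rw [abs_lt] at hX hx₀
    linarith [hX.2, hx₀.1]
  have hcs : |c * s| ≤ 1 / 4 := by
    rw [abs_mul, abs_of_pos hs0]
    calc |c| * s ≤ 1 / ε * (ε / 4) := by
          refine mul_le_mul hc (by linarith) hs0.le (by positivity)
      _ = 1 / 4 := by field_simp
  have h1cs : 3 / 4 ≤ 1 + c * s := by
    rw [abs_le] at hcs
    linarith [hcs.1]
  have hpos1 : 0 < 1 + c * s := by linarith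
  set Y' := x₀ - s / (1 + c * s) with hY'
  have hq1 : s / (1 + c * s) ≤ 2 * s := by
    rw [div_le_iff₀ hpos1]
    nlinarith
  have hq2 : 0 < s / (1 + c * s) := by positivity
  have h1 := h s (by rw [abs_of_pos hs0]; linarith)
  have e1 : f ((x₀, m * x₀ + b) + s • ((1, m) : ℝ × ℝ)) = gl f m b X := by
    unfold gl
    congr 1
    ext
    · simp [hs]
    · simp [hs]; ring
  have e2 : f ((x₀, m * x₀ + b) - (s / (1 + c * s)) • ((1, m) : ℝ × ℝ)) = gl f m b Y' := by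
    unfold gl
    congr 1
    ext
    · simp [hY']
    · simp [hY']; ring
  rw [e1, e2, hXY] at h1
  have hanti := gl_anti hU hf (fun x hx => (hin x hx).1) hpos hx₀' h0.le
  have hYm : Y ∈ Ioc (q.1 - ρ) x₀ := by
    rw [abs_lt] at hY
    exact ⟨by linarith [hY.1], hYx.le⟩
  have hY'm : Y' ∈ Ioc (q.1 - ρ) x₀ := by
    rw [abs_lt] at hx₀
    exact ⟨by linarith [hx₀.1], by linarith⟩
  have hYY : Y = Y' := hanti.injOn hYm hY'm h1
  have hYs : (Y - x₀) * (1 + c * s) = -s := by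
    rw [hYY, hY']
    have := div_mul_cancel₀ s hpos1.ne'
    linear_combination -this
  rw [hs] at hYs
  linear_combination hYs

/-- The choice of a line through `q` which is tangent to an inner leaf near `q`. -/
lemma choose_line {q : ℝ × ℝ} {mq ρ η : ℝ} (hη0 : 0 < η) (hη : 16 * η ≤ ρ)
    (hbox : ∀ m b x : ℝ, |m - mq| < ρ → |b - (q.2 - mq * q.1)| < ρ → |x - q.1| < ρ →
      (x, m * x + b) ∈ U ∧ 0 < glxx f m b x)
    (h1 : fderiv ℝ f q (1, mq) = 0) (hσ : fderiv ℝ f q (0, 1) ≠ 0) :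
    ∃ m x' : ℝ, |m - mq| < ρ ∧ |(q.2 - m * q.1) - (q.2 - mq * q.1)| < ρ ∧
      0 < glx f m (q.2 - m * q.1) q.1 ∧ |x' - q.1| < η ∧ x' < q.1 ∧
      gl f m (q.2 - m * q.1) x' = f q ∧ glx f m (q.2 - m * q.1) x' < 0 := by
  have hρ : 0 < ρ := by linarith
  have hqU : q ∈ U := by
    have := (hbox mq (q.2 - mq * q.1) q.1 (by simpa using hρ) (by simpa using hρ)
      (by simpa using hρ)).1
    have e : (q.1, mq * q.1 + (q.2 - mq * q.1)) = q := by ext <;> simp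
    rwa [e] at this
  have hqm : ∀ m : ℝ, (q.1, m * q.1 + (q.2 - m * q.1)) = q := fun m => by ext <;> simp
  have hglq : ∀ m : ℝ, gl f m (q.2 - m * q.1) q.1 = f q := fun m => by
    unfold gl; rw [hqm]
  -- value at the left end for `m = mq`
  have hq1 : q.1 ∈ Ioo (q.1 - ρ) (q.1 + ρ) := ⟨by linarith, by linarith⟩
  have habs : ∀ x ∈ Ioo (q.1 - ρ) (q.1 + ρ), |x - q.1| < ρ := fun x hx => by
    rw [abs_lt]; constructor <;> linarith [hx.1, hx.2]
  have hleft : f q < gl f mq (q.2 - mq * q.1) (q.1 - η) := by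
    have h0 : glx f mq (q.2 - mq * q.1) q.1 = 0 := by
      unfold glx; rw [hqm]; exact h1
    have hanti := gl_anti hU hf (u := q.1 - ρ) (v := q.1 + ρ)
      (fun x hx => (hbox mq (q.2 - mq * q.1) x (by simpa using hρ) (by simpa using hρ)
        (habs x hx)).1)
      (fun x hx => (hbox mq (q.2 - mq * q.1) x (by simpa using hρ) (by simpa using hρ)
        (habs x hx)).2) hq1 h0.le
    have := hanti (a := q.1 - η) (b := q.1) ⟨by linarith, by linarith⟩ ⟨by linarith, le_rfl⟩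
      (by linarith)
    rw [← hglq mq]
    exact this
  -- continuity
  have hmem : (q.1 - η, mq * (q.1 - η) + (q.2 - mq * q.1)) ∈ U :=
    (hbox mq (q.2 - mq * q.1) (q.1 - η) (by simpa using hρ) (by simpa using hρ)
      (by rw [abs_lt]; constructor <;> linarith)).1
  have hcont : ContinuousAt (fun m : ℝ => gl f m (q.2 - m * q.1) (q.1 - η)) mq := by
    have h2 : ContinuousAt (fun m : ℝ => ((q.1 - η, m * (q.1 - η) + (q.2 - m * q.1)) : ℝ × ℝ)) mq := by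
      fun_prop
    exact ContinuousAt.comp (g := f) (f := fun m : ℝ =>
      ((q.1 - η, m * (q.1 - η) + (q.2 - m * q.1)) : ℝ × ℝ)) (x := mq)
      (diff_f hU hf hmem).continuousAt h2
  set σ := fderiv ℝ f q (0, 1) with hσd
  have hev : ∀ᶠ τ in 𝓝 (0 : ℝ), f q < gl f (mq + τ * σ) (q.2 - (mq + τ * σ) * q.1) (q.1 - η) ∧
      |(mq + τ * σ) - mq| < ρ ∧
      |(q.2 - (mq + τ * σ) * q.1) - (q.2 - mq * q.1)| < ρ := by
    have t0 : Tendsto (fun τ : ℝ => mq + τ * σ) (𝓝 0) (𝓝 mq) := by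
      have : ContinuousAt (fun τ : ℝ => mq + τ * σ) 0 := by fun_prop
      simpa using this.tendsto
    have a1 := t0.eventually (hcont.eventually_const_lt hleft)
    have a2 : ∀ᶠ τ in 𝓝 (0 : ℝ), |(mq + τ * σ) - mq| < ρ := by
      have : ContinuousAt (fun τ : ℝ => |(mq + τ * σ) - mq|) 0 := by fun_prop
      exact this.eventually_lt_const (by simpa using hρ)
    have a3 : ∀ᶠ τ in 𝓝 (0 : ℝ), |(q.2 - (mq + τ * σ) * q.1) - (q.2 - mq * q.1)| < ρ := by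
      have : ContinuousAt (fun τ : ℝ => |(q.2 - (mq + τ * σ) * q.1) - (q.2 - mq * q.1)|) 0 := by
        fun_prop
      exact this.eventually_lt_const (by simpa using hρ)
    filter_upwards [a1, a2, a3] with τ b1 b2 b3 using ⟨b1, b2, b3⟩
  obtain ⟨τ, ⟨hτ1, hτ2, hτ3⟩, hτ0⟩ := ((hev.filter_mono nhdsWithin_le_nhds).and
    (self_mem_nhdsWithin : Ioi (0 : ℝ) ∈ 𝓝[>] 0)).exists
  have hτ0 : 0 < τ := hτ0
  set m := mq + τ * σ with hm
  set b := q.2 - m * q.1 with hb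
  have hin : ∀ x ∈ Ioo (q.1 - ρ) (q.1 + ρ), (x, m * x + b) ∈ U := fun x hx =>
    (hbox m b x hτ2 hτ3 (habs x hx)).1
  have hpos : ∀ x ∈ Ioo (q.1 - ρ) (q.1 + ρ), 0 < glxx f m b x := fun x hx =>
    (hbox m b x hτ2 hτ3 (habs x hx)).2
  have hgq : 0 < glx f m b q.1 := by
    unfold glx
    rw [hb, hqm]
    have : ((1, m) : ℝ × ℝ) = (1, mq) + (τ * σ) • (0, 1) := by ext <;> simp [hm]
    rw [this, map_add, map_smul, h1, zero_add, smul_eq_mul, ← hσd]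
    have := mul_self_pos.2 hσ
    nlinarith
  -- a point where the derivative is negative
  have hsubI : Icc (q.1 - η) q.1 ⊆ Ioo (q.1 - ρ) (q.1 + ρ) := fun x hx =>
    ⟨by linarith [hx.1], by linarith [hx.2]⟩
  obtain ⟨ξ, hξ, hξ'⟩ : ∃ ξ ∈ Ioo (q.1 - η) q.1, glx f m b ξ < 0 := by
    obtain ⟨ξ, hξ, hξ'⟩ := exists_hasDerivAt_eq_slope (fun x => gl f m b x)
      (fun x => glx f m b x) (show q.1 - η < q.1 by linarith)
      (fun x hx => (hasDerivAt_gl hU hf (hin x (hsubI hx))).continuousAt.continuousWithinAt)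
      (fun x hx => hasDerivAt_gl hU hf (hin x (hsubI ⟨hx.1.le, hx.2.le⟩)))
    refine ⟨ξ, hξ, ?_⟩
    rw [hξ']
    refine div_neg_of_neg_of_pos ?_ (by linarith)
    show gl f m b q.1 - gl f m b (q.1 - η) < 0
    rw [hb, hglq m]
    linarith
  have hξI : ξ ∈ Ioo (q.1 - ρ) (q.1 + ρ) := hsubI ⟨hξ.1.le, hξ.2.le⟩
  have hmono := glx_mono hU hf hin hpos
  -- the zero of the derivative
  obtain ⟨x₀, hx₀, hx₀'⟩ : ∃ x₀ ∈ Icc ξ q.1, glx f m b x₀ = 0 := by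
    have hc : ContinuousOn (fun x => glx f m b x) (Icc ξ q.1) := fun x hx =>
      (hasDerivAt_glx hU hf (hin x (hsubI ⟨by linarith [hx.1, hξ.1], hx.2⟩))).continuousAt.continuousWithinAt
    have := intermediate_value_Icc hξ.2.le hc (show (0 : ℝ) ∈ Icc (glx f m b ξ) (glx f m b q.1) from
      ⟨hξ'.le, hgq.le⟩)
    obtain ⟨x₀, h2, h3⟩ := this
    exact ⟨x₀, h2, h3⟩
  have hx₀I : x₀ ∈ Ioo (q.1 - ρ) (q.1 + ρ) := hsubI ⟨by linarith [hx₀.1, hξ.1], hx₀.2⟩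
  have hx₀q : x₀ < q.1 := by
    rcases lt_or_eq_of_le hx₀.2 with h | h
    · exact h
    · rw [h] at hx₀'; linarith
  have hval : gl f m b x₀ < f q := by
    have hm2 := gl_mono hU hf hin hpos hx₀I hx₀'.ge
    have := hm2 (show x₀ ∈ Ico x₀ (q.1 + ρ) from ⟨le_rfl, hx₀I.2⟩)
      (show q.1 ∈ Ico x₀ (q.1 + ρ) from ⟨hx₀q.le, hq1.2⟩) hx₀q
    rw [← hglq m, ← hb]
    exact this
  -- the left root
  obtain ⟨x', hx', hx'v⟩ : ∃ x' ∈ Icc (q.1 - η) x₀, gl f m b x' = f q := by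
    have hc : ContinuousOn (fun x => gl f m b x) (Icc (q.1 - η) x₀) := fun x hx =>
      (hasDerivAt_gl hU hf (hin x (hsubI ⟨hx.1, hx.2.trans hx₀.2⟩))).continuousAt.continuousWithinAt
    have := intermediate_value_Icc' (show q.1 - η ≤ x₀ by linarith [hx₀.1, hξ.1]) hc
      (show f q ∈ Icc (gl f m b x₀) (gl f m b (q.1 - η)) from ⟨hval.le, hτ1.le⟩)
    obtain ⟨x', h2, h3⟩ := this
    exact ⟨x', h2, h3⟩
  have hx'0 : x' < x₀ := by
    rcases lt_or_eq_of_le hx'.2 with h | h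
    · exact h
    · rw [h] at hx'v; linarith
  have hx'η : q.1 - η < x' := by
    rcases lt_or_eq_of_le hx'.1 with h | h
    · exact h
    · rw [← h] at hx'v; linarith
  have hx'I : x' ∈ Ioo (q.1 - ρ) (q.1 + ρ) := hsubI ⟨hx'.1, by linarith⟩
  refine ⟨m, x', hτ2, hτ3, hgq, ?_, by linarith, hx'v, ?_⟩
  · rw [abs_lt]; constructor <;> linarith
  · have := hmono hx'I hx₀I hx'0
    simp only at this
    rw [hx₀'] at this
    exact this

end

end Pool.Agent.V5helper21.HD
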