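import Pool.Agent.V5helper21.HD.Loc

set_option autoImplicit false

/-!
# Graphs on conics: the equation of Monge
-/

namespace Pool.Agent.V5helper21.HD

open Set Filter Topology

/-- derivatives of `y 0` of order `≤ n` on `S` -/
def Jet (S : Set ℝ) (y : ℕ → ℝ → ℝ) (n : ℕ) : Prop :=
  ∀ j < n, ∀ x ∈ S, HasDerivAt (y j) (y (j + 1) x) x

/-- the derivatives of `ev k (x, y)` -/
def RR (k : Fin 6 → ℝ) (y : ℕ → ℝ → ℝ) : ℕ → ℝ → ℝ
  | 0 => fun x => ev k (x, y 0 x)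
  | 1 => fun x => k 1 + k 2 * y 1 x + 2 * k 3 * x + k 4 * (y 0 x + x * y 1 x) +
      2 * k 5 * (y 0 x * y 1 x)
  | 2 => fun x => k 2 * y 2 x + 2 * k 3 + k 4 * (2 * y 1 x + x * y 2 x) +
      2 * k 5 * (y 1 x ^ 2 + y 0 x * y 2 x)
  | 3 => fun x => k 2 * y 3 x + k 4 * (3 * y 2 x + x * y 3 x) +
      2 * k 5 * (3 * (y 1 x * y 2 x) + y 0 x * y 3 x)
  | 4 => fun x => k 2 * y 4 x + k 4 * (4 * y 3 x + x * y 4 x) +
      2 * k 5 * (3 * y 2 x ^ 2 + 4 * (y 1 x * y 3 x) + y 0 x * y 4 x)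
  | 5 => fun x => k 2 * y 5 x + k 4 * (5 * y 4 x + x * y 5 x) +
      2 * k 5 * (10 * (y 2 x * y 3 x) + 5 * (y 1 x * y 4 x) + y 0 x * y 5 x)
  | _ => fun _ => 0

section
variable {S : Set ℝ} {y : ℕ → ℝ → ℝ} {k : Fin 6 → ℝ}

lemma hasDerivAt_RR0 {x : ℝ} (h0 : HasDerivAt (y 0) (y 1 x) x) :
    HasDerivAt (RR k y 0) (RR k y 1 x) x := by
  have hx := hasDerivAt_id x
  have h : HasDerivAt (fun x => k 0 + k 1 * x + k 2 * y 0 x + k 3 * (x * x) + k 4 * (x * y 0 x) +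
      k 5 * (y 0 x * y 0 x)) (0 + k 1 * 1 + k 2 * y 1 x + k 3 * (1 * x + x * 1) +
      k 4 * (1 * y 0 x + x * y 1 x) + k 5 * (y 1 x * y 0 x + y 0 x * y 1 x)) x :=
    (((((hasDerivAt_const x (k 0)).fun_add (hx.const_mul _)).fun_add (h0.const_mul _)).fun_add
      ((hx.fun_mul hx).const_mul _)).fun_add ((hx.fun_mul h0).const_mul _)).fun_add
      ((h0.fun_mul h0).const_mul _)
  refine (h.congr_deriv ?_).congr_of_eventuallyEq (Eventually.of_forall fun x => ?_)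
  · simp only [RR]; ring
  · simp only [RR, ev]; ring

lemma hasDerivAt_RR1 {x : ℝ} (h0 : HasDerivAt (y 0) (y 1 x) x) (h1 : HasDerivAt (y 1) (y 2 x) x) :
    HasDerivAt (RR k y 1) (RR k y 2 x) x := by
  have hx := hasDerivAt_id x
  have h := (((((hasDerivAt_const x (k 1)).fun_add (h1.const_mul (k 2))).fun_add
    (hx.const_mul (2 * k 3))).fun_add ((h0.fun_add (hx.fun_mul h1)).const_mul (k 4))).fun_add
    ((h0.fun_mul h1).const_mul (2 * k 5)))
  refine (h.congr_deriv ?_).congr_of_eventuallyEq (Eventually.of_forall fun x => ?_)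
  · simp only [RR, id]; ring
  · simp only [RR, id]

lemma hasDerivAt_RR2 {x : ℝ} (h0 : HasDerivAt (y 0) (y 1 x) x) (h1 : HasDerivAt (y 1) (y 2 x) x)
    (h2 : HasDerivAt (y 2) (y 3 x) x) : HasDerivAt (RR k y 2) (RR k y 3 x) x := by
  have hx := hasDerivAt_id x
  have h := (((h2.const_mul (k 2)).fun_add (hasDerivAt_const x (2 * k 3))).fun_add
    (((h1.const_mul 2).fun_add (hx.fun_mul h2)).const_mul (k 4))).fun_add
    (((h1.fun_pow 2).fun_add (h0.fun_mul h2)).const_mul (2 * k 5))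
  refine (h.congr_deriv ?_).congr_of_eventuallyEq (Eventually.of_forall fun x => ?_)
  · simp only [RR, id]; push_cast; ring
  · simp only [RR, id]

lemma hasDerivAt_RR3 {x : ℝ} (h0 : HasDerivAt (y 0) (y 1 x) x) (h1 : HasDerivAt (y 1) (y 2 x) x)
    (h2 : HasDerivAt (y 2) (y 3 x) x) (h3 : HasDerivAt (y 3) (y 4 x) x) :
    HasDerivAt (RR k y 3) (RR k y 4 x) x := by
  have hx := hasDerivAt_id x
  have h := ((h3.const_mul (k 2)).fun_add
    (((h2.const_mul 3).fun_add (hx.fun_mul h3)).const_mul (k 4))).fun_add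
    ((((h1.fun_mul h2).const_mul 3).fun_add (h0.fun_mul h3)).const_mul (2 * k 5))
  refine (h.congr_deriv ?_).congr_of_eventuallyEq (Eventually.of_forall fun x => ?_)
  · simp only [RR, id]; ring
  · simp only [RR, id]

lemma hasDerivAt_RR4 {x : ℝ} (h0 : HasDerivAt (y 0) (y 1 x) x) (h1 : HasDerivAt (y 1) (y 2 x) x)
    (h2 : HasDerivAt (y 2) (y 3 x) x) (h3 : HasDerivAt (y 3) (y 4 x) x)
    (h4 : HasDerivAt (y 4) (y 5 x) x) :
    HasDerivAt (RR k y 4) (RR k y 5 x) x := by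
  have hx := hasDerivAt_id x
  have h := ((h4.const_mul (k 2)).fun_add
    (((h3.const_mul 4).fun_add (hx.fun_mul h4)).const_mul (k 4))).fun_add
    (((((h2.fun_pow 2).const_mul 3).fun_add ((h1.fun_mul h3).const_mul 4)).fun_add
      (h0.fun_mul h4)).const_mul (2 * k 5))
  refine (h.congr_deriv ?_).congr_of_eventuallyEq (Eventually.of_forall fun x => ?_)
  · simp only [RR, id]; push_cast; ring
  · simp only [RR, id]

lemma zero_of_zero {g g' : ℝ → ℝ} (hS : IsOpen S) (hg : ∀ x ∈ S, HasDerivAt g (g' x) x)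
    (h0 : ∀ x ∈ S, g x = 0) : ∀ x ∈ S, g' x = 0 := by
  intro x hx
  have h1 : g =ᶠ[𝓝 x] fun _ => 0 := by
    filter_upwards [hS.mem_nhds hx] with x' hx' using h0 x' hx'
  exact ((hg x hx).congr_of_eventuallyEq h1.symm).unique (hasDerivAt_const x 0)

/-- all derivatives vanish -/
lemma RR_zero (hS : IsOpen S) (hy : Jet S y 5) (h : ∀ x ∈ S, ev k (x, y 0 x) = 0) :
    ∀ x ∈ S, RR k y 0 x = 0 ∧ RR k y 1 x = 0 ∧ RR k y 2 x = 0 ∧ RR k y 3 x = 0 ∧ RR k y 4 x = 0 ∧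
      RR k y 5 x = 0 := by
  have h0 := hy 0 (by norm_num)
  have h1 := hy 1 (by norm_num)
  have h2 := hy 2 (by norm_num)
  have h3 := hy 3 (by norm_num)
  have h4 := hy 4 (by norm_num)
  have e0 : ∀ x ∈ S, RR k y 0 x = 0 := h
  have e1 := zero_of_zero hS (fun x hx => hasDerivAt_RR0 (k := k) (h0 x hx)) e0
  have e2 := zero_of_zero hS (fun x hx => hasDerivAt_RR1 (k := k) (h0 x hx) (h1 x hx)) e1
  have e3 := zero_of_zero hS (fun x hx => hasDerivAt_RR2 (k := k) (h0 x hx) (h1 x hx) (h2 x hx)) e2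
  have e4 := zero_of_zero hS (fun x hx => hasDerivAt_RR3 (k := k) (h0 x hx) (h1 x hx) (h2 x hx)
    (h3 x hx)) e3
  have e5 := zero_of_zero hS (fun x hx => hasDerivAt_RR4 (k := k) (h0 x hx) (h1 x hx) (h2 x hx)
    (h3 x hx) (h4 x hx)) e4
  exact fun x hx => ⟨e0 x hx, e1 x hx, e2 x hx, e3 x hx, e4 x hx, e5 x hx⟩

/-- `∂K / ∂y` -/
def Ky (k : Fin 6 → ℝ) (x y : ℝ) : ℝ := k 2 + k 4 * x + 2 * k 5 * y

/-- determinant of the conic -/
noncomputable def detK (k : Fin 6 → ℝ) : ℝ :=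
  k 3 * (k 5 * k 0 - k 2 ^ 2 / 4) - k 4 / 2 * (k 4 / 2 * k 0 - k 2 * k 1 / 4) +
    k 1 / 2 * (k 4 / 2 * (k 2 / 2) - k 5 * (k 1 / 2))

lemma det_formula {x : ℝ} (e0 : RR k y 0 x = 0) (e1 : RR k y 1 x = 0) (e2 : RR k y 2 x = 0) :
    Ky k x (y 0 x) ^ 3 * y 2 x = 8 * detK k := by
  simp only [RR, ev] at e0 e1 e2
  simp only [Ky, detK]
  set a := y 0 x
  set b := y 1 x
  set c := y 2 x
  linear_combination ((k 2 + k 4 * x + 2 * k 5 * a) ^ 2) * e2 +
    (-2 * k 4 * (k 2 + k 4 * x + 2 * k 5 * a) - 2 * k 5 * ((k 2 + k 4 * x + 2 * k 5 * a) * b -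
      (k 1 + 2 * k 3 * x + k 4 * a))) * e1 + (-8 * (k 3 * k 5 - k 4 ^ 2 / 4)) * e0

/-- the conic vanishes if `∂K / ∂y = 0` at a curved point -/
lemma k_zero {x : ℝ} (hy2 : y 2 x ≠ 0) (e0 : RR k y 0 x = 0) (e1 : RR k y 1 x = 0)
    (e2 : RR k y 2 x = 0) (e3 : RR k y 3 x = 0) (e4 : RR k y 4 x = 0)
    (hK : Ky k x (y 0 x) = 0) : k = 0 := by
  simp only [RR, ev] at e0 e1 e2 e3 e4
  simp only [Ky] at hK
  have h4 : k 4 + 2 * k 5 * y 1 x = 0 := by
    have : 3 * y 2 x * (k 4 + 2 * k 5 * y 1 x) = 0 := by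
      linear_combination e3 - y 3 x * hK
    exact (mul_eq_zero.1 this).resolve_left (mul_ne_zero (by norm_num) hy2)
  have h5 : k 5 = 0 := by
    have : 6 * y 2 x ^ 2 * k 5 = 0 := by
      linear_combination e4 - y 4 x * hK - 4 * y 3 x * h4
    exact (mul_eq_zero.1 this).resolve_left (mul_ne_zero (by norm_num) (pow_ne_zero 2 hy2))
  have h4' : k 4 = 0 := by rw [h5] at h4; linarith
  have h2 : k 2 = 0 := by rw [h5, h4'] at hK; linarith
  have h3 : k 3 = 0 := by rw [h5, h4', h2] at e2; linarith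
  have h1 : k 1 = 0 := by rw [h5, h4', h2, h3] at e1; linarith
  have h0 : k 0 = 0 := by rw [h5, h4', h2, h3, h1] at e0; linarith
  ext i
  fin_cases i <;> simp [h0, h1, h2, h3, h4', h5]

lemma RR_lin (a b : ℝ) (k k' : Fin 6 → ℝ) (y : ℕ → ℝ → ℝ) (x : ℝ) (j : ℕ) (hj : j < 6) :
    RR (a • k + b • k') y j x = a * RR k y j x + b * RR k' y j x := by
  interval_cases j <;>
  · simp only [RR, ev, Pi.add_apply, Pi.smul_apply, smul_eq_mul]; ring

/-- uniqueness of the conic through a curved arc -/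
lemma conic_unique {k' : Fin 6 → ℝ} (hS : IsOpen S) (hy : Jet S y 5)
    (h : ∀ x ∈ S, ev k (x, y 0 x) = 0) (h' : ∀ x ∈ S, ev k' (x, y 0 x) = 0) (hk : k ≠ 0)
    {x : ℝ} (hx : x ∈ S) (hy2 : y 2 x ≠ 0) : ∃ a : ℝ, k' = a • k := by
  obtain ⟨e0, e1, e2, e3, e4, e5⟩ := RR_zero hS hy h x hx
  obtain ⟨d0, d1, d2, d3, d4, d5⟩ := RR_zero hS hy h' x hx
  have hK : Ky k x (y 0 x) ≠ 0 := fun h0 => hk (k_zero hy2 e0 e1 e2 e3 e4 h0)
  set A := Ky k x (y 0 x) with hA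
  set B := Ky k' x (y 0 x) with hB
  have hz : A • k' + (-B) • k = 0 := by
    refine k_zero (y := y) hy2 ?_ ?_ ?_ ?_ ?_ ?_
    · rw [RR_lin _ _ _ _ _ _ _ (by norm_num), e0, d0]; ring
    · rw [RR_lin _ _ _ _ _ _ _ (by norm_num), e1, d1]; ring
    · rw [RR_lin _ _ _ _ _ _ _ (by norm_num), e2, d2]; ring
    · rw [RR_lin _ _ _ _ _ _ _ (by norm_num), e3, d3]; ring
    · rw [RR_lin _ _ _ _ _ _ _ (by norm_num), e4, d4]; ring
    · have : Ky (A • k' + (-B) • k) x (y 0 x) = A * Ky k' x (y 0 x) + (-B) * Ky k x (y 0 x) := by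
        simp only [Ky, Pi.add_apply, Pi.smul_apply, smul_eq_mul]; ring
      rw [this, ← hA, ← hB]; ring
  refine ⟨A⁻¹ * B, ?_⟩
  have h1 : A • k' = B • k := by
    rw [neg_smul, ← sub_eq_add_neg] at hz
    exact sub_eq_zero.1 hz
  rw [mul_smul, ← h1, smul_smul, inv_mul_cancel₀ hK, one_smul]

/-- the expression of Monge -/
def Mo (y2 y3 y4 y5 : ℝ) : ℝ := 9 * y2 ^ 2 * y5 - 45 * y2 * y3 * y4 + 40 * y3 ^ 3

lemma monge_of_conic (hS : IsOpen S) (hy : Jet S y 5)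
    (h : ∀ x ∈ S, ev k (x, y 0 x) = 0) (hk : k ≠ 0) {x : ℝ} (hx : x ∈ S) (hy2 : y 2 x ≠ 0) :
    Mo (y 2 x) (y 3 x) (y 4 x) (y 5 x) = 0 := by
  obtain ⟨e0, e1, e2, e3, e4, e5⟩ := RR_zero hS hy h x hx
  have hK : Ky k x (y 0 x) ≠ 0 := fun h0 => hk (k_zero hy2 e0 e1 e2 e3 e4 h0)
  simp only [RR] at e3 e4 e5
  have : (2 * y 2 x * Ky k x (y 0 x)) * Mo (y 2 x) (y 3 x) (y 4 x) (y 5 x) = 0 := by
    simp only [Ky, Mo]
    linear_combination (80 * y 2 x * y 3 x ^ 2 - 30 * y 2 x ^ 2 * y 4 x) * e3 -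
      (60 * y 2 x ^ 2 * y 3 x) * e4 + (18 * y 2 x ^ 3) * e5
  exact (mul_eq_zero.1 this).resolve_left (mul_ne_zero (mul_ne_zero two_ne_zero hy2) hK)

/-- the osculating conic, `w = y₂^(-1/3)` -/
noncomputable def osc (x y0 y1 y2 y3 y4 w : ℝ) : Fin 6 → ℝ :=
  let F := w * (-(3 * y2 * y4 - 4 * y3 ^ 2) / (18 * y2 ^ 3))
  let E := w * (-y3 / (3 * y2)) - 2 * F * y1
  let C := w - E * x - 2 * F * y0
  let D := -(C * y2 + E * (2 * y1 + x * y2) + 2 * F * (y1 ^ 2 + y0 * y2)) / 2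
  let B := -(C * y1 + 2 * D * x + E * (y0 + x * y1) + 2 * F * (y0 * y1))
  let A := -(B * x + C * y0 + D * x ^ 2 + E * (x * y0) + F * y0 ^ 2)
  ![A, B, C, D, E, F]

lemma osc_ev (x y0 y1 y2 y3 y4 w : ℝ) : ev (osc x y0 y1 y2 y3 y4 w) (x, y0) = 0 := by
  simp only [ev, osc]
  simp
  ring

lemma osc_Ky (x y0 y1 y2 y3 y4 w : ℝ) : Ky (osc x y0 y1 y2 y3 y4 w) x y0 = w := by
  simp only [Ky, osc]
  simp
  ring

/-- the osculating conic is constant if the equation of Monge holds -/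
lemma osc_const {u v : ℝ} (hy : Jet (Ioo u v) y 5) (hy2 : ∀ x ∈ Ioo u v, y 2 x ≠ 0)
    (hM : ∀ x ∈ Ioo u v, Mo (y 2 x) (y 3 x) (y 4 x) (y 5 x) = 0) {a b : ℝ} (ha : a ∈ Ioo u v)
    (hb : b ∈ Ioo u v) :
    osc a (y 0 a) (y 1 a) (y 2 a) (y 3 a) (y 4 a) (Real.exp (-(Real.log (y 2 a) / 3))) =
      osc b (y 0 b) (y 1 b) (y 2 b) (y 3 b) (y 4 b) (Real.exp (-(Real.log (y 2 b) / 3))) := by
  have hconst : ∀ g : ℝ → ℝ, (∀ x ∈ Ioo u v, HasDerivAt g 0 x) → g a = g b := by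
    intro g hg
    exact (convex_Ioo u v).is_const_of_fderivWithin_eq_zero (𝕜 := ℝ) (f := g)
      (fun b hb => (hg b hb).differentiableAt.differentiableWithinAt)
      (fun b hb => by
        rw [fderivWithin_of_isOpen isOpen_Ioo hb]
        ext
        simpa using (hg b hb).deriv) ha hb
  set w : ℝ → ℝ := fun x => Real.exp (-(Real.log (y 2 x) / 3)) with hw
  have h0 := hy 0 (by norm_num)
  have h1 := hy 1 (by norm_num)
  have h2 := hy 2 (by norm_num)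
  have h3 := hy 3 (by norm_num)
  have h4 := hy 4 (by norm_num)
  have dw : ∀ x ∈ Ioo u v, HasDerivAt w (w x * (-y 3 x / (3 * y 2 x))) x := by
    intro x hx
    have h := (((h2 x hx).log (hy2 x hx)).div_const 3).fun_neg.exp
    refine h.congr_deriv ?_
    have := hy2 x hx
    simp only [hw]
    field_simp
  set F : ℝ → ℝ := fun x => w x * (-(3 * y 2 x * y 4 x - 4 * y 3 x ^ 2) / (18 * y 2 x ^ 3)) with hF
  set E : ℝ → ℝ := fun x => w x * (-y 3 x / (3 * y 2 x)) - 2 * F x * y 1 x with hE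
  set C : ℝ → ℝ := fun x => w x - E x * x - 2 * F x * y 0 x with hC
  set D : ℝ → ℝ := fun x => -(C x * y 2 x + E x * (2 * y 1 x + x * y 2 x) +
    2 * F x * (y 1 x ^ 2 + y 0 x * y 2 x)) / 2 with hD
  set B : ℝ → ℝ := fun x => -(C x * y 1 x + 2 * D x * x + E x * (y 0 x + x * y 1 x) +
    2 * F x * (y 0 x * y 1 x)) with hB
  set A : ℝ → ℝ := fun x => -(B x * x + C x * y 0 x + D x * x ^ 2 + E x * (x * y 0 x) +
    F x * y 0 x ^ 2) with hA
  have dF : ∀ x ∈ Ioo u v, HasDerivAt F 0 x := by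
    intro x hx
    have n2 := hy2 x hx
    have hnum := ((((h2 x hx).const_mul 3).fun_mul (h4 x hx)).fun_sub
      (((h3 x hx).fun_pow 2).const_mul 4)).fun_neg
    have hden := ((h2 x hx).fun_pow 3).const_mul 18
    have hq := (dw x hx).fun_mul (hnum.fun_div hden (mul_ne_zero (by norm_num) (pow_ne_zero 3 n2)))
    refine hq.congr_deriv ?_
    have hM' := hM x hx
    simp only [Mo] at hM'
    push_cast
    field_simp
    linear_combination (-(w x)) * hM'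
  have dE : ∀ x ∈ Ioo u v, HasDerivAt E 0 x := by
    intro x hx
    have n2 := hy2 x hx
    have hq1 := (dw x hx).fun_mul (((h3 x hx).fun_neg).fun_div ((h2 x hx).const_mul 3)
      (mul_ne_zero (by norm_num) n2))
    have hq := hq1.fun_sub (((dF x hx).const_mul 2).fun_mul (h1 x hx))
    refine hq.congr_deriv ?_
    simp only [hF]
    field_simp
    ring
  have dC : ∀ x ∈ Ioo u v, HasDerivAt C 0 x := by
    intro x hx
    have hq := ((dw x hx).fun_sub ((dE x hx).fun_mul (hasDerivAt_id x))).fun_sub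
      (((dF x hx).const_mul 2).fun_mul (h0 x hx))
    refine hq.congr_deriv ?_
    simp only [hE, id]
    ring
  have dD : ∀ x ∈ Ioo u v, HasDerivAt D 0 x := by
    intro x hx
    have n2 := hy2 x hx
    have hx1 := hasDerivAt_id x
    have hq := (((((dC x hx).fun_mul (h2 x hx)).fun_add ((dE x hx).fun_mul
      (((h1 x hx).const_mul 2).fun_add (hx1.fun_mul (h2 x hx))))).fun_add
      (((dF x hx).const_mul 2).fun_mul (((h1 x hx).fun_pow 2).fun_add
        ((h0 x hx).fun_mul (h2 x hx))))).fun_neg).div_const 2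
    refine hq.congr_deriv ?_
    simp only [hC, hE, id]
    push_cast
    field_simp
    ring
  have dB : ∀ x ∈ Ioo u v, HasDerivAt B 0 x := by
    intro x hx
    have hx1 := hasDerivAt_id x
    have hq := (((((dC x hx).fun_mul (h1 x hx)).fun_add (((dD x hx).const_mul 2).fun_mul
      hx1)).fun_add ((dE x hx).fun_mul ((h0 x hx).fun_add (hx1.fun_mul (h1 x hx))))).fun_add
      (((dF x hx).const_mul 2).fun_mul ((h0 x hx).fun_mul (h1 x hx)))).fun_neg
    refine hq.congr_deriv ?_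
    simp only [hD, id]
    ring
  have dA : ∀ x ∈ Ioo u v, HasDerivAt A 0 x := by
    intro x hx
    have hx1 := hasDerivAt_id x
    have hq := ((((((dB x hx).fun_mul hx1).fun_add ((dC x hx).fun_mul (h0 x hx))).fun_add
      ((dD x hx).fun_mul (hx1.fun_pow 2))).fun_add ((dE x hx).fun_mul
      (hx1.fun_mul (h0 x hx)))).fun_add ((dF x hx).fun_mul ((h0 x hx).fun_pow 2))).fun_neg
    refine hq.congr_deriv ?_
    simp only [hB, id]
    push_cast
    ring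
  have eA := hconst A dA
  have eB := hconst B dB
  have eC := hconst C dC
  have eD := hconst D dD
  have eE := hconst E dE
  have eF := hconst F dF
  show (![A a, B a, C a, D a, E a, F a] : Fin 6 → ℝ) = ![A b, B b, C b, D b, E b, F b]
  rw [eA, eB, eC, eD, eE, eF]

end

end Pool.Agent.V5helper21.HD
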