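import Pool.Agent.V5helper21.HD.Ell

set_option autoImplicit false

/-!
# The conics of the leaves form a pencil
-/

namespace Pool.Agent.V5helper21.HD

open Set Filter Topology
open scoped ContDiff

section
variable {f : ℝ × ℝ → ℝ} {r : ℝ} {z : ℝ × ℝ} {K : ℝ → Fin 6 → ℝ}

/-- leaves near the leaf of `p` pass near `p` -/
lemma near_leaf (G : Glob f r z) {p : ℝ × ℝ} (h0 : 0 ≤ f p) (h1 : f p < r) {P : ℝ × ℝ → Prop}
    (hP : ∀ᶠ q in 𝓝 p, P q) : ∀ᶠ c in 𝓝 (f p), ∃ q, f q = c ∧ P q := by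
  rw [← G.sub p h0 h1, eventually_map]
  filter_upwards [hP] with q hq using ⟨q, rfl, hq⟩

lemma K_smooth (G : Glob f r z) (H : Hyp f {p | 0 < f p ∧ f p < r})
    (hK : ∀ c ∈ Ioo 0 r, IsK f z c (K c)) {c₀ : ℝ} (hc₀ : c₀ ∈ Ioo 0 r) : ContDiffAt ℝ 2 K c₀ := by
  obtain ⟨p, hp, hc⟩ := exists_cur G H hc₀.1 hc₀.2
  have hpU : p ∈ {p | 0 < f p ∧ f p < r} := by
    show 0 < f p ∧ f p < r
    rw [hp]; exact hc₀
  obtain ⟨κ, hκ2, hκ0, hκ⟩ := lc H hpU hc
  have e1 : ∀ᶠ q in 𝓝 p, κ (f q) ≠ 0 :=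
    (ContinuousAt.comp (g := κ) (f := f) hκ2.continuousAt G.cont.continuousAt).eventually_ne hκ0
  have e2 := near_leaf G hpU.1.le hpU.2
    ((ev_cur H hpU hc).and (hκ.eventually_nhds.and e1))
  rw [hp] at hκ2 e2 hκ0
  have e3 : ∀ᶠ c in 𝓝 c₀, K c = (-(ev (κ c) z)⁻¹) • κ c ∧ ev (κ c) z ≠ 0 := by
    filter_upwards [e2, Ioo_mem_nhds hc₀.1 hc₀.2] with c hcq hcI
    obtain ⟨q, hq, ⟨hqU, hqc⟩, hqκ, hq0⟩ := hcq
    have on1 : On f (κ c) q := by
      filter_upwards [hqκ] with x hx h2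
      rw [h2, hq] at hx
      exact hx
    have on2 : On f (K c) q := Eventually.of_forall fun x hx => (hK c hcI).2 x (by rw [hx, hq])
    obtain ⟨a, ha⟩ := (uniq H hqU hqc (isK_ne (hK c hcI)) on2 on1).1
    have ha0 : a ≠ 0 := by
      intro h0
      rw [hq] at hq0
      apply hq0
      rw [ha, h0, zero_smul]
    have hev : ev (κ c) z = -a := by
      rw [ha, ev_smul, (hK c hcI).1]; ring
    refine ⟨?_, by rw [hev]; exact neg_ne_zero.2 ha0⟩
    rw [hev, ha, smul_smul]
    have : -(-a)⁻¹ * a = 1 := by field_simp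
    rw [this, one_smul]
  have hne : ev (κ c₀) z ≠ 0 := e3.self_of_nhds.2
  have h4 : ∀ i, ContDiffAt ℝ 2 (fun c => κ c i) c₀ := contDiffAt_pi.1 hκ2
  have h5 : ContDiffAt ℝ 2 (fun c => ev (κ c) z) c₀ := by
    unfold ev
    exact (((((h4 0).add ((h4 1).mul contDiffAt_const)).add ((h4 2).mul contDiffAt_const)).add
      ((h4 3).mul contDiffAt_const)).add ((h4 4).mul contDiffAt_const)).add
      ((h4 5).mul contDiffAt_const)
  have h6 : ContDiffAt ℝ 2 (fun c => (-(ev (κ c) z)⁻¹) • κ c) c₀ := ((h5.inv hne).neg).smul hκ2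
  exact h6.congr_of_eventuallyEq (e3.mono fun c hc => hc.1)

lemma K_diffs (G : Glob f r z) (H : Hyp f {p | 0 < f p ∧ f p < r})
    (hK : ∀ c ∈ Ioo 0 r, IsK f z c (K c)) :
    (∀ c ∈ Ioo 0 r, HasDerivAt K (deriv K c) c) ∧
    (∀ c ∈ Ioo 0 r, HasDerivAt (deriv K) (deriv (deriv K) c) c) ∧
    (∀ c ∈ Ioo 0 r, ContinuousAt (deriv K) c) ∧ ∀ c ∈ Ioo 0 r, ContinuousAt (deriv (deriv K)) c := by
  have h0 : ContDiffOn ℝ 2 K (Ioo 0 r) := fun c hc => (K_smooth G H hK hc).contDiffWithinAt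
  have h1 : ContDiffOn ℝ 1 (deriv K) (Ioo 0 r) := h0.deriv_of_isOpen isOpen_Ioo (by norm_num)
  have h2 : ContDiffOn ℝ 0 (deriv (deriv K)) (Ioo 0 r) :=
    h1.deriv_of_isOpen isOpen_Ioo (by norm_num)
  refine ⟨fun c hc => ?_, fun c hc => ?_, fun c hc => ?_, fun c hc => ?_⟩
  · exact ((h0.contDiffAt (isOpen_Ioo.mem_nhds hc)).differentiableAt (by norm_num)).hasDerivAt
  · exact ((h1.contDiffAt (isOpen_Ioo.mem_nhds hc)).differentiableAt (by norm_num)).hasDerivAt
  · exact (h1.contDiffAt (isOpen_Ioo.mem_nhds hc)).continuousAt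
  · exact (h2.contDiffAt (isOpen_Ioo.mem_nhds hc)).continuousAt

lemma K_deriv_ne (G : Glob f r z) (H : Hyp f {p | 0 < f p ∧ f p < r})
    (hK : ∀ c ∈ Ioo 0 r, IsK f z c (K c)) {c : ℝ} (hc : c ∈ Ioo 0 r) : deriv K c ≠ 0 := by
  intro hd
  obtain ⟨p, hp⟩ := leaf_nonempty G hc.1.le hc.2
  have hp' : f p = c := hp
  have hpU : p ∈ {p | 0 < f p ∧ f p < r} := by
    show 0 < f p ∧ f p < r
    rw [hp']; exact hc
  set w := p - z with hw
  have hw0 : w ≠ 0 := by
    intro h
    have h1 : p = z := sub_eq_zero.1 h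
    rw [h1] at hp'
    have := G.neg
    have := hc.1
    linarith
  have e1 : z + (1 : ℝ) • w = p := by rw [one_smul, hw, add_sub_cancel]
  have hφ : HasDerivAt (fun t : ℝ => f (z + t • w)) (fderiv ℝ f p w) 1 := by
    have h1 : HasDerivAt (fun t : ℝ => z + t • w) w 1 := by
      simpa using ((hasDerivAt_id (1 : ℝ)).smul_const w).const_add z
    have h2 : HasFDerivAt f (fderiv ℝ f p) (z + (1 : ℝ) • w) := by
      rw [e1]; exact (diff_f H.opn H.smooth hpU).hasFDerivAt
    exact h2.comp_hasDerivAt (1 : ℝ) h1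
  have hφ1 : f (z + (1 : ℝ) • w) = c := by rw [e1, hp']
  have hKd : HasDerivAt K 0 (f (z + (1 : ℝ) • w)) := by
    rw [hφ1, ← hd]
    exact (K_diffs G H hK).1 c hc
  have hκ : HasDerivAt (fun t : ℝ => K (f (z + t • w))) 0 1 := by
    have := hKd.scomp (1 : ℝ) hφ
    rw [smul_zero] at this
    exact this
  have hκi : ∀ i, HasDerivAt (fun t : ℝ => K (f (z + t • w)) i) 0 1 := fun i =>
    (hasDerivAt_pi.1 hκ) i
  have hlin : HasDerivAt (fun t : ℝ => lin (K (f (z + t • w))) z w) 0 1 := by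
    have h := (((((hκi 1).mul_const w.1).fun_add ((hκi 2).mul_const w.2)).fun_add
      (((hκi 3).const_mul 2).mul_const (z.1 * w.1))).fun_add
      ((hκi 4).mul_const (z.1 * w.2 + z.2 * w.1))).fun_add
      (((hκi 5).const_mul 2).mul_const (z.2 * w.2))
    refine h.congr_deriv ?_
    ring
  have hquad : HasDerivAt (fun t : ℝ => quad (K (f (z + t • w))) w) 0 1 := by
    have h := (((hκi 3).mul_const (w.1 ^ 2)).fun_add ((hκi 4).mul_const (w.1 * w.2))).fun_add
      ((hκi 5).mul_const (w.2 ^ 2))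
    refine h.congr_deriv ?_
    ring
  have hid := hasDerivAt_id (1 : ℝ)
  have hsum : HasDerivAt (fun t : ℝ => -1 + id t * lin (K (f (z + t • w))) z w +
      id t ^ 2 * quad (K (f (z + t • w))) w)
      (lin (K c) z w + 2 * quad (K c) w) 1 := by
    have h := ((hid.fun_mul hlin).const_add (-1)).fun_add ((hid.fun_pow 2).fun_mul hquad)
    refine h.congr_deriv ?_
    simp only [id, hφ1]
    push_cast
    ring
  have hzero : (fun t : ℝ => -1 + id t * lin (K (f (z + t • w))) z w +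
      id t ^ 2 * quad (K (f (z + t • w))) w) =ᶠ[𝓝 1] fun _ => 0 := by
    have hcon : ContinuousAt (fun t : ℝ => f (z + t • w)) 1 := hφ.continuousAt
    have h2 : ∀ᶠ t in 𝓝 (1 : ℝ), f (z + t • w) ∈ Ioo 0 r := by
      refine hcon.eventually_mem (Ioo_mem_nhds ?_ ?_)
      · rw [hφ1]; exact hc.1
      · rw [hφ1]; exact hc.2
    filter_upwards [h2] with t ht
    have h3 := (hK _ ht).2 (z + t • w) rfl
    rw [ev_line, (hK _ ht).1] at h3
    exact h3
  have h0 := (hsum.congr_of_eventuallyEq hzero.symm).unique (hasDerivAt_const (1 : ℝ) (0 : ℝ))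
  have hl := isK_lin (hK c hc) hp'
  rw [← hw] at hl
  have hq := (ellipse G hc.1.le hc.2 (by rw [(hK c hc).1]; norm_num) (hK c hc).2).1 w hw0
  linarith

/-- on a segment of leaves covered by a local pencil, the normalised conics lie on a line -/
lemma line_of_span {A B : Fin 6 → ℝ} {k k₀ : Fin 6 → ℝ} (hk : k ∈ Submodule.span ℝ {A, B})
    (hk₀ : k₀ ∈ Submodule.span ℝ {A, B}) (h : ev k z = -1) (h₀ : ev k₀ z = -1) :
    ∃ s : ℝ, k = k₀ + s • ((ev B z) • A - (ev A z) • B) := by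
  rw [Submodule.mem_span_pair] at hk hk₀
  obtain ⟨a, b, rfl⟩ := hk
  obtain ⟨a', b', rfl⟩ := hk₀
  rw [ev_add, ev_smul, ev_smul] at h h₀
  by_cases hb : ev B z = 0
  · have ha : ev A z ≠ 0 := by
      intro h0
      rw [hb, h0] at h
      norm_num at h
    have haa : a = a' := by
      have : (a - a') * ev A z = 0 := by rw [hb] at h h₀; linarith
      have := (mul_eq_zero.1 this).resolve_right ha
      linarith
    refine ⟨-((b - b') / ev A z), ?_⟩
    rw [hb, zero_smul, zero_sub, haa]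
    ext i
    simp only [Pi.add_apply, Pi.smul_apply, smul_eq_mul, Pi.neg_apply]
    field_simp
    ring
  · refine ⟨(a - a') / ev B z, ?_⟩
    have hbb : b - b' = -((a - a') * ev A z / ev B z) := by
      field_simp
      linarith
    have hb' : b = b' + -((a - a') * ev A z / ev B z) := by linarith
    ext i
    simp only [Pi.add_apply, Pi.smul_apply, smul_eq_mul, Pi.sub_apply]
    rw [hb']
    field_simp
    ring

/-- `K''` is parallel to `K'` -/
lemma K_minor (G : Glob f r z) (H : Hyp f {p | 0 < f p ∧ f p < r})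
    (hK : ∀ c ∈ Ioo 0 r, IsK f z c (K c)) {c : ℝ} (hc : c ∈ Ioo 0 r) (l j : Fin 6) :
    deriv K c l * deriv (deriv K) c j = deriv K c j * deriv (deriv K) c l := by
  obtain ⟨hd1, hd2, hc1, hc2⟩ := K_diffs G H hK
  by_contra hne
  have hcont : ContinuousAt (fun c => deriv K c l * deriv (deriv K) c j -
      deriv K c j * deriv (deriv K) c l) c := by
    have a1 := fun i => (continuousAt_pi.1 (hc1 c hc)) i
    have a2 := fun i => (continuousAt_pi.1 (hc2 c hc)) i
    exact ((a1 l).mul (a2 j)).sub ((a1 j).mul (a2 l))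
  have e1 := (hcont.eventually_ne (sub_ne_zero.2 hne)).and (Ioo_mem_nhds hc.1 hc.2)
  obtain ⟨p, hp, hpc⟩ := exists_cur G H hc.1 hc.2
  have hpU : p ∈ {p | 0 < f p ∧ f p < r} := by
    show 0 < f p ∧ f p < r
    rw [hp]; exact hc
  rw [← hp] at e1
  have e2 := (G.cont.continuousAt.eventually e1).and (ev_cur H hpU hpc)
  obtain ⟨q, ⟨⟨hq1, hq2⟩, hqU, hqc⟩, hqL⟩ := exists_loc' H hpU hpc (O := {q | _ ∧ _}) e2
  obtain ⟨δ, hδ, A, B, hAB⟩ := hqL
  have hq2' : f q ∈ Ioo 0 r := hq2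
  -- near `f q` the normalised conic lies in the span
  have hev : ∀ᶠ d in 𝓝 (f q), d ∈ Ioo 0 r ∧ K d ∈ Submodule.span ℝ {A, B} := by
    filter_upwards [near_leaf G hqU.1.le hqU.2 ((ev_cur H hqU hqc).and
      (Metric.ball_mem_nhds q hδ)), Ioo_mem_nhds hq2'.1 hq2'.2] with d hd hdI
    obtain ⟨x, hx, ⟨hxU, hxc⟩, hxb⟩ := hd
    obtain ⟨k, hk, hk0, hkv⟩ := hAB x hxb
    have on1 : On f k x := by
      filter_upwards [Metric.isOpen_ball.mem_nhds hxb] with y hy using hkv y hy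
    have on2 : On f (K d) x := Eventually.of_forall fun y hy => (hK d hdI).2 y (by rw [hy, hx])
    obtain ⟨a, ha⟩ := (uniq H hxU hxc hk0 on1 on2).1
    exact ⟨hdI, by rw [ha]; exact Submodule.smul_mem _ _ hk⟩
  set E := (ev B z) • A - (ev A z) • B with hE
  have hline : ∀ᶠ d in 𝓝 (f q), ∃ s : ℝ, K d = K (f q) + s • E := by
    have h0 := hev.self_of_nhds
    filter_upwards [hev] with d hd
    exact line_of_span hd.2 h0.2 (hK d hd.1).1 (hK _ h0.1).1
  have hE0 : E ≠ 0 := by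
    intro h0
    apply K_deriv_ne G H hK hq2'
    have : K =ᶠ[𝓝 (f q)] fun _ => K (f q) := by
      filter_upwards [hline] with d hd
      obtain ⟨s, hs⟩ := hd
      rw [hs, h0, smul_zero, add_zero]
    rw [this.deriv_eq]
    simp
  obtain ⟨i, hi⟩ : ∃ i, E i ≠ 0 := by
    by_contra hn
    push Not at hn
    exact hE0 (funext hn)
  -- proportional components
  have hprop : ∀ j, ∀ᶠ d in 𝓝 (f q), deriv K d j = E j / E i * deriv K d i := by
    intro j
    have h1 : ∀ᶠ d in 𝓝 (f q), K d j = K (f q) j + E j / E i * (K d i - K (f q) i) := by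
      filter_upwards [hline] with d hd
      obtain ⟨s, hs⟩ := hd
      rw [hs]
      simp only [Pi.add_apply, Pi.smul_apply, smul_eq_mul]
      field_simp
      ring
    filter_upwards [h1.eventually_nhds, Ioo_mem_nhds hq2'.1 hq2'.2] with d hd hdI
    have a1 := fun i => (hasDerivAt_pi.1 (hd1 d hdI)) i
    have a2 : HasDerivAt (fun d => K (f q) j + E j / E i * (K d i - K (f q) i))
        (E j / E i * deriv K d i) d :=
      (((a1 i).sub_const _).const_mul _).const_add _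
    exact (a1 j).unique (a2.congr_of_eventuallyEq hd)
  have hprop2 : ∀ j, deriv (deriv K) (f q) j = E j / E i * deriv (deriv K) (f q) i := by
    intro j
    have a1 := fun i => (hasDerivAt_pi.1 (hd2 (f q) hq2')) i
    exact (a1 j).unique (((a1 i).const_mul _).congr_of_eventuallyEq (hprop j))
  apply hq1
  rw [hprop2 l, hprop2 j, (hprop l).self_of_nhds, (hprop j).self_of_nhds]
  ring

lemma const_Ioo {g : ℝ → ℝ} (hg : ∀ x ∈ Ioo 0 r, HasDerivAt g 0 x) {a b : ℝ} (ha : a ∈ Ioo 0 r)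
    (hb : b ∈ Ioo 0 r) : g a = g b :=
  (convex_Ioo 0 r).is_const_of_fderivWithin_eq_zero (𝕜 := ℝ) (f := g)
    (fun b hb => (hg b hb).differentiableAt.differentiableWithinAt)
    (fun b hb => by
      rw [fderivWithin_of_isOpen isOpen_Ioo hb]
      ext
      simpa using (hg b hb).deriv) ha hb

/-- **The normalised conics lie on a line.** -/
lemma K_line (G : Glob f r z) (H : Hyp f {p | 0 < f p ∧ f p < r})
    (hK : ∀ c ∈ Ioo 0 r, IsK f z c (K c)) {c₁ : ℝ} (hc₁ : c₁ ∈ Ioo 0 r) :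
    ∀ c ∈ Ioo 0 r, ∃ s : ℝ, K c = K c₁ + s • deriv K c₁ := by
  obtain ⟨hd1, hd2, -, -⟩ := K_diffs G H hK
  set a := deriv K c₁ with ha
  have ha0 : a ≠ 0 := K_deriv_ne G H hK hc₁
  have D1 : ∀ c ∈ Ioo 0 r, ∀ i, HasDerivAt (fun c => K c i) (deriv K c i) c :=
    fun c hc i => (hasDerivAt_pi.1 (hd1 c hc)) i
  have D2 : ∀ c ∈ Ioo 0 r, ∀ i, HasDerivAt (fun c => deriv K c i) (deriv (deriv K) c i) c :=
    fun c hc i => (hasDerivAt_pi.1 (hd2 c hc)) i
  have hθ : ∀ l j, ∀ c ∈ Ioo 0 r, deriv K c l * a j - deriv K c j * a l = 0 := by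
    intro l j c hc
    set n : ℝ → ℝ := fun c => ∑ i, deriv K c i ^ 2 with hn
    set θ : ℝ → ℝ := fun c => deriv K c l * a j - deriv K c j * a l with hθ
    have npos : ∀ c ∈ Ioo 0 r, 0 < n c := by
      intro c hc
      refine lt_of_le_of_ne (Finset.sum_nonneg fun i _ => sq_nonneg _) fun h0 => ?_
      apply K_deriv_ne G H hK hc
      ext i
      have := (Finset.sum_eq_zero_iff_of_nonneg (fun i _ => sq_nonneg (deriv K c i))).1 h0.symm i
        (Finset.mem_univ i)
      simpa using this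
    have dn : ∀ c ∈ Ioo 0 r, HasDerivAt n (∑ i, 2 * deriv K c i * deriv (deriv K) c i) c := by
      intro c hc
      have := HasDerivAt.fun_sum (u := Finset.univ) (fun i _ => (D2 c hc i).fun_pow 2)
      refine this.congr_deriv (Finset.sum_congr rfl fun i _ => ?_)
      push_cast
      ring
    have dθ : ∀ c ∈ Ioo 0 r, HasDerivAt θ
        (deriv (deriv K) c l * a j - deriv (deriv K) c j * a l) c := fun c hc =>
      ((D2 c hc l).mul_const _).sub ((D2 c hc j).mul_const _)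
    have hkey : ∀ c ∈ Ioo 0 r, (deriv (deriv K) c l * a j - deriv (deriv K) c j * a l) * n c =
        θ c * ∑ i, deriv K c i * deriv (deriv K) c i := by
      intro c hc
      rw [hn, Finset.mul_sum, Finset.mul_sum]
      refine Finset.sum_congr rfl fun i _ => ?_
      have m1 := K_minor G H hK hc i l
      have m2 := K_minor G H hK hc i j
      simp only [hθ]
      linear_combination (deriv K c i * a j) * m1 - (deriv K c i * a l) * m2
    have hconst : θ c ^ 2 / n c = θ c₁ ^ 2 / n c₁ := by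
      refine const_Ioo (g := fun c => θ c ^ 2 / n c) (fun c hc => ?_) hc hc₁
      have h1 := ((dθ c hc).fun_pow 2).fun_div (dn c hc) (npos c hc).ne'
      refine h1.congr_deriv ?_
      rw [div_eq_zero_iff]
      left
      have h2 := hkey c hc
      have h3 : ∑ i, 2 * deriv K c i * deriv (deriv K) c i =
          2 * ∑ i, deriv K c i * deriv (deriv K) c i := by
        rw [Finset.mul_sum]
        exact Finset.sum_congr rfl fun i _ => by ring
      rw [h3]
      push_cast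
      linear_combination (2 * θ c) * h2
    have h1 : θ c₁ = 0 := by
      simp only [hθ, ha]
      ring
    rw [h1] at hconst
    have h2 : θ c ^ 2 / n c = 0 := by rw [hconst]; simp
    rw [div_eq_zero_iff] at h2
    exact pow_eq_zero_iff (two_ne_zero) |>.1 (h2.resolve_right (npos c hc).ne')
  obtain ⟨i, hi⟩ : ∃ i, a i ≠ 0 := by
    by_contra hn
    push Not at hn
    exact ha0 (funext hn)
  intro c hc
  refine ⟨(K c i - K c₁ i) / a i, ?_⟩
  ext j
  have hconst : K c j * a i - K c i * a j = K c₁ j * a i - K c₁ i * a j := by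
    refine const_Ioo (g := fun c => K c j * a i - K c i * a j) (fun c hc => ?_) hc hc₁
    have h1 := ((D1 c hc j).mul_const (a i)).fun_sub ((D1 c hc i).mul_const (a j))
    exact h1.congr_deriv (hθ j i c hc)
  simp only [Pi.add_apply, Pi.smul_apply, smul_eq_mul]
  field_simp
  linarith

end

end Pool.Agent.V5helper21.HD
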