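import Pool.Agent.V5helper21.HD.Sym

set_option autoImplicit false

/-!
# Global facts on the leaves
-/

namespace Pool.Agent.V5helper21.HD

open Set Filter Topology
open scoped ContDiff

/-- the global hypotheses -/
structure Glob (f : ℝ × ℝ → ℝ) (r : ℝ) (z : ℝ × ℝ) : Prop where
  cont : Continuous f
  cvx : ∀ c, 0 ≤ c → c < r → Convex ℝ {p | f p ≤ c}
  bdd : ∀ c, 0 ≤ c → c < r → Bornology.IsBounded {p | f p ≤ c}
  neg : f z < 0
  sub : ∀ p, 0 ≤ f p → f p < r → map f (𝓝 p) = 𝓝 (f p)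

/-- the sublevel set seen from `z` -/
def KK (f : ℝ × ℝ → ℝ) (z : ℝ × ℝ) (c : ℝ) : Set (ℝ × ℝ) := {u | f (z + u) ≤ c}

section
variable {f : ℝ × ℝ → ℝ} {r : ℝ} {z : ℝ × ℝ}

lemma KK_eq (c : ℝ) : KK f z c = (fun u => z + u) ⁻¹' {p | f p ≤ c} := rfl

lemma KK_convex (G : Glob f r z) {c : ℝ} (h0 : 0 ≤ c) (h1 : c < r) : Convex ℝ (KK f z c) := by
  rw [KK_eq]
  exact (G.cvx c h0 h1).translate_preimage_right z

lemma KK_bdd (G : Glob f r z) {c : ℝ} (h0 : 0 ≤ c) (h1 : c < r) :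
    Bornology.IsBounded (KK f z c) := by
  obtain ⟨R, hR⟩ := (G.bdd c h0 h1).subset_closedBall z
  refine (Metric.isBounded_closedBall (x := (0 : ℝ × ℝ)) (r := R)).subset fun u hu => ?_
  have := hR (show z + u ∈ {p | f p ≤ c} from hu)
  rw [Metric.mem_closedBall, dist_eq_norm] at this ⊢
  simpa using this

lemma KK_closed (G : Glob f r z) (c : ℝ) : IsClosed (KK f z c) :=
  isClosed_le (G.cont.comp (by fun_prop)) continuous_const

lemma KK_interior (G : Glob f r z) {c : ℝ} (h0 : 0 ≤ c) (h1 : c < r) :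
    interior (KK f z c) = {u | f (z + u) < c} := by
  apply Subset.antisymm
  · intro u hu
    have h2 : u ∈ KK f z c := interior_subset hu
    have h2 : f (z + u) ≤ c := h2
    refine lt_of_le_of_ne h2 fun he => ?_
    have h3 : KK f z c ∈ 𝓝 u := mem_interior_iff_mem_nhds.1 hu
    have h4 : {p | f p ≤ c} ∈ 𝓝 (z + u) := by
      have c1 : Tendsto (fun p : ℝ × ℝ => p - z) (𝓝 (z + u)) (𝓝 u) := by
        have : Tendsto (fun p : ℝ × ℝ => p - z) (𝓝 (z + u)) (𝓝 (z + u - z)) :=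
          (continuous_id.sub continuous_const).continuousAt
        rwa [add_sub_cancel_left] at this
      filter_upwards [c1.eventually h3] with p hp
      have hp' : f (z + (p - z)) ≤ c := hp
      rwa [add_sub_cancel] at hp'
    have h5 : Iic c ∈ map f (𝓝 (z + u)) := h4
    rw [G.sub _ (by rw [he]; exact h0) (by rw [he]; exact h1), he] at h5
    obtain ⟨x, hx, hxc⟩ := mem_nhds_iff_exists_Ioo_subset.1 h5
    obtain ⟨y, hy1, hy2⟩ := exists_between hxc.1.2
    have := hxc.2 ⟨hxc.1.1.trans hy1, hy2⟩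
    exact absurd this (not_le.2 hy1)
  · refine interior_maximal (fun u hu => ?_) ?_
    · have hu' : f (z + u) < c := hu
      exact hu'.le
    · exact isOpen_lt (G.cont.comp (by fun_prop)) continuous_const

lemma KK_frontier (G : Glob f r z) {c : ℝ} (h0 : 0 ≤ c) (h1 : c < r) :
    frontier (KK f z c) = {u | f (z + u) = c} := by
  rw [frontier, (KK_closed G c).closure_eq, KK_interior G h0 h1]
  ext u
  constructor
  · rintro ⟨h2, h3⟩
    exact le_antisymm h2 (not_lt.1 h3)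
  · intro h2
    exact ⟨le_of_eq h2, not_lt.2 (le_of_eq (Eq.symm h2))⟩

lemma KK_nhds (G : Glob f r z) {c : ℝ} (h0 : 0 ≤ c) : KK f z c ∈ 𝓝 (0 : ℝ × ℝ) := by
  have h1 : IsOpen {u : ℝ × ℝ | f (z + u) < c} := isOpen_lt (G.cont.comp (by fun_prop))
    continuous_const
  have h2 : (0 : ℝ × ℝ) ∈ {u : ℝ × ℝ | f (z + u) < c} := by
    show f (z + 0) < c
    rw [add_zero]
    exact lt_of_lt_of_le G.neg h0
  filter_upwards [h1.mem_nhds h2] with u hu using le_of_lt hu

lemma gauge_pos' (G : Glob f r z) {c : ℝ} (h0 : 0 ≤ c) (h1 : c < r) {u : ℝ × ℝ} (hu : u ≠ 0) :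
    0 < gauge (KK f z c) u :=
  (gauge_pos (absorbent_nhds_zero (KK_nhds G h0))
    (NormedSpace.isVonNBounded_of_isBounded ℝ (KK_bdd G h0 h1))).2 hu

lemma lt_iff (G : Glob f r z) {c : ℝ} (h0 : 0 ≤ c) (h1 : c < r) (u : ℝ × ℝ) :
    f (z + u) < c ↔ gauge (KK f z c) u < 1 := by
  rw [gauge_lt_one_iff_mem_interior (KK_convex G h0 h1) (KK_nhds G h0), KK_interior G h0 h1]
  rfl

lemma eq_iff (G : Glob f r z) {c : ℝ} (h0 : 0 ≤ c) (h1 : c < r) (u : ℝ × ℝ) :
    f (z + u) = c ↔ gauge (KK f z c) u = 1 := by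
  rw [gauge_eq_one_iff_mem_frontier (KK_convex G h0 h1) (KK_nhds G h0), KK_frontier G h0 h1]
  rfl

/-- the point of the leaf on a ray -/
lemma ray (G : Glob f r z) {c : ℝ} (h0 : 0 ≤ c) (h1 : c < r) {u : ℝ × ℝ} (hu : u ≠ 0) :
    f (z + (gauge (KK f z c) u)⁻¹ • u) = c := by
  have hg := gauge_pos' G h0 h1 hu
  rw [eq_iff G h0 h1, gauge_smul_of_nonneg (by positivity), smul_eq_mul,
    inv_mul_cancel₀ hg.ne']

lemma leaf_eq_image (G : Glob f r z) {c : ℝ} (h0 : 0 ≤ c) (h1 : c < r) :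
    {p | f p = c} = (fun u : ℝ × ℝ => z + (gauge (KK f z c) u)⁻¹ • u) '' {0}ᶜ := by
  ext p
  constructor
  · intro hp
    have hp' : f p = c := hp
    have hpz : p - z ≠ 0 := by
      intro h
      have : p = z := sub_eq_zero.1 h
      rw [this] at hp'
      have := G.neg
      linarith
    refine ⟨p - z, hpz, ?_⟩
    have h2 : gauge (KK f z c) (p - z) = 1 := by
      rw [← eq_iff G h0 h1, add_sub_cancel]
      exact hp'
    simp [h2]
  · rintro ⟨u, hu, rfl⟩
    exact ray G h0 h1 hu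

lemma leaf_conn (G : Glob f r z) {c : ℝ} (h0 : 0 ≤ c) (h1 : c < r) :
    IsPreconnected {p | f p = c} := by
  rw [leaf_eq_image G h0 h1]
  have hrank : 1 < Module.rank ℝ (ℝ × ℝ) := by
    rw [rank_prod]
    simp only [Module.rank_self]
    rw [Cardinal.lift_one]
    norm_num
  refine (isConnected_compl_singleton_of_one_lt_rank hrank (0 : ℝ × ℝ)).isPreconnected.image _ ?_
  have hc : Continuous (gauge (KK f z c)) := continuous_gauge (KK_convex G h0 h1) (KK_nhds G h0)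
  have hi : ContinuousOn (fun u => (gauge (KK f z c) u)⁻¹) ({0}ᶜ : Set (ℝ × ℝ)) :=
    hc.continuousOn.inv₀ fun u hu => (gauge_pos' G h0 h1 hu).ne'
  exact continuousOn_const.add (hi.smul continuousOn_id)

lemma leaf_compact (G : Glob f r z) {c : ℝ} (h0 : 0 ≤ c) (h1 : c < r) :
    IsCompact {p | f p = c} := by
  refine Metric.isCompact_of_isClosed_isBounded (isClosed_eq G.cont continuous_const) ?_
  exact (G.bdd c h0 h1).subset fun p hp => le_of_eq hp

lemma leaf_nonempty (G : Glob f r z) {c : ℝ} (h0 : 0 ≤ c) (h1 : c < r) :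
    ({p | f p = c}).Nonempty :=
  ⟨_, ray G h0 h1 (u := ((1, 0) : ℝ × ℝ)) (fun h => by simpa using congrArg Prod.fst h)⟩

/-- a curved point on every leaf -/
lemma exists_cur (G : Glob f r z) (H : Hyp f {p | 0 < f p ∧ f p < r}) {c : ℝ} (h0 : 0 < c)
    (h1 : c < r) : ∃ p, f p = c ∧ Cur f p := by
  obtain ⟨p, hp, hmax⟩ := (leaf_compact G h0.le h1).exists_isMaxOn (leaf_nonempty G h0.le h1)
    (f := fun q : ℝ × ℝ => (q.1 - z.1) ^ 2 + (q.2 - z.2) ^ 2) (by fun_prop)
  have hp' : f p = c := hp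
  refine ⟨p, hp', far H (z := z) (p := p) ⟨by rw [hp']; exact h0, by rw [hp']; exact h1⟩ ?_⟩
  refine Eventually.of_forall fun q hq => ?_
  exact hmax (show f q = c by rw [hq, hp'])

/-- **Every leaf lies on a conic.** -/
lemma leaf (G : Glob f r z) (H : Hyp f {p | 0 < f p ∧ f p < r}) {c : ℝ} (h0 : 0 < c)
    (h1 : c < r) : ∃ k : Fin 6 → ℝ, k ≠ 0 ∧ ∀ p, f p = c → ev k p = 0 := by
  obtain ⟨p₀, hp₀, hc₀⟩ := exists_cur G H h0 h1
  have hU : ∀ p, f p = c → p ∈ {p | 0 < f p ∧ f p < r} := fun p hp =>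
    ⟨by rw [hp]; exact h0, by rw [hp]; exact h1⟩
  obtain ⟨κ, -, hκ0, hκ⟩ := lc H (hU p₀ hp₀) hc₀
  set k := κ (f p₀) with hk
  have hon : On f k p₀ := by
    filter_upwards [hκ] with q hq h2
    rw [h2] at hq
    exact hq
  have hdet : detK k ≠ 0 := (uniq H (hU p₀ hp₀) hc₀ hκ0 hon hon).2
  refine ⟨k, hκ0, ?_⟩
  set O : Set (ℝ × ℝ) := {p | ∀ᶠ q in 𝓝 p, f q = c → ev k q = 0} with hO
  set V : Set (ℝ × ℝ) := {p | ∀ᶠ q in 𝓝 p, f q = c → q ∉ O} with hV
  have hOo : IsOpen O := by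
    rw [isOpen_iff_mem_nhds]
    intro p hp
    exact hp.eventually_nhds
  have hVo : IsOpen V := by
    rw [isOpen_iff_mem_nhds]
    intro p hp
    exact hp.eventually_nhds
  have hOn : ∀ p, f p = c → (p ∈ O ↔ On f k p) := by
    intro p hp
    unfold On
    rw [hp]
    rfl
  have hcov : {p | f p = c} ⊆ O ∪ V := by
    intro q hq
    have hq' : f q = c := hq
    by_cases hqV : q ∈ V
    · exact Or.inr hqV
    · left
      have hfr : ∃ᶠ p in 𝓝 q, f p = f q ∧ On f k p := by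
        intro hnot
        apply hqV
        filter_upwards [hnot] with p hp h2 h3
        exact hp ⟨by rw [h2, hq'], (hOn p h2).1 h3⟩
      have hcur := closed H (hU q hq') hdet hfr
      obtain ⟨κ', -, hκ'0, hκ'⟩ := lc H (hU q hq') hcur
      -- a point near `q` where both conics contain the leaf
      have e := (ev_cur H (hU q hq') hcur).and hκ'.eventually_nhds
      obtain ⟨p, ⟨hpf, hpon⟩, ⟨hpU, hpc⟩, hpκ⟩ := (hfr.and_eventually e).exists
      have hon' : On f (κ' (f q)) p := by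
        filter_upwards [hpκ] with x hx h2
        rw [h2, hpf] at hx
        exact hx
      obtain ⟨a, ha⟩ := (uniq H hpU hpc hκ'0 hon' hpon).1
      show ∀ᶠ x in 𝓝 q, f x = c → ev k x = 0
      filter_upwards [hκ'] with x hx h2
      rw [h2, ← hq'] at hx
      rw [ha, ev_smul, hx, mul_zero]
  by_contra hne
  push Not at hne
  obtain ⟨q, hq, hqk⟩ := hne
  have hqO : q ∉ O := fun h => hqk (h.self_of_nhds hq)
  have hqV : q ∈ V := (hcov (show f q = c from hq)).resolve_left hqO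
  have := leaf_conn G h0.le h1 O V hOo hVo hcov ⟨p₀, hp₀, (hOn p₀ hp₀).2 hon⟩ ⟨q, hq, hqV⟩
  obtain ⟨x, hx, hxO, hxV⟩ := this
  exact hxV.self_of_nhds hx hxO

end

end Pool.Agent.V5helper21.HD
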