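import Pool.Agent.V5helper21.HD.Core

set_option autoImplicit false

/-!
# The points of a leaf on a moving line
-/

namespace Pool.Agent.V5helper21.HD

open Set Filter Topology
open scoped ContDiff

/-- `f` on the line `y = m x + b` -/
def gl (f : ℝ × ℝ → ℝ) (m b x : ℝ) : ℝ := f (x, m * x + b)

/-- its derivative -/
noncomputable def glx (f : ℝ × ℝ → ℝ) (m b x : ℝ) : ℝ := fderiv ℝ f (x, m * x + b) (1, m)

/-- its second derivative -/
noncomputable def glxx (f : ℝ × ℝ → ℝ) (m b x : ℝ) : ℝ :=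
  fderiv ℝ (fderiv ℝ f) (x, m * x + b) (1, m) (1, m)

lemma hasDerivAt_line (m b x : ℝ) : HasDerivAt (fun x : ℝ => ((x, m * x + b) : ℝ × ℝ)) (1, m) x := by
  have h1 : HasDerivAt (fun x : ℝ => m * x + b) m x := by
    simpa using ((hasDerivAt_id x).const_mul m).add_const b
  exact (hasDerivAt_id x).prodMk h1

section
variable {f : ℝ × ℝ → ℝ} {U : Set (ℝ × ℝ)} (hU : IsOpen U) (hf : ContDiffOn ℝ ∞ f U)
include hU hf

lemma diff_f {p : ℝ × ℝ} (hp : p ∈ U) : DifferentiableAt ℝ f p :=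
  (hf.contDiffAt (hU.mem_nhds hp)).differentiableAt (by simp)

lemma contDiffOn_fderiv : ContDiffOn ℝ ∞ (fderiv ℝ f) U :=
  hf.fderiv_of_isOpen hU (by simp)

lemma diff_fderiv {p : ℝ × ℝ} (hp : p ∈ U) : DifferentiableAt ℝ (fderiv ℝ f) p :=
  ((contDiffOn_fderiv hU hf).contDiffAt (hU.mem_nhds hp)).differentiableAt (by simp)

lemma hasDerivAt_gl {m b x : ℝ} (hp : (x, m * x + b) ∈ U) :
    HasDerivAt (fun x => gl f m b x) (glx f m b x) x :=
  (diff_f hU hf hp).hasFDerivAt.comp_hasDerivAt x (hasDerivAt_line m b x)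

lemma hasDerivAt_glx {m b x : ℝ} (hp : (x, m * x + b) ∈ U) :
    HasDerivAt (fun x => glx f m b x) (glxx f m b x) x := by
  have h1 : HasDerivAt (fun x : ℝ => fderiv ℝ f (x, m * x + b))
      (fderiv ℝ (fderiv ℝ f) (x, m * x + b) (1, m)) x :=
    (diff_fderiv hU hf hp).hasFDerivAt.comp_hasDerivAt x (hasDerivAt_line m b x)
  have h2 := h1.clm_apply (hasDerivAt_const x ((1, m) : ℝ × ℝ))
  rw [map_zero, add_zero] at h2
  exact h2

lemma continuousAt_glx {m b x : ℝ} (hp : (x, m * x + b) ∈ U) :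
    ContinuousAt (fun v : ℝ × ℝ × ℝ => glx f v.1 v.2.1 v.2.2) (m, b, x) := by
  have h1 : ContinuousAt (fun v : ℝ × ℝ × ℝ => ((v.2.2, v.1 * v.2.2 + v.2.1) : ℝ × ℝ)) (m, b, x) := by
    fun_prop
  have h2 : ContinuousAt (fderiv ℝ f) (x, m * x + b) := (diff_fderiv hU hf hp).continuousAt
  have h3 : ContinuousAt (fun v : ℝ × ℝ × ℝ => fderiv ℝ f (v.2.2, v.1 * v.2.2 + v.2.1))
    (m, b, x) := ContinuousAt.comp (f := fun v : ℝ × ℝ × ℝ => ((v.2.2, v.1 * v.2.2 + v.2.1) : ℝ × ℝ))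
      (x := (m, b, x)) h2 h1
  unfold glx
  exact h3.clm_apply (by fun_prop)

lemma continuousAt_glxx {m b x : ℝ} (hp : (x, m * x + b) ∈ U) :
    ContinuousAt (fun v : ℝ × ℝ × ℝ => glxx f v.1 v.2.1 v.2.2) (m, b, x) := by
  have h1 : ContinuousAt (fun v : ℝ × ℝ × ℝ => ((v.2.2, v.1 * v.2.2 + v.2.1) : ℝ × ℝ)) (m, b, x) := by
    fun_prop
  have h2 : ContinuousAt (fderiv ℝ (fderiv ℝ f)) (x, m * x + b) := by
    have h := (contDiffOn_fderiv hU hf).fderiv_of_isOpen hU (m := ∞) (by simp)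
    exact (h.contDiffAt (hU.mem_nhds hp)).continuousAt
  have h3 : ContinuousAt (fun v : ℝ × ℝ × ℝ => fderiv ℝ (fderiv ℝ f) (v.2.2, v.1 * v.2.2 + v.2.1))
    (m, b, x) := ContinuousAt.comp (f := fun v : ℝ × ℝ × ℝ => ((v.2.2, v.1 * v.2.2 + v.2.1) : ℝ × ℝ))
      (x := (m, b, x)) h2 h1
  unfold glxx
  exact (h3.clm_apply (by fun_prop)).clm_apply (by fun_prop)

/-- The points of the leaf `f = c` on the line `y = m x + b` depend smoothly on `(m, b, c)`. -/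
lemma exists_root (m₀ b₀ c₀ x₀ : ℝ) (hp : (x₀, m₀ * x₀ + b₀) ∈ U) (hc : gl f m₀ b₀ x₀ = c₀)
    (hx : glx f m₀ b₀ x₀ ≠ 0) :
    ∃ ψ : ℝ × ℝ × ℝ → ℝ, ψ (m₀, b₀, c₀) = x₀ ∧ ContinuousAt ψ (m₀, b₀, c₀) ∧
      (∀ᶠ w in 𝓝 ((m₀, b₀, c₀) : ℝ × ℝ × ℝ), gl f w.1 w.2.1 (ψ w) = w.2.2 ∧
        DifferentiableAt ℝ ψ w ∧ fderiv ℝ ψ w (1, 0, 0) = ψ w * fderiv ℝ ψ w (0, 1, 0)) ∧
      ∀ᶠ v in 𝓝 (((m₀, b₀, c₀), x₀) : (ℝ × ℝ × ℝ) × ℝ),
        gl f v.1.1 v.1.2.1 v.2 = v.1.2.2 → ψ v.1 = v.2 := by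
  set G : (ℝ × ℝ × ℝ) × ℝ → ℝ := fun v => f (v.2, v.1.1 * v.2 + v.1.2.1) - v.1.2.2 with hG
  set u : (ℝ × ℝ × ℝ) × ℝ := ((m₀, b₀, c₀), x₀) with hu
  have hGu : G u = 0 := by
    show f (x₀, m₀ * x₀ + b₀) - c₀ = 0
    rw [← hc]
    exact sub_self _
  have hcd : ContDiffAt ℝ 1 G u := by
    have h1 : ContDiffAt ℝ 1 (fun v : (ℝ × ℝ × ℝ) × ℝ => ((v.2, v.1.1 * v.2 + v.1.2.1) : ℝ × ℝ)) u := by
      fun_prop
    have h2 : ContDiffAt ℝ 1 f (x₀, m₀ * x₀ + b₀) :=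
      (hf.contDiffAt (hU.mem_nhds hp)).of_le (by exact_mod_cast le_top)
    have h3 : ContDiffAt ℝ 1 (fun v : (ℝ × ℝ × ℝ) × ℝ => f (v.2, v.1.1 * v.2 + v.1.2.1)) u :=
      ContDiffAt.comp (g := f) (f := fun v : (ℝ × ℝ × ℝ) × ℝ =>
        ((v.2, v.1.1 * v.2 + v.1.2.1) : ℝ × ℝ)) u h2 h1
    exact h3.sub (by fun_prop)
  have hG2 : fderiv ℝ G u (0, 1) = glx f m₀ b₀ x₀ := by
    have h1 : HasDerivAt (fun x : ℝ => (((m₀, b₀, c₀), x) : (ℝ × ℝ × ℝ) × ℝ)) (0, 1) x₀ :=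
      (hasDerivAt_const x₀ ((m₀, b₀, c₀) : ℝ × ℝ × ℝ)).prodMk (hasDerivAt_id x₀)
    have h2 : HasFDerivAt G (fderiv ℝ G u) u := (hcd.differentiableAt (by norm_num)).hasFDerivAt
    have h3 := h2.comp_hasDerivAt x₀ h1
    have h4 : HasDerivAt (fun x : ℝ => gl f m₀ b₀ x - c₀) (glx f m₀ b₀ x₀) x₀ :=
      (hasDerivAt_gl hU hf hp).sub_const c₀
    exact h3.unique h4
  have hinv : (fderiv ℝ G u ∘L .inr ℝ (ℝ × ℝ × ℝ) ℝ).IsInvertible := by
    refine ⟨ContinuousLinearEquiv.unitsEquivAut ℝ (Units.mk0 _ hx), ?_⟩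
    ext
    simp [hG2]
  set ψ := hcd.implicitFunction (by norm_num) hinv with hψ
  have hψ0 : ψ (m₀, b₀, c₀) = x₀ := hcd.implicitFunction_apply_self (by norm_num) hinv
  have hψc : ContDiffAt ℝ 1 ψ (m₀, b₀, c₀) :=
    hcd.contDiffAt_implicitFunction (by norm_num) hinv
  have hev : ∀ᶠ w in 𝓝 ((m₀, b₀, c₀) : ℝ × ℝ × ℝ), gl f w.1 w.2.1 (ψ w) = w.2.2 := by
    filter_upwards [hcd.eventually_apply_implicitFunction (by norm_num) hinv] with w hw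
    have : f (ψ w, w.1 * ψ w + w.2.1) - w.2.2 = G u := hw
    rw [hGu] at this
    exact sub_eq_zero.1 this
  have hcont : ContinuousAt ψ (m₀, b₀, c₀) := hψc.continuousAt
  -- near the base point
  have hU' : ∀ᶠ w in 𝓝 ((m₀, b₀, c₀) : ℝ × ℝ × ℝ), (ψ w, w.1 * ψ w + w.2.1) ∈ U := by
    have h1 : ContinuousAt (fun w : ℝ × ℝ × ℝ => ((ψ w, w.1 * ψ w + w.2.1) : ℝ × ℝ))
        (m₀, b₀, c₀) := by fun_prop
    refine h1.eventually_mem (hU.mem_nhds ?_)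
    show (ψ (m₀, b₀, c₀), m₀ * ψ (m₀, b₀, c₀) + b₀) ∈ U
    rw [hψ0]
    exact hp
  have hx' : ∀ᶠ w in 𝓝 ((m₀, b₀, c₀) : ℝ × ℝ × ℝ), glx f w.1 w.2.1 (ψ w) ≠ 0 := by
    have h1 : ContinuousAt (fun w : ℝ × ℝ × ℝ => ((w.1, w.2.1, ψ w) : ℝ × ℝ × ℝ))
        (m₀, b₀, c₀) := by fun_prop
    have h2 : ContinuousAt (fun w : ℝ × ℝ × ℝ => glx f w.1 w.2.1 (ψ w)) (m₀, b₀, c₀) := by
      refine ContinuousAt.comp (f := fun w : ℝ × ℝ × ℝ => ((w.1, w.2.1, ψ w) : ℝ × ℝ × ℝ))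
        (g := fun v : ℝ × ℝ × ℝ => glx f v.1 v.2.1 v.2.2) (x := (m₀, b₀, c₀)) ?_ h1
      show ContinuousAt _ (m₀, b₀, ψ (m₀, b₀, c₀))
      rw [hψ0]
      exact continuousAt_glx hU hf hp
    refine h2.eventually_ne ?_
    show glx f m₀ b₀ (ψ (m₀, b₀, c₀)) ≠ 0
    rw [hψ0]
    exact hx
  refine ⟨ψ, hψ0, hcont, ?_, ?_⟩
  · filter_upwards [hev.eventually_nhds, hψc.eventually (by simp), hU', hx'] with w hw hwc hwU hwx
    have hwd : DifferentiableAt ℝ ψ w := hwc.differentiableAt (by norm_num)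
    refine ⟨hw.self_of_nhds, hwd, ?_⟩
    obtain ⟨m, b, c⟩ := w
    simp only at hw hwU hwx ⊢
    set D := fderiv ℝ f (ψ (m, b, c), m * ψ (m, b, c) + b) with hD
    have hDf : HasFDerivAt f D (ψ (m, b, c), m * ψ (m, b, c) + b) :=
      (diff_f hU hf hwU).hasFDerivAt
    have hDa : ∀ a a' : ℝ, D (a, a') = a * D (1, 0) + a' * D (0, 1) := by
      intro a a'
      have : ((a, a') : ℝ × ℝ) = a • (1, 0) + a' • (0, 1) := by ext <;> simp
      rw [this, map_add, map_smul, map_smul, smul_eq_mul, smul_eq_mul]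
    -- derivative in `m`
    have lm : HasDerivAt (fun m' : ℝ => ((m', b, c) : ℝ × ℝ × ℝ)) (1, 0, 0) m :=
      (hasDerivAt_id m).prodMk (hasDerivAt_const m ((b, c) : ℝ × ℝ))
    have lb : HasDerivAt (fun b' : ℝ => ((m, b', c) : ℝ × ℝ × ℝ)) (0, 1, 0) b :=
      (hasDerivAt_const b m).prodMk ((hasDerivAt_id b).prodMk (hasDerivAt_const b c))
    have pm : HasDerivAt (fun m' : ℝ => ψ (m', b, c)) (fderiv ℝ ψ (m, b, c) (1, 0, 0)) m :=
      hwd.hasFDerivAt.comp_hasDerivAt m lm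
    have pb : HasDerivAt (fun b' : ℝ => ψ (m, b', c)) (fderiv ℝ ψ (m, b, c) (0, 1, 0)) b :=
      hwd.hasFDerivAt.comp_hasDerivAt b lb
    set α := fderiv ℝ ψ (m, b, c) (1, 0, 0) with hα
    set β := fderiv ℝ ψ (m, b, c) (0, 1, 0) with hβ
    have qm : D (α, ψ (m, b, c) + m * α) = 0 := by
      have h1 : HasDerivAt (fun m' : ℝ => ((ψ (m', b, c), m' * ψ (m', b, c) + b) : ℝ × ℝ))
          (α, 1 * ψ (m, b, c) + m * α) m := pm.prodMk (((hasDerivAt_id m).mul pm).add_const b)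
      have h2 : HasDerivAt (fun m' : ℝ => f (ψ (m', b, c), m' * ψ (m', b, c) + b))
          (D (α, 1 * ψ (m, b, c) + m * α)) m := hDf.comp_hasDerivAt m h1
      have h3 : (fun m' : ℝ => f (ψ (m', b, c), m' * ψ (m', b, c) + b)) =ᶠ[𝓝 m] fun _ => c := by
        have := (lm.continuousAt.tendsto).eventually hw
        filter_upwards [this] with m' hm' using hm'
      have h4 := (h2.congr_of_eventuallyEq h3.symm).unique (hasDerivAt_const m c)
      rwa [one_mul] at h4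
    have qb : D (β, m * β + 1) = 0 := by
      have h1 : HasDerivAt (fun b' : ℝ => ((ψ (m, b', c), m * ψ (m, b', c) + b') : ℝ × ℝ))
          (β, m * β + 1) b := pb.prodMk ((pb.const_mul m).add (hasDerivAt_id b))
      have h2 : HasDerivAt (fun b' : ℝ => f (ψ (m, b', c), m * ψ (m, b', c) + b'))
          (D (β, m * β + 1)) b := hDf.comp_hasDerivAt b h1
      have h3 : (fun b' : ℝ => f (ψ (m, b', c), m * ψ (m, b', c) + b')) =ᶠ[𝓝 b] fun _ => c := by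
        have := (lb.continuousAt.tendsto).eventually hw
        filter_upwards [this] with b' hb' using hb'
      exact (h2.congr_of_eventuallyEq h3.symm).unique (hasDerivAt_const b c)
    rw [hDa] at qm qb
    have hgx : D (1, 0) + m * D (0, 1) ≠ 0 := by
      intro h0
      apply hwx
      show D (1, m) = 0
      rw [hDa]
      linear_combination h0
    have key : (D (1, 0) + m * D (0, 1)) * (α - ψ (m, b, c) * β) = 0 := by
      linear_combination qm - ψ (m, b, c) * qb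
    have := (mul_eq_zero.1 key).resolve_left hgx
    linarith
  · filter_upwards [hcd.eventually_apply_eq_iff_implicitFunction (by norm_num) hinv] with v hv h
    refine hv.1 ?_
    rw [hGu]
    show f (v.2, v.1.1 * v.2 + v.1.2.1) - v.1.2.2 = 0
    have : f (v.2, v.1.1 * v.2 + v.1.2.1) = v.1.2.2 := h
    rw [this, sub_self]

end

end Pool.Agent.V5helper21.HD
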