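import Pool.Agent.V5helper21.HD.Arc

set_option autoImplicit false

/-!
# The conics of the leaves, without a choice of coordinates
-/

namespace Pool.Agent.V5helper21.HD

open Set Filter Topology
open scoped ContDiff

/-- exchange of the coordinates of a conic -/
def ksw (k : Fin 6 → ℝ) : Fin 6 → ℝ := ![k 0, k 2, k 1, k 5, k 4, k 3]

lemma ev_ksw (k : Fin 6 → ℝ) (p : ℝ × ℝ) : ev (ksw k) (p.2, p.1) = ev k p := by
  simp only [ev, ksw]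
  simp
  ring

lemma ksw_ksw (k : Fin 6 → ℝ) : ksw (ksw k) = k := by
  ext i
  fin_cases i <;> simp [ksw]

lemma ksw_ne {k : Fin 6 → ℝ} (h : k ≠ 0) : ksw k ≠ 0 := by
  intro h0
  apply h
  rw [← ksw_ksw k, h0]
  ext i
  fin_cases i <;> simp [ksw]

lemma ksw_smul (a : ℝ) (k : Fin 6 → ℝ) : ksw (a • k) = a • ksw k := by
  ext i
  fin_cases i <;> simp [ksw]

lemma detK_ksw (k : Fin 6 → ℝ) : detK (ksw k) = detK k := by
  simp only [detK, ksw]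
  simp
  ring

lemma tend_sw (p : ℝ × ℝ) : Tendsto (fun q : ℝ × ℝ => ((q.2, q.1) : ℝ × ℝ)) (𝓝 p)
    (𝓝 (p.2, p.1)) :=
  (continuousAt_snd.prodMk continuousAt_fst :
    ContinuousAt (fun q : ℝ × ℝ => ((q.2, q.1) : ℝ × ℝ)) p)

lemma On.sw {f : ℝ × ℝ → ℝ} {k : Fin 6 → ℝ} {p : ℝ × ℝ} (h : On f k p) :
    On (swp f) (ksw k) (p.2, p.1) := by
  have h1 := (tend_sw (p.2, p.1)).eventually h
  filter_upwards [h1] with q hq h2
  have := hq h2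
  rw [← ev_ksw] at this
  exact this

section
variable {f : ℝ × ℝ → ℝ} {U : Set (ℝ × ℝ)}

/-- **The family of conics near a curved point.** -/
lemma lc (H : Hyp f U) {p : ℝ × ℝ} (hp : p ∈ U) (hc : Cur f p) : LC f p := by
  rcases fy_or H hp with hσ | hσ
  · exact lc_graph H hp hσ hc
  · obtain ⟨κ, h1, h2, h3⟩ := lc_graph H.swp (p := (p.2, p.1)) hp hσ (hc.swp H hp)
    have e : swp f (p.2, p.1) = f p := rfl
    rw [e] at h1 h2
    refine ⟨fun c => ksw (κ c), ?_, ksw_ne h2, ?_⟩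
    · rw [contDiffAt_pi] at h1 ⊢
      intro i
      fin_cases i
      · exact h1 0
      · exact h1 2
      · exact h1 1
      · exact h1 5
      · exact h1 4
      · exact h1 3
    · have h4 := (tend_sw p).eventually h3
      filter_upwards [h4] with q hq
      have := hq
      have e2 := ev_ksw (ksw (κ (f q))) q
      rw [ksw_ksw] at e2
      rw [← e2]
      exact this

lemma uniq (H : Hyp f U) {p : ℝ × ℝ} (hp : p ∈ U)
    (hc : Cur f p) {k k' : Fin 6 → ℝ} (hk : k ≠ 0) (h : On f k p) (h' : On f k' p) :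
    (∃ a : ℝ, k' = a • k) ∧ detK k ≠ 0 := by
  rcases fy_or H hp with hσ | hσ
  · exact uniq_graph H hp hσ hc hk h h'
  · obtain ⟨⟨a, ha⟩, h2⟩ := uniq_graph H.swp (p := (p.2, p.1)) hp hσ (hc.swp H hp) (ksw_ne hk)
      h.sw h'.sw
    refine ⟨⟨a, ?_⟩, ?_⟩
    · rw [← ksw_ksw k', ha, ksw_smul, ksw_ksw]
    · rwa [detK_ksw] at h2

lemma Cur.of_swp (H : Hyp f U) {p : ℝ × ℝ} (hp : p ∈ U) (h : Cur (Pool.Agent.V5helper21.HD.swp f)
    (p.2, p.1)) : Cur f p := Cur.swp H.swp (p := (p.2, p.1)) hp h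

lemma closed (H : Hyp f U) {q : ℝ × ℝ} (hq : q ∈ U)
    {k : Fin 6 → ℝ} (hdet : detK k ≠ 0) (h : ∃ᶠ p in 𝓝 q, f p = f q ∧ On f k p) : Cur f q := by
  rcases fy_or H hq with hσ | hσ
  · exact closed_graph H hq hσ hdet h
  · refine Cur.of_swp H hq (closed_graph H.swp (q := (q.2, q.1)) hq hσ (k := ksw k) ?_ ?_)
    · rwa [detK_ksw]
    · refine (tend_sw q).frequently (h.mono fun p hp => ⟨hp.1, hp.2.sw⟩)

lemma far (H : Hyp f U) {p z : ℝ × ℝ} (hp : p ∈ U)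
    (h : ∀ᶠ q in 𝓝 p, f q = f p → (q.1 - z.1) ^ 2 + (q.2 - z.2) ^ 2 ≤
      (p.1 - z.1) ^ 2 + (p.2 - z.2) ^ 2) : Cur f p := by
  rcases fy_or H hp with hσ | hσ
  · exact far_graph H hp hσ h
  · refine Cur.of_swp H hp (far_graph H.swp (p := (p.2, p.1)) (z := (z.2, z.1)) hp hσ ?_)
    filter_upwards [(tend_sw (p.2, p.1)).eventually h] with q hq h2
    have := hq h2
    show (q.1 - z.2) ^ 2 + (q.2 - z.1) ^ 2 ≤ (p.2 - z.2) ^ 2 + (p.1 - z.1) ^ 2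
    have e1 : ((q.2 : ℝ) - z.1) ^ 2 + (q.1 - z.2) ^ 2 ≤ (p.1 - z.1) ^ 2 + (p.2 - z.2) ^ 2 := this
    linarith

lemma dens (H : Hyp f U) {p₀ : ℝ × ℝ} (hp₀ : p₀ ∈ U)
    (hc : Cur f p₀) {O : Set (ℝ × ℝ)} (hO : O ∈ 𝓝 p₀) (hσ : fderiv ℝ f p₀ (0, 1) ≠ 0) :
    ∃ p ∈ O, LocPencil f p := exists_loc H hp₀ hσ hc hO

/-- curved points form an open set -/
lemma ev_cur (H : Hyp f U) {p : ℝ × ℝ} (hp : p ∈ U) (hc : Cur f p) :
    ∀ᶠ q in 𝓝 p, q ∈ U ∧ Cur f q := by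
  rcases fy_or H hp with hσ | hσ
  · exact (ev_good H hp hσ hc).mono fun q hq => ⟨hq.1, hq.2.2⟩
  · have h1 := ev_good H.swp (p := (p.2, p.1)) hp hσ (hc.swp H hp)
    filter_upwards [(tend_sw p).eventually h1] with q hq
    exact ⟨hq.1, Cur.of_swp H hq.1 hq.2.2⟩

lemma exists_loc' (H : Hyp f U) {p₀ : ℝ × ℝ} (hp₀ : p₀ ∈ U) (hc : Cur f p₀)
    {O : Set (ℝ × ℝ)} (hO : O ∈ 𝓝 p₀) : ∃ p ∈ O, LocPencil f p := by
  rcases fy_or H hp₀ with hσ | hσ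
  · exact exists_loc H hp₀ hσ hc hO
  · have hO' : (fun q : ℝ × ℝ => ((q.2, q.1) : ℝ × ℝ)) ⁻¹' O ∈ 𝓝 ((p₀.2, p₀.1) : ℝ × ℝ) :=
      (tend_sw (p₀.2, p₀.1)).eventually hO
    obtain ⟨p, hp, δ, hδ, A, B, h⟩ := exists_loc H.swp (p₀ := (p₀.2, p₀.1)) hp₀ hσ
      (hc.swp H hp₀) hO'
    have hball : ∀ q : ℝ × ℝ, q ∈ Metric.ball ((p.2, p.1) : ℝ × ℝ) δ →
        ((q.2, q.1) : ℝ × ℝ) ∈ Metric.ball p δ := by
      intro q hq
      rw [Metric.mem_ball, Prod.dist_eq, max_lt_iff] at hq ⊢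
      exact ⟨hq.2, hq.1⟩
    refine ⟨(p.2, p.1), hp, δ, hδ, ksw A, ksw B, fun q hq => ?_⟩
    obtain ⟨k, hk, hk0, h1⟩ := h (q.2, q.1) (hball q hq)
    refine ⟨ksw k, ?_, ksw_ne hk0, fun q' hq' hqq => ?_⟩
    · rw [Submodule.mem_span_pair] at hk ⊢
      obtain ⟨a, b, rfl⟩ := hk
      refine ⟨a, b, ?_⟩
      ext i
      fin_cases i <;> simp [ksw]
    · have h2 := h1 (q'.2, q'.1) (hball q' hq') hqq
      have e2 := ev_ksw (ksw k) q'
      rw [ksw_ksw] at e2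
      rw [← e2]
      exact h2

end

end Pool.Agent.V5helper21.HD
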